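import Mathlib
import Pool.Graph.R_pool_sql_team_seeded_63374d34.Results.MP_688fd0_co.ClassTwo

/-! Hamiltonian paths in Cayley graphs: the lifting argument for an abelian normal subgroup `N`
and a complement `K`. -/

namespace Pool.Agent.H178.CL

variable {Γ : Type*} [Group Γ]

/-- Right multiplication by an element of `A` leads from `g` to `h`. -/
def Stp (A : Set Γ) (g h : Γ) : Prop := g⁻¹ * h ∈ A

/-- `l` is a path through `S` with steps in `A` which begins in `x` and ends in `y` and visits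
each element of `S` once. -/
def Ham (A S : Set Γ) (x y : Γ) (l : List Γ) : Prop :=
  l.Nodup ∧ (∀ g, g ∈ l ↔ g ∈ S) ∧ l.IsChain (fun g h => g⁻¹ * h ∈ A) ∧
    l.head? = some x ∧ l.getLast? = some y

/-- A list which visits each element of `⟨A⟩` once with steps in `A` gives a listing sequence. -/
theorem toListing (A : Set Γ) (hne : A.Nonempty) (l : List Γ) (hl : l.Nodup)
    (hmem : ∀ g, g ∈ l ↔ g ∈ Subgroup.closure A) (hch : l.IsChain (Stp A)) :
    ∃ a : Fin (Nat.card (Subgroup.closure A)) → Γ, (∀ i, a i ∈ A) ∧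
      Function.Injective (fun k : Fin (Nat.card (Subgroup.closure A)) =>
        ((List.ofFn a).take (k.val + 1)).prod) := by
  classical
  obtain ⟨a₀, ha₀⟩ := hne
  have hne' : l ≠ [] := by
    rintro rfl
    have := (hmem 1).2 (Subgroup.one_mem _)
    simp at this
  set u := l.head hne' with hu
  -- translate
  have huc : u ∈ Subgroup.closure A := (hmem u).1 (List.head_mem hne')
  set l' : List Γ := l.map (fun g => (a₀ * u⁻¹) * g) with hl'
  have hl'nd : l'.Nodup := hl.map (mul_right_injective _)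
  have hl'mem : ∀ g, g ∈ l' ↔ g ∈ Subgroup.closure A := by
    intro g
    have hc : a₀ * u⁻¹ ∈ Subgroup.closure A :=
      Subgroup.mul_mem _ (Subgroup.subset_closure ha₀) (Subgroup.inv_mem _ huc)
    rw [hl', List.mem_map]
    constructor
    · rintro ⟨h, hh, rfl⟩
      exact Subgroup.mul_mem _ hc ((hmem h).1 hh)
    · intro hg
      exact ⟨(a₀ * u⁻¹)⁻¹ * g, (hmem _).2 (Subgroup.mul_mem _ (Subgroup.inv_mem _ hc) hg),
        mul_inv_cancel_left _ _⟩
  have hl'ch : l'.IsChain (Stp A) := by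
    rw [hl', List.isChain_map]
    refine hch.imp ?_
    intro g h hgh
    show ((a₀ * u⁻¹) * g)⁻¹ * ((a₀ * u⁻¹) * h) ∈ A
    have : ((a₀ * u⁻¹) * g)⁻¹ * ((a₀ * u⁻¹) * h) = g⁻¹ * h := by group
    rw [this]
    exact hgh
  have hlen : l'.length = Nat.card (Subgroup.closure A) := by
    have h1 : (Subgroup.closure A : Set Γ) = (l'.toFinset : Set Γ) := by
      ext g
      simp only [SetLike.mem_coe, List.coe_toFinset, Set.mem_ofPred_eq]
      exact (hl'mem g).symm
    have h2 : Nat.card (Subgroup.closure A) = ((Subgroup.closure A : Set Γ)).ncard := by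
      rw [← Nat.card_coe_set_eq]; rfl
    rw [h2, h1, Set.ncard_coe_finset, List.toFinset_card_of_nodup hl'nd]
  rw [← hlen]
  have hpos : 0 < l'.length := by
    rw [hl', List.length_map]
    exact List.length_pos_of_ne_nil hne'
  have hhead : l'[0] = a₀ := by
    have h1 : l[0]'(List.length_pos_of_ne_nil hne') = u := by
      rw [hu, List.head_eq_getElem]
    simp only [hl', List.getElem_map, h1]
    group
  refine ⟨fun i => if h : i.val = 0 then l'[0] else (l'[i.val - 1])⁻¹ * l'[i.val], ?_, ?_⟩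
  · intro i
    by_cases h : i.val = 0
    · simp only [h, dif_pos]
      rw [hhead]; exact ha₀
    · simp only [h, dif_neg, not_false_iff]
      have h1 := List.isChain_iff_getElem.1 hl'ch (i.val - 1) (by omega)
      have h2 : i.val - 1 + 1 = i.val := by omega
      simp only [h2] at h1
      exact h1
  · set a : Fin l'.length → Γ := fun i =>
      if h : i.val = 0 then l'[0] else (l'[i.val - 1])⁻¹ * l'[i.val] with ha
    have hprod : ∀ k (hk : k < l'.length), ((List.ofFn a).take (k + 1)).prod = l'[k] := by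
      intro k
      induction k with
      | zero =>
        intro hk
        rw [List.prod_take_succ _ 0 (by simpa using hk)]
        simp [ha]
      | succ k ih =>
        intro hk
        rw [List.prod_take_succ _ (k + 1) (by simpa using hk), ih (by omega)]
        simp [ha]
    intro i j hij
    simp only at hij
    rw [hprod i.val i.isLt, hprod j.val j.isLt] at hij
    exact Fin.ext ((List.Nodup.getElem_inj_iff hl'nd).1 hij)

/-- For every nonempty symmetric subset `X` of `N` which generates a finite group there is a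
Hamiltonian path of the Cayley graph of `⟨X⟩` with respect to `X`. -/
def Trc (N : Subgroup Γ) : Prop :=
  ∀ X : Set Γ, X.Nonempty → X ⊆ N → (∀ x ∈ X, x⁻¹ ∈ X) → (Subgroup.closure X : Set Γ).Finite →
    ∃ L : List Γ, L ≠ [] ∧ L.Nodup ∧ (∀ g, g ∈ L ↔ g ∈ Subgroup.closure X) ∧ L.IsChain (Stp X)

/-- Groups of nilpotency class at most two. -/
theorem trc_classTwo (N : Subgroup Γ)
    (hN : ∀ x ∈ N, ∀ y ∈ N, ∀ z ∈ N, (x * y * x⁻¹ * y⁻¹) * z = z * (x * y * x⁻¹ * y⁻¹)) :
    Trc N := by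
  classical
  intro X hne hXN hXs hfin
  have hMN : Subgroup.closure X ≤ N := (Subgroup.closure_le _).2 hXN
  have : Finite (Subgroup.closure X) := hfin.to_subtype
  set M := Subgroup.closure X with hM
  have hcl : Subgroup.closure ((fun x : M => (x : Γ)) ⁻¹' X) = ⊤ :=
    Subgroup.closure_closure_coe_preimage
  have hcom : commutator M ≤ Subgroup.center M := by
    rw [commutator_def, Subgroup.commutator_le]
    rintro ⟨x, hx⟩ - ⟨y, hy⟩ -
    rw [Subgroup.mem_center_iff]
    rintro ⟨z, hz⟩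
    apply Subtype.ext
    exact (hN x (hMN hx) y (hMN hy) z (hMN hz)).symm
  obtain ⟨x₀, hx₀⟩ := hne
  obtain ⟨a, ha1, ha2⟩ := Pool.Agent.Results.MP_688fd0_co.ClassTwo.result hcom
    ((fun x : M => (x : Γ)) ⁻¹' X) (fun x hx => hXs _ hx)
    ⟨⟨x₀, Subgroup.subset_closure hx₀⟩, hx₀⟩ hcl
  set f : Fin (Nat.card M) → M := fun k => ((List.ofFn a).take (k.val + 1)).prod with hf
  have hinj : Function.Injective f := ha2
  have hsurj : Function.Surjective f := by
    have h1 : Function.Bijective f := by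
      have := Fintype.ofFinite M
      rw [Fintype.bijective_iff_injective_and_card]
      exact ⟨hinj, by rw [Fintype.card_fin, Nat.card_eq_fintype_card]⟩
    exact h1.2
  refine ⟨List.ofFn (fun k => ((f k : M) : Γ)), ?_, ?_, ?_, ?_⟩
  · intro h
    have h1 := congrArg List.length h
    rw [List.length_ofFn, List.length_nil] at h1
    exact Nat.card_pos.ne' h1
  · exact List.nodup_ofFn_ofInjective (Subtype.val_injective.comp hinj)
  · intro g
    rw [List.mem_ofFn]
    constructor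
    · rintro ⟨k, rfl⟩
      exact (f k).2
    · intro hg
      obtain ⟨k, hk⟩ := hsurj ⟨g, hg⟩
      exact ⟨k, by simp only [hk]⟩
  · rw [List.isChain_iff_getElem]
    intro i hi
    rw [List.length_ofFn] at hi
    rw [List.getElem_ofFn, List.getElem_ofFn]
    have h1 : f ⟨i + 1, hi⟩ = f ⟨i, by omega⟩ * a ⟨i + 1, hi⟩ := by
      rw [hf]
      simp only
      rw [List.prod_take_succ _ (i + 1) (by rw [List.length_ofFn]; exact hi), List.getElem_ofFn]
    show ((f ⟨i, _⟩ : M) : Γ)⁻¹ * ((f ⟨i + 1, _⟩ : M) : Γ) ∈ X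
    rw [h1, Subgroup.coe_mul, inv_mul_cancel_left]
    exact ha1 _

/-- `Trc` in terms of listing sequences. -/
theorem trc_of_listing (N : Subgroup Γ)
    (hN : ∀ X : Set Γ, X.Nonempty → X ⊆ N → (∀ x ∈ X, x⁻¹ ∈ X) →
      (Subgroup.closure X : Set Γ).Finite →
      ∃ a : Fin (Nat.card (Subgroup.closure X)) → Γ, (∀ i, a i ∈ X) ∧
        Function.Injective (fun k : Fin (Nat.card (Subgroup.closure X)) =>
          ((List.ofFn a).take (k.val + 1)).prod)) :
    Trc N := by
  classical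
  intro X hne hXN hXs hfin
  have : Finite (Subgroup.closure X) := hfin.to_subtype
  obtain ⟨a, ha1, hinj⟩ := hN X hne hXN hXs hfin
  set f : Fin (Nat.card (Subgroup.closure X)) → Γ := fun k => ((List.ofFn a).take (k.val + 1)).prod with hf
  have hfM : ∀ k, f k ∈ Subgroup.closure X := by
    intro k
    apply Subgroup.list_prod_mem
    intro x hx
    obtain ⟨i, rfl⟩ := List.mem_ofFn.1 (List.mem_of_mem_take hx)
    exact Subgroup.subset_closure (ha1 i)
  have hsurj : ∀ g ∈ Subgroup.closure X, ∃ k, f k = g := by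
    intro g hg
    have h1 : Function.Bijective (fun k => (⟨f k, hfM k⟩ : Subgroup.closure X)) := by
      have := Fintype.ofFinite (Subgroup.closure X)
      rw [Fintype.bijective_iff_injective_and_card]
      exact ⟨fun x y hxy => hinj (Subtype.ext_iff.1 hxy),
        by rw [Fintype.card_fin, Nat.card_eq_fintype_card]⟩
    obtain ⟨k, hk⟩ := h1.2 ⟨g, hg⟩
    exact ⟨k, Subtype.ext_iff.1 hk⟩
  refine ⟨List.ofFn f, ?_, ?_, ?_, ?_⟩
  · intro h
    have h1 := congrArg List.length h
    rw [List.length_ofFn, List.length_nil] at h1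
    exact Nat.card_pos.ne' h1
  · exact List.nodup_ofFn_ofInjective hinj
  · intro g
    rw [List.mem_ofFn]
    constructor
    · rintro ⟨k, rfl⟩
      exact hfM k
    · intro hg
      exact hsurj g hg
  · rw [List.isChain_iff_getElem]
    intro i hi
    rw [List.length_ofFn] at hi
    rw [List.getElem_ofFn, List.getElem_ofFn]
    have h1 : f ⟨i + 1, hi⟩ = f ⟨i, by omega⟩ * a ⟨i + 1, hi⟩ := by
      rw [hf]
      simp only
      rw [List.prod_take_succ _ (i + 1) (by rw [List.length_ofFn]; exact hi), List.getElem_ofFn]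
    show (f ⟨i, _⟩)⁻¹ * (f ⟨i + 1, _⟩) ∈ X
    rw [h1, inv_mul_cancel_left]
    exact ha1 _

/-- The lifting theorem along a path in the graph of the cosets of `K`. -/
theorem lift0 (A : Set Γ) (hne : A.Nonempty) (K : Subgroup Γ) (L : List Γ) (hLne : L ≠ [])
    (hL1 : L.Pairwise (fun x y => x⁻¹ * y ∉ K))
    (hL2 : ∀ g, g ∈ Subgroup.closure A ↔ ∃ n ∈ L, n⁻¹ * g ∈ K)
    (D : Set Γ) (hDA : D ⊆ A) (hDne : D.Nonempty)
    (hL3 : L.IsChain (fun x y => ∃ k ∈ K, ∃ a ∈ D, y⁻¹ * x * k * a ∈ K))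
    (hD : ∀ a ∈ D, ∀ k ∈ K, ∃ c ∈ K, a⁻¹ * c * a ∈ K ∧ ∃ l, Ham A K 1 (k * c) l) :
    ∃ a : Fin (Nat.card (Subgroup.closure A)) → Γ, (∀ i, a i ∈ A) ∧
      Function.Injective (fun k : Fin (Nat.card (Subgroup.closure A)) =>
        ((List.ofFn a).take (k.val + 1)).prod) := by
  classical
  -- the paths in the cosets
  have hcoset : ∀ n u y (l : List Γ), n⁻¹ * u ∈ K → Ham A K 1 y l →
      Ham A {g | n⁻¹ * g ∈ K} u (u * y) (l.map (fun g => u * g)) := by
    rintro n u y l hu ⟨h1, h2, h3, h4, h5⟩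
    refine ⟨h1.map (mul_right_injective _), ?_, ?_, ?_, ?_⟩
    · intro g
      rw [List.mem_map, Set.mem_ofPred_eq]
      constructor
      · rintro ⟨h, hh, rfl⟩
        rw [← mul_assoc]
        exact K.mul_mem hu ((h2 h).1 hh)
      · intro hg
        refine ⟨u⁻¹ * g, (h2 _).2 ?_, mul_inv_cancel_left _ _⟩
        have : u⁻¹ * g = (n⁻¹ * u)⁻¹ * (n⁻¹ * g) := by group
        rw [SetLike.mem_coe, this]
        exact K.mul_mem (K.inv_mem hu) hg
    · rw [List.isChain_map]
      refine h3.imp ?_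
      intro g h hgh
      have : (u * g)⁻¹ * (u * h) = g⁻¹ * h := by group
      rw [this]
      exact hgh
    · rw [List.head?_map, h4, Option.map_some, mul_one]
    · rw [List.getLast?_map, h5, Option.map_some]
  -- the main induction
  have main : ∀ L : List Γ, L.Pairwise (fun x y => x⁻¹ * y ∉ K) →
      L.IsChain (fun x y => ∃ k ∈ K, ∃ a ∈ D, y⁻¹ * x * k * a ∈ K) → ∀ n₀,
      L.head? = some n₀ → ∀ u, n₀⁻¹ * u ∈ K → ∃ l : List Γ, l.Nodup ∧
        (∀ g, g ∈ l ↔ ∃ n ∈ L, n⁻¹ * g ∈ K) ∧ l.IsChain (Stp A) ∧ l.head? = some u := by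
    intro L
    induction L with
    | nil => intro _ _ n₀ h; simp at h
    | cons n₁ L ih =>
      intro hnd hch n₀ hn₀ u hu
      obtain rfl : n₁ = n₀ := by simpa using hn₀
      cases L with
      | nil =>
        obtain ⟨a, ha⟩ := hDne
        obtain ⟨c, hc, -, l, hl⟩ := hD a ha 1 K.one_mem
        obtain ⟨h1, h2, h3, h4, h5⟩ := hcoset n₁ u _ l hu hl
        exact ⟨_, h1, fun g => by rw [h2]; simp, h3, h4⟩
      | cons n₂ L =>
        obtain ⟨k, hk, a, ha, hka⟩ := (List.isChain_cons_cons.1 hch).1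
        have hku : u⁻¹ * n₁ * k ∈ K := by
          have : u⁻¹ * n₁ * k = (n₁⁻¹ * u)⁻¹ * k := by group
          rw [this]
          exact K.mul_mem (K.inv_mem hu) hk
        obtain ⟨c, hc, hc', l, hl⟩ := hD a ha _ hku
        obtain ⟨h1, h2, h3, h4, h5⟩ := hcoset n₁ u _ l hu hl
        set v := u * (u⁻¹ * n₁ * k * c) with hv
        have hv' : v = n₁ * k * c := by rw [hv]; group
        have hy : n₂⁻¹ * (v * a) ∈ K := by
          have : n₂⁻¹ * (v * a) = (n₂⁻¹ * n₁ * k * a) * (a⁻¹ * c * a) := by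
            rw [hv']; group
          rw [this]
          exact K.mul_mem hka hc'
        obtain ⟨l', g1, g2, g3, g4⟩ := ih (List.pairwise_cons.1 hnd).2
          (List.isChain_cons_cons.1 hch).2 n₂ rfl (v * a) hy
        refine ⟨l.map (fun g => u * g) ++ l', ?_, ?_, ?_, ?_⟩
        · rw [List.nodup_append]
          refine ⟨h1, g1, ?_⟩
          intro g hg g' hg' hgg
          subst hgg
          have e1 := (h2 g).1 hg
          rw [Set.mem_ofPred_eq] at e1
          obtain ⟨n, hn, e2⟩ := (g2 g).1 hg'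
          refine (List.pairwise_cons.1 hnd).1 n hn ?_
          have : n₁⁻¹ * n = (n₁⁻¹ * g) * (n⁻¹ * g)⁻¹ := by group
          rw [this]
          exact K.mul_mem e1 (K.inv_mem e2)
        · intro g
          rw [List.mem_append, h2, g2, Set.mem_ofPred_eq]
          simp only [List.mem_cons, exists_eq_or_imp]
        · rw [List.isChain_append]
          refine ⟨h3, g3, ?_⟩
          intro x hx y hy'
          rw [h5, Option.mem_some_iff] at hx
          rw [g4, Option.mem_some_iff] at hy'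
          subst hx hy'
          show v⁻¹ * (v * a) ∈ A
          rw [inv_mul_cancel_left]
          exact hDA ha
        · rw [List.head?_append, h4]
          rfl
  obtain ⟨l, h1, h2, h3, -⟩ := main L hL1 hL3 _ (List.head?_eq_some_head hLne) (L.head hLne)
    (by simp)
  exact toListing A hne l h1 (fun g => by rw [h2, hL2]) h3

/-- The lifting theorem. -/
theorem lift (A : Set Γ) (hA : ∀ a ∈ A, a⁻¹ ∈ A) (hne : A.Nonempty)
    (hfin : (Subgroup.closure A : Set Γ).Finite) (N K : Subgroup Γ)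
    (hNn : N.Normal) (hN : Trc N) (hNK : N ⊔ K = ⊤) (hNK' : N ⊓ K = ⊥)
    (hKA : K ≤ Subgroup.closure A)
    (hD : ∀ a ∈ A, ∀ k ∈ K, ∃ c ∈ K, a⁻¹ * c * a ∈ K ∧ ∃ l, Ham A K 1 (k * c) l) :
    ∃ a : Fin (Nat.card (Subgroup.closure A)) → Γ, (∀ i, a i ∈ A) ∧
      Function.Injective (fun k : Fin (Nat.card (Subgroup.closure A)) =>
        ((List.ofFn a).take (k.val + 1)).prod) := by
  classical
  set X : Set Γ := {x | x ∈ N ∧ ∃ k ∈ K, ∃ a ∈ A, x⁻¹ * k * a ∈ K} with hXdef
  have hXN : ∀ x ∈ X, x ∈ N := fun x hx => hx.1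
  have hXs : ∀ x ∈ X, x⁻¹ ∈ X := by
    rintro x ⟨hxN, k, hk, a, ha, h⟩
    refine ⟨N.inv_mem hxN, x⁻¹ * k * a, h, a⁻¹, hA a ha, ?_⟩
    have : (x⁻¹)⁻¹ * (x⁻¹ * k * a) * a⁻¹ = k := by group
    rw [this]
    exact hk
  have hXA : X ⊆ Subgroup.closure A := by
    rintro x ⟨hxN, k, hk, a, ha, h⟩
    have : x = k * a * (x⁻¹ * k * a)⁻¹ := by group
    rw [this]
    exact Subgroup.mul_mem _ (Subgroup.mul_mem _ (hKA hk) (Subgroup.subset_closure ha))
      (Subgroup.inv_mem _ (hKA h))
  have hXne : X.Nonempty := by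
    obtain ⟨a, ha⟩ := hne
    have h1 : a ∈ N ⊔ K := by rw [hNK]; trivial
    have := hNn
    obtain ⟨n, hn, k, hk, rfl⟩ := Subgroup.mem_sup_of_normal_left.1 h1
    refine ⟨n, hn, 1, K.one_mem, n * k, ha, ?_⟩
    rw [mul_one, inv_mul_cancel_left]
    exact hk
  obtain ⟨L, hLne, hL1, hL2, hL3⟩ := hN X hXne hXN hXs
    (hfin.subset ((Subgroup.closure_le _).2 hXA))
  set M := Subgroup.closure X with hM
  have hMN : M ≤ N := (Subgroup.closure_le _).2 hXN
  have hMA : M ≤ Subgroup.closure A := (Subgroup.closure_le _).2 hXA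
  -- `K` normalises `M`
  have hconj : ∀ k ∈ K, ∀ m ∈ M, k * m * k⁻¹ ∈ M := by
    intro k hk m hm
    induction hm using Subgroup.closure_induction with
    | mem x hx =>
      apply Subgroup.subset_closure
      obtain ⟨hxN, k', hk', a, ha, h⟩ := hx
      refine ⟨hNn.conj_mem x hxN k, k * k', K.mul_mem hk hk', a, ha, ?_⟩
      have : (k * x * k⁻¹)⁻¹ * (k * k') * a = k * (x⁻¹ * k' * a) := by group
      rw [this]
      exact K.mul_mem hk h
    | one => simp
    | mul x y _ _ hx hy =>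
      have : k * (x * y) * k⁻¹ = (k * x * k⁻¹) * (k * y * k⁻¹) := by group
      rw [this]
      exact M.mul_mem hx hy
    | inv x _ hx =>
      have : k * x⁻¹ * k⁻¹ = (k * x * k⁻¹)⁻¹ := by group
      rw [this]
      exact M.inv_mem hx
  have hMK : ∀ g, g ∈ Subgroup.closure A ↔ ∃ m ∈ M, m⁻¹ * g ∈ K := by
    intro g
    constructor
    · intro hg
      induction hg using Subgroup.closure_induction with
      | mem a ha =>
        have h1 : a ∈ N ⊔ K := by rw [hNK]; trivial
        have := hNn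
        obtain ⟨n, hn, k, hk, rfl⟩ := Subgroup.mem_sup_of_normal_left.1 h1
        refine ⟨n, ?_, by rwa [inv_mul_cancel_left]⟩
        apply Subgroup.subset_closure
        refine ⟨hn, 1, K.one_mem, n * k, ha, ?_⟩
        rw [mul_one, inv_mul_cancel_left]
        exact hk
      | one => exact ⟨1, M.one_mem, by simp⟩
      | mul x y _ _ hx hy =>
        obtain ⟨m, hm, h1⟩ := hx
        obtain ⟨m', hm', h2⟩ := hy
        refine ⟨m * ((m⁻¹ * x) * m' * (m⁻¹ * x)⁻¹), M.mul_mem hm (hconj _ h1 _ hm'), ?_⟩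
        have : (m * ((m⁻¹ * x) * m' * (m⁻¹ * x)⁻¹))⁻¹ * (x * y) = (m⁻¹ * x) * (m'⁻¹ * y) := by
          group
        rw [this]
        exact K.mul_mem h1 h2
      | inv x _ hx =>
        obtain ⟨m, hm, h1⟩ := hx
        refine ⟨(m⁻¹ * x)⁻¹ * m⁻¹ * ((m⁻¹ * x)⁻¹)⁻¹, hconj _ (K.inv_mem h1) _ (M.inv_mem hm), ?_⟩
        have : ((m⁻¹ * x)⁻¹ * m⁻¹ * ((m⁻¹ * x)⁻¹)⁻¹)⁻¹ * x⁻¹ = (m⁻¹ * x)⁻¹ := by group
        rw [this]
        exact K.inv_mem h1
    · rintro ⟨m, hm, h⟩
      have : g = m * (m⁻¹ * g) := by group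
      rw [this]
      exact Subgroup.mul_mem _ (hMA hm) (hKA h)
  refine lift0 A hne K L hLne ?_ ?_ A le_rfl hne ?_ hD
  · refine List.Pairwise.imp_of_mem ?_ (List.nodup_iff_pairwise_ne.1 hL1)
    intro x y hx hy hxy h
    apply hxy
    have h1 : x⁻¹ * y ∈ N ⊓ K := Subgroup.mem_inf.2
      ⟨N.mul_mem (N.inv_mem (hMN ((hL2 x).1 hx))) (hMN ((hL2 y).1 hy)), h⟩
    rwa [hNK', Subgroup.mem_bot, inv_mul_eq_one] at h1
  · intro g
    rw [hMK]
    constructor
    · rintro ⟨n, hn, h⟩
      exact ⟨n, (hL2 n).2 hn, h⟩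
    · rintro ⟨n, hn, h⟩
      exact ⟨n, (hL2 n).1 hn, h⟩
  · refine hL3.imp ?_
    rintro x y ⟨-, k, hk, a, ha, h⟩
    refine ⟨k, hk, a, ha, ?_⟩
    have : y⁻¹ * x * k * a = (x⁻¹ * y)⁻¹ * k * a := by group
    rw [this]
    exact h

/-- Groups with two double cosets of `K`. -/
theorem lift2 [Finite Γ] (A : Set Γ) (hne : A.Nonempty) (hcl : Subgroup.closure A = ⊤)
    (K : Subgroup Γ) (a₀ : Γ) (ha₀ : a₀ ∈ A)
    (hK : ∀ g, g ∈ K ∨ ∃ k ∈ K, ∃ k' ∈ K, g = k * a₀ * k')
    (hD : ∀ k ∈ K, ∃ c ∈ K, a₀⁻¹ * c * a₀ ∈ K ∧ ∃ l, Ham A K 1 (k * c) l) :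
    ∃ a : Fin (Nat.card (Subgroup.closure A)) → Γ, (∀ i, a i ∈ A) ∧
      Function.Injective (fun k : Fin (Nat.card (Subgroup.closure A)) =>
        ((List.ofFn a).take (k.val + 1)).prod) := by
  classical
  have := Fintype.ofFinite (Γ ⧸ K)
  set L : List Γ := (Finset.univ : Finset (Γ ⧸ K)).toList.map Quotient.out with hL
  have hout : ∀ q : Γ ⧸ K, (QuotientGroup.mk q.out : Γ ⧸ K) = q := fun q => Quotient.out_eq q
  have hpair : L.Pairwise (fun x y => x⁻¹ * y ∉ K) := by
    rw [hL, List.pairwise_map]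
    refine (Finset.nodup_toList _).imp ?_
    intro x y hxy h
    apply hxy
    rw [← hout x, ← hout y]
    exact QuotientGroup.eq.2 h
  refine lift0 A hne K L ?_ hpair ?_ {a₀} (by simpa using ha₀) ⟨a₀, rfl⟩ ?_ ?_
  · have h2 : (QuotientGroup.mk (1 : Γ) : Γ ⧸ K).out ∈ L :=
      List.mem_map.2 ⟨_, by simp, rfl⟩
    intro h
    rw [h] at h2
    simp at h2
  · intro g
    rw [hcl]
    simp only [Subgroup.mem_top, true_iff]
    refine ⟨(QuotientGroup.mk g : Γ ⧸ K).out, List.mem_map.2 ⟨_, by simp, rfl⟩, ?_⟩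
    exact QuotientGroup.eq.1 (hout _)
  · refine List.IsChain.imp ?_ (List.Pairwise.isChain hpair)
    intro x y hxy
    rcases hK (x⁻¹ * y) with h | ⟨k, hk, k', hk', h⟩
    · exact absurd h hxy
    · refine ⟨k, hk, a₀, rfl, ?_⟩
      have : y⁻¹ * x * k * a₀ = k'⁻¹ := by
        have h1 : y⁻¹ * x = (k * a₀ * k')⁻¹ := by rw [← h]; group
        rw [h1]; group
      rw [this]
      exact K.inv_mem hk'
  · rintro a rfl
    exact hD

end Pool.Agent.H178.CL
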