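import Pool.Agent.H178.CLb
import Pool.Graph.R_pool_sql_team_seeded_b677cdb8.Results.MP_688fd0_co.PermutationChainsH34

/-! The complement is a symmetric group. -/

namespace Pool.Agent.H178.CL

open Equiv Pool.Agent.Results.MP_688fd0_co.PermutationChainsH34

variable {Γ : Type*} [Group Γ]

/-- `φ` is a faithful homomorphism from the symmetric group, and each letter except for the first
one is the largest letter moved by some odd permutation `σ` with `φ σ ∈ A`. -/
theorem symm {n : ℕ} (hn : 4 ≤ n) (A : Set Γ) (hA : ∀ a ∈ A, a⁻¹ ∈ A)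
    (hfin : (Subgroup.closure A : Set Γ).Finite) (φ : Perm (Fin n) →* Γ)
    (hφ : Function.Injective φ) (N : Subgroup Γ) (hNn : N.Normal)
    (hN : Trc N) (hNK : ∀ g : Γ, ∃ σ, g * φ σ ∈ N)
    (hNK' : ∀ σ, φ σ ∈ N → σ = 1)
    (hT : ∀ k : Fin n, 1 ≤ k.val → ∃ σ, φ σ ∈ A ∧ Perm.sign σ = -1 ∧ σ k ≠ k ∧
      ∀ i, k < i → σ i = i)
    (hD : ∀ a ∈ A, ∃ c : Perm (Fin n), Perm.sign c = -1 ∧ ∃ c', a⁻¹ * φ c * a = φ c') :
    ∃ a : Fin (Nat.card (Subgroup.closure A)) → Γ, (∀ i, a i ∈ A) ∧
      Function.Injective (fun k : Fin (Nat.card (Subgroup.closure A)) =>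
        ((List.ofFn a).take (k.val + 1)).prod) := by
  classical
  set B : Set (Perm (Fin n)) := {σ | φ σ ∈ A ∧ Perm.sign σ = -1} with hB
  have hBs : ∀ b ∈ B, b⁻¹ ∈ B := by
    rintro b ⟨h1, h2⟩
    refine ⟨by rw [map_inv]; exact hA _ h1, by rw [Perm.sign_inv, h2]⟩
  have hBodd : ∀ b ∈ B, Perm.sign b = -1 := fun b hb => hb.2
  have hTop : ∀ k : Fin n, 1 ≤ k.val → TopLetter B k := by
    intro k hk
    obtain ⟨σ, h1, h2, h3, h4⟩ := hT k hk
    exact ⟨σ, ⟨h1, h2⟩, h3, h4⟩
  obtain ⟨hcl, hpath, -⟩ := result hn B hBs (fun k hk => hTop k (by omega))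
    (Or.inr ⟨fun k hk => hTop k (by omega), Or.inl hBodd⟩)
  have hBne : ∃ b ∈ B, Perm.sign b = -1 := by
    obtain ⟨b, hb, -⟩ := hTop ⟨1, by omega⟩ (by simp)
    exact ⟨b, hb, hb.2⟩
  have htop : Subgroup.closure B = ⊤ := by
    rcases hcl with ⟨h, -⟩ | h
    · obtain ⟨b, hb, hb'⟩ := hBne
      rw [h b hb] at hb'
      exact absurd hb' (by decide)
    · exact h
  have hpath' : ∀ y : Perm (Fin n), Perm.sign y = -1 → ∃ l, Ham A φ.range 1 (φ y) l := by
    intro y hy
    obtain ⟨l, h1, h2, h3, h4, h5⟩ := hpath 1 (by rw [htop]; trivial) y (by rw [htop]; trivial)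
      (by rintro rfl; rw [Perm.sign_one] at hy; exact absurd hy (by decide))
      (fun _ => by rw [Perm.sign_one, hy]; decide)
    refine ⟨l.map φ, h1.map hφ, ?_, ?_, ?_, ?_⟩
    · intro g
      rw [List.mem_map]
      constructor
      · rintro ⟨σ, -, rfl⟩
        exact ⟨σ, rfl⟩
      · rintro ⟨σ, rfl⟩
        exact ⟨σ, (h2 σ).2 (by rw [htop]; trivial), rfl⟩
    · rw [List.isChain_map]
      refine h3.imp ?_
      intro g h hgh
      rw [← map_inv, ← map_mul]
      exact hgh.1
    · rw [List.head?_map, h4, Option.map_some, map_one]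
    · rw [List.getLast?_map, h5, Option.map_some]
  have hne : A.Nonempty := by
    obtain ⟨b, hb, -⟩ := hBne
    exact ⟨_, hb.1⟩
  have hKA : φ.range ≤ Subgroup.closure A := by
    rintro _ ⟨σ, rfl⟩
    have h1 : σ ∈ Subgroup.closure B := by rw [htop]; trivial
    induction h1 using Subgroup.closure_induction with
    | mem x hx => exact Subgroup.subset_closure hx.1
    | one => rw [map_one]; exact Subgroup.one_mem _
    | mul x y _ _ hx hy => rw [map_mul]; exact Subgroup.mul_mem _ hx hy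
    | inv x _ hx => rw [map_inv]; exact Subgroup.inv_mem _ hx
  refine lift A hA hne hfin N φ.range hNn hN ?_ ?_ hKA ?_
  · rw [eq_top_iff]
    intro g _
    obtain ⟨σ, hσ⟩ := hNK g
    have : g = (g * φ σ) * (φ σ)⁻¹ := by group
    rw [this]
    exact Subgroup.mul_mem_sup hσ (Subgroup.inv_mem _ ⟨σ, rfl⟩)
  · rw [eq_bot_iff]
    rintro g ⟨h1, σ, rfl⟩
    rw [hNK' σ h1, map_one]
    exact Subgroup.mem_bot.2 rfl
  · rintro a ha _ ⟨k, rfl⟩
    rcases Int.units_eq_one_or (Perm.sign k) with hk | hk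
    · obtain ⟨c, hc, c', hc'⟩ := hD a ha
      refine ⟨φ c, ⟨c, rfl⟩, ⟨c', hc'.symm⟩, ?_⟩
      rw [← map_mul]
      exact hpath' _ (by rw [Perm.sign_mul, hk, hc, one_mul])
    · refine ⟨1, Subgroup.one_mem _, ?_, ?_⟩
      · rw [mul_one, inv_mul_cancel]; exact Subgroup.one_mem _
      · rw [mul_one]
        exact hpath' _ hk

/-- The wreath product of the group `C` and the symmetric group: the pairs `(v, σ)`
with `v : Fin n → C` and a permutation `σ`. -/
abbrev W (n : ℕ) (C : Type*) [Group C] := (Fin n → C) ⋊[mulAutArrow] Perm (Fin n)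

/-- `(v, σ)` is like a transposition: `σ` is the transposition of `i` and `j`, `v i * v j = 1`,
and the other values of `v` are `1`. -/
def SwapLike {n : ℕ} {C : Type*} [Group C] (a : W n C) (i j : Fin n) : Prop :=
  i ≠ j ∧ a.right = swap i j ∧ a.left i * a.left j = 1 ∧ ∀ k, k ≠ i → k ≠ j → a.left k = 1

/-- `(v, σ)` fixes the letter `k`: `σ k = k` and `v k = 1`. -/
def FixesLetter {n : ℕ} {C : Type*} [Group C] (a : W n C) (k : Fin n) : Prop :=
  a.right k = k ∧ a.left k = 1

theorem SwapLike.symm' {n : ℕ} {C : Type*} [Group C] {a : W n C} {i j : Fin n}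
    (h : SwapLike a i j) : SwapLike a j i := by
  obtain ⟨h1, h2, h3, h4⟩ := h
  exact ⟨h1.symm, by rw [h2, swap_comm], mul_eq_one_comm.1 h3, fun k hk hk' => h4 k hk' hk⟩

/-- An ordering of the letters. -/
theorem ordering {n : ℕ} (hn : 0 < n) (r : Fin n → Fin n → Prop)
    (hr : ∀ i j, Relation.ReflTransGen r i j) :
    ∃ e : Perm (Fin n), ∀ k : Fin n, 1 ≤ k.val → ∃ j : Fin n, j < k ∧ r (e j) (e k) := by
  classical
  -- `dist v`: number of steps from the root to `v`
  let P : ℕ → Fin n → Prop := fun m v => ∃ f : ℕ → Fin n, f 0 = ⟨0, hn⟩ ∧ f m = v ∧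
    ∀ i < m, r (f i) (f (i + 1))
  have hP : ∀ v, ∃ m, P m v := by
    intro v
    have h := hr ⟨0, hn⟩ v
    induction h with
    | refl => exact ⟨0, fun _ => ⟨0, hn⟩, rfl, rfl, fun i hi => absurd hi (by omega)⟩
    | @tail b c _ hbc ih =>
      obtain ⟨m, f, h0, hm, hf⟩ := ih
      refine ⟨m + 1, fun i => if i ≤ m then f i else c, by simp [h0], by simp, ?_⟩
      intro i hi
      rcases Nat.lt_or_ge i m with h | h
      · have h1 : i ≤ m := h.le
        have h2 : i + 1 ≤ m := h
        simp only [h1, h2, if_true]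
        exact hf i h
      · obtain rfl : i = m := by omega
        simp only [le_refl, if_true, show ¬ (i + 1 ≤ i) by omega, if_false, hm]
        exact hbc
  let d : Fin n → ℕ := fun v => Nat.find (hP v)
  have hd0 : ∀ v, d v = 0 → v = ⟨0, hn⟩ := by
    intro v hv
    obtain ⟨f, h0, hm, -⟩ := Nat.find_spec (hP v)
    have : Nat.find (hP v) = 0 := hv
    rw [this] at hm
    rw [← hm, h0]
  have hdpos : ∀ v, 0 < d v → ∃ w, d w < d v ∧ r w v := by
    intro v hv
    obtain ⟨f, h0, hm, hf⟩ := Nat.find_spec (hP v)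
    have hm' : f (d v) = v := hm
    refine ⟨f (d v - 1), ?_, ?_⟩
    · have h1 : P (d v - 1) (f (d v - 1)) := ⟨f, h0, rfl, fun i hi => hf i (by
        have : i < d v := by omega
        exact this)⟩
      have h2 : d (f (d v - 1)) ≤ d v - 1 := Nat.find_min' _ h1
      omega
    · have h1 := hf (d v - 1) (by
        show d v - 1 < d v
        omega)
      have h2 : d v - 1 + 1 = d v := by omega
      rw [h2, hm'] at h1
      exact h1
  refine ⟨Tuple.sort d, ?_⟩
  have hmono : Monotone (d ∘ Tuple.sort d) := Tuple.monotone_sort d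
  intro k hk
  have hdk : 0 < d (Tuple.sort d k) := by
    rcases Nat.eq_zero_or_pos (d (Tuple.sort d k)) with h | h
    · exfalso
      have h1 := hd0 _ h
      have h2 : d (Tuple.sort d ⟨0, hn⟩) ≤ d (Tuple.sort d k) :=
        hmono (show (⟨0, hn⟩ : Fin n) ≤ k from Fin.mk_le_of_le_val (Nat.zero_le _))
      have h3 := hd0 _ (by omega : d (Tuple.sort d ⟨0, hn⟩) = 0)
      have h4 := (Tuple.sort d).injective (h3.trans h1.symm)
      rw [← h4] at hk
      simp at hk
    · exact h
  obtain ⟨w, hw, hwr⟩ := hdpos _ hdk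
  obtain ⟨j, rfl⟩ := (Tuple.sort d).surjective w
  refine ⟨j, ?_, hwr⟩
  by_contra hjk
  have := hmono (not_lt.1 hjk)
  simp only [Function.comp] at this
  omega

/-- Rescaling: a diagonal element which turns the given transposition-like elements into
transpositions. -/
theorem rescale {n : ℕ} {C : Type*} [Group C] (A : Set (W n C)) (e : Perm (Fin n))
    (he : ∀ k : Fin n, 1 ≤ k.val → ∃ j : Fin n, j < k ∧ ∃ a ∈ A, SwapLike a (e j) (e k)) :
    ∃ d : Fin n → C, ∀ k : Fin n, 1 ≤ k.val → ∃ j : Fin n, j < k ∧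
      ∃ a ∈ A, SwapLike a (e j) (e k) ∧ d (e k) = a.left (e k) * d (e j) := by
  classical
  have key : ∀ m : ℕ, ∃ d : Fin n → C, ∀ k : Fin n, k.val < m → 1 ≤ k.val → ∃ j : Fin n, j < k ∧
      ∃ a ∈ A, SwapLike a (e j) (e k) ∧ d (e k) = a.left (e k) * d (e j) := by
    intro m
    induction m with
    | zero => exact ⟨fun _ => 1, fun k hk => absurd hk (by omega)⟩
    | succ m ih =>
      obtain ⟨d, hd⟩ := ih
      by_cases hm : ∃ h : m < n, 1 ≤ m
      · obtain ⟨hmn, hm1⟩ := hm
        obtain ⟨j, hj, a, ha, hs⟩ := he ⟨m, hmn⟩ hm1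
        refine ⟨Function.update d (e ⟨m, hmn⟩) (a.left (e ⟨m, hmn⟩) * d (e j)), ?_⟩
        intro k hk hk1
        rcases Nat.lt_or_ge k.val m with h | h
        · obtain ⟨j', hj', a', ha', hs', hd'⟩ := hd k h hk1
          refine ⟨j', hj', a', ha', hs', ?_⟩
          have h1 : e k ≠ e ⟨m, hmn⟩ := by
            intro h2
            have := congrArg Fin.val (e.injective h2)
            simp only at this
            omega
          have h2 : e j' ≠ e ⟨m, hmn⟩ := by
            intro h2
            have h3 := congrArg Fin.val (e.injective h2)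
            have h4 : j'.val < k.val := hj'
            simp only at h3
            omega
          rw [Function.update_of_ne h1, Function.update_of_ne h2, hd']
        · obtain rfl : k = ⟨m, hmn⟩ := Fin.ext (by simp only; omega)
          refine ⟨j, hj, a, ha, hs, ?_⟩
          have h2 : e j ≠ e ⟨m, hmn⟩ := by
            intro h2
            exact hj.ne (e.injective h2)
          rw [Function.update_self, Function.update_of_ne h2]
      · refine ⟨d, fun k hk hk1 => ?_⟩
        apply hd k _ hk1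
        by_contra h
        have h1 := k.isLt
        exact hm ⟨by omega, by omega⟩
  obtain ⟨d, hd⟩ := key n
  exact ⟨d, fun k hk => hd k k.isLt hk⟩

/-- The semidirect product with a diagonal twist: the homomorphism `σ ↦ d (e σ e⁻¹) d⁻¹`. -/
noncomputable def twist {n : ℕ} {C : Type*} [Group C] (e : Perm (Fin n)) (d : Fin n → C) :
    Perm (Fin n) →* W n C :=
  (MulAut.conj (SemidirectProduct.inl d : W n C)).toMonoidHom.comp
    ((SemidirectProduct.inr).comp (MulAut.conj e).toMonoidHom)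

theorem twist_apply {n : ℕ} {C : Type*} [Group C] (e : Perm (Fin n)) (d : Fin n → C)
    (σ : Perm (Fin n)) : twist e d σ =
      SemidirectProduct.inl d * SemidirectProduct.inr (e * σ * e⁻¹) *
        (SemidirectProduct.inl d)⁻¹ := rfl

theorem smul_fun {n : ℕ} {C : Type*} [Group C] (σ : Perm (Fin n)) (v : Fin n → C)
    (k : Fin n) : (mulAutArrow σ v) k = v (σ⁻¹ k) := rfl

theorem twist_right {n : ℕ} {C : Type*} [Group C] (e : Perm (Fin n)) (d : Fin n → C)
    (σ : Perm (Fin n)) : (twist e d σ).right = e * σ * e⁻¹ := by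
  rw [twist_apply]
  simp

theorem twist_left {n : ℕ} {C : Type*} [Group C] (e : Perm (Fin n)) (d : Fin n → C)
    (σ : Perm (Fin n)) (k : Fin n) :
    (twist e d σ).left k = d k * (d ((e * σ * e⁻¹)⁻¹ k))⁻¹ := by
  rw [twist_apply]
  generalize e * σ * e⁻¹ = τ
  rw [← map_inv, SemidirectProduct.mul_left, SemidirectProduct.mul_left, SemidirectProduct.mul_right]
  simp only [SemidirectProduct.left_inl, SemidirectProduct.left_inr, SemidirectProduct.right_inl,
    SemidirectProduct.right_inr, one_mul, map_one, mul_one, Pi.mul_apply, smul_fun, Pi.inv_apply]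

end Pool.Agent.H178.CL
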