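import Pool.Agent.H178.CLc

/-! Wreath products with symmetric groups. -/

namespace Pool.Agent.H178.CL

open Equiv

variable {Γ : Type*} [Group Γ]

/-- Wreath products of groups of class at most two and symmetric groups. -/
theorem wreath {n : ℕ} (hn : 4 ≤ n) {C : Type*} [Group C]
    (hC : ∀ x y z : C, (x * y * x⁻¹ * y⁻¹) * z = z * (x * y * x⁻¹ * y⁻¹)) (A : Set (W n C))
    (hA : ∀ a ∈ A, a⁻¹ ∈ A) (hfin : (Subgroup.closure A : Set (W n C)).Finite)
    (hconn : ∀ i j, Relation.ReflTransGen (fun i j : Fin n => ∃ a ∈ A, SwapLike a i j) i j)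
    (h : (Finite C ∧ Nat.card C < n) ∨
      ∀ a ∈ A, ∃ k l, k ≠ l ∧ FixesLetter a k ∧ FixesLetter a l) :
    ∃ a : Fin (Nat.card (Subgroup.closure A)) → W n C, (∀ i, a i ∈ A) ∧
      Function.Injective (fun k : Fin (Nat.card (Subgroup.closure A)) =>
        ((List.ofFn a).take (k.val + 1)).prod) := by
  classical
  obtain ⟨e, he⟩ := ordering (by omega) _ hconn
  obtain ⟨d, hd⟩ := rescale A e he
  have hmem : ∀ g : W n C, g ∈ (SemidirectProduct.rightHom : W n C →* Perm (Fin n)).ker ↔
      g.right = 1 := fun g => MonoidHom.mem_ker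
  have hleft : ∀ (g h : W n C) (k : Fin n), (g * h).left k = g.left k * h.left (g.right⁻¹ k) := by
    intro g h k
    rw [SemidirectProduct.mul_left, Pi.mul_apply, smul_fun]
  refine symm hn A hA hfin (twist e d) ?_
    (SemidirectProduct.rightHom : W n C →* Perm (Fin n)).ker (MonoidHom.normal_ker _)
    (trc_classTwo _ ?_) ?_ ?_ ?_ ?_
  · intro σ τ hστ
    have h1 := congrArg SemidirectProduct.right hστ
    rw [twist_right, twist_right] at h1
    exact mul_left_cancel (mul_right_cancel h1)
  · intro x hx y hy z hz
    rw [hmem] at hx hy hz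
    have hinv : ∀ g : W n C, g.right = 1 → ∀ k, (g⁻¹).left k = (g.left k)⁻¹ := by
      intro g hg k
      have h1 := hleft g g⁻¹ k
      rw [mul_inv_cancel, hg, inv_one, Perm.coe_one, id_eq] at h1
      exact (inv_eq_of_mul_eq_one_right h1.symm).symm
    apply SemidirectProduct.ext
    · funext k
      simp only [hleft, SemidirectProduct.mul_right, SemidirectProduct.inv_right, hx, hy, hz,
        hinv x hx, hinv y hy, inv_one, mul_one, Perm.coe_one, id_eq]
      exact hC _ _ _
    · simp only [SemidirectProduct.mul_right, SemidirectProduct.inv_right, hx, hy, hz, inv_one,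
        mul_one]
  · intro g
    refine ⟨e⁻¹ * g.right⁻¹ * e, ?_⟩
    rw [hmem, SemidirectProduct.mul_right, twist_right]
    group
  · intro σ hσ
    rw [hmem, twist_right, mul_inv_eq_one, mul_eq_left] at hσ
    exact hσ
  · intro k hk
    obtain ⟨j, hj, a, ha, ⟨s1, s2, s3, s4⟩, hda⟩ := hd k hk
    have : twist e d (swap j k) = a := by
      apply SemidirectProduct.ext
      · funext i
        rw [twist_left, ← swap_apply_apply, swap_inv]
        by_cases h1 : i = e k
        · subst h1
          rw [swap_apply_right, hda, mul_inv_cancel_right]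
        · by_cases h2 : i = e j
          · subst h2
            rw [swap_apply_left, hda, mul_inv_rev, mul_inv_cancel_left]
            exact (eq_inv_of_mul_eq_one_left s3).symm
          · rw [swap_apply_of_ne_of_ne h2 h1, mul_inv_cancel, s4 i h2 h1]
      · rw [twist_right, ← swap_apply_apply, s2]
    refine ⟨swap j k, by rw [this]; exact ha, Perm.sign_swap hj.ne, ?_, ?_⟩
    · rw [swap_apply_right]
      exact hj.ne
    · intro i hi
      exact swap_apply_of_ne_of_ne (hj.trans hi).ne' hi.ne'
  · intro a ha
    obtain ⟨σ, hσ⟩ : ∃ σ : Perm (Fin n), σ = e⁻¹ * a.right * e := ⟨_, rfl⟩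
    have hσr : (twist e d σ).right = a.right := by
      rw [twist_right, hσ]; group
    obtain ⟨ν, hν⟩ : ∃ ν : W n C, ν = a * (twist e d σ)⁻¹ := ⟨_, rfl⟩
    have hνr : ν.right = 1 := by
      rw [hν, SemidirectProduct.mul_right, SemidirectProduct.inv_right, hσr, mul_inv_cancel]
    have haν : a = ν * twist e d σ := by rw [hν]; group
    have hνl : ∀ k, a.left k = ν.left k * (twist e d σ).left k := by
      intro k
      conv_lhs => rw [haν]
      rw [hleft, hνr, inv_one, Perm.coe_one, id_eq]
    -- two equal values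
    have hkl : ∃ k l, k ≠ l ∧ (d k)⁻¹ * ν.left k * d k = (d l)⁻¹ * ν.left l * d l := by
      rcases h with ⟨hC, hcard⟩ | h
      · have := Fintype.ofFinite C
        obtain ⟨k, l, hkl, h1⟩ := Fintype.exists_ne_map_eq_of_card_lt
          (fun k => (d k)⁻¹ * ν.left k * d k) (by
          rw [Fintype.card_fin, ← Nat.card_eq_fintype_card]; exact hcard)
        exact ⟨k, l, hkl, h1⟩
      · obtain ⟨k, l, hkl, hk, hl⟩ := h a ha
        have h1 : ∀ i, FixesLetter a i → ν.left i = 1 := by
          rintro i ⟨h2, h3⟩
          have h4 := hνl i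
          have h5 : (twist e d σ).left i = 1 := by
            rw [twist_left]
            have h6 : e * σ * e⁻¹ = a.right := by rw [hσ]; group
            have h7 : (a.right)⁻¹ i = i := by
              rw [Perm.inv_eq_iff_eq]
              exact h2.symm
            rw [h6, h7, mul_inv_cancel]
          rw [h3, h5, mul_one] at h4
          exact h4.symm
        exact ⟨k, l, hkl, by rw [h1 k hk, h1 l hl]; simp⟩
    obtain ⟨k, l, hkl, hνkl⟩ := hkl
    obtain ⟨c, hc⟩ : ∃ c : Perm (Fin n), c = e⁻¹ * swap k l * e := ⟨_, rfl⟩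
    have hcr : e * c * e⁻¹ = swap k l := by rw [hc]; group
    refine ⟨c, ?_, σ⁻¹ * c * σ, ?_⟩
    · rw [hc, Perm.sign_mul, Perm.sign_mul, Perm.sign_inv, Perm.sign_swap hkl, mul_neg_one,
        neg_mul, Int.units_mul_self]
    · have hcomm : twist e d c * ν = ν * twist e d c := by
        apply SemidirectProduct.ext
        · funext i
          rw [hleft, hleft, hνr, inv_one, Perm.coe_one, id_eq, twist_right, twist_left, hcr,
            swap_inv]
          by_cases h1 : i = k
          · subst h1
            rw [swap_apply_left]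
            have h2 : ν.left l = d l * ((d i)⁻¹ * ν.left i * d i) * (d l)⁻¹ := by
              rw [hνkl]; group
            rw [h2]; group
          · by_cases h2 : i = l
            · subst h2
              rw [swap_apply_right]
              have h2 : ν.left k = d k * ((d i)⁻¹ * ν.left i * d i) * (d k)⁻¹ := by
                rw [← hνkl]; group
              rw [h2]; group
            · rw [swap_apply_of_ne_of_ne h1 h2]
              group
        · rw [SemidirectProduct.mul_right, SemidirectProduct.mul_right, hνr, one_mul, mul_one]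
      rw [map_mul, map_mul, map_inv, haν]
      calc (ν * twist e d σ)⁻¹ * twist e d c * (ν * twist e d σ)
          = (twist e d σ)⁻¹ * ν⁻¹ * (twist e d c * ν) * twist e d σ := by group
        _ = (twist e d σ)⁻¹ * ν⁻¹ * (ν * twist e d c) * twist e d σ := by rw [hcomm]
        _ = (twist e d σ)⁻¹ * twist e d c * twist e d σ := by group

/-- The reflections of the wreath product. -/
def IsReflection {n : ℕ} {C : Type*} [Group C] (a : W n C) : Prop :=
  (∃ i j, SwapLike a i j) ∨ ∃ i, a.right = 1 ∧ a.left i ≠ 1 ∧ ∀ k, k ≠ i → a.left k = 1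

theorem reflections {n : ℕ} (hn : 4 ≤ n) {C : Type*} [Group C]
    (hC : ∀ x y z : C, (x * y * x⁻¹ * y⁻¹) * z = z * (x * y * x⁻¹ * y⁻¹)) (A : Set (W n C))
    (hA : ∀ a ∈ A, a⁻¹ ∈ A) (hfin : (Subgroup.closure A : Set (W n C)).Finite)
    (hrefl : ∀ a ∈ A, IsReflection a)
    (htrans : ∀ i j : Fin n, ∃ g ∈ Subgroup.closure A, g.right i = j) :
    ∃ a : Fin (Nat.card (Subgroup.closure A)) → W n C, (∀ i, a i ∈ A) ∧
      Function.Injective (fun k : Fin (Nat.card (Subgroup.closure A)) =>
        ((List.ofFn a).take (k.val + 1)).prod) := by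
  classical
  refine wreath hn hC A hA hfin ?_ (Or.inr ?_)
  · have hsym : Std.Symm (fun i j : Fin n => ∃ a ∈ A, SwapLike a i j) := by
      constructor
      rintro i j ⟨a, ha, h⟩
      exact ⟨a, ha, h.symm'⟩
    have key : ∀ g ∈ Subgroup.closure A, ∀ i, Relation.ReflTransGen
        (fun i j : Fin n => ∃ a ∈ A, SwapLike a i j) i (g.right i) := by
      intro g hg
      induction hg using Subgroup.closure_induction with
      | mem a ha =>
        intro i
        rcases hrefl a ha with ⟨k, l, hkl⟩ | ⟨k, h1, -, -⟩
        · by_cases h1 : i = k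
          · subst h1
            rw [hkl.2.1, swap_apply_left]
            exact Relation.ReflTransGen.single ⟨a, ha, hkl⟩
          · by_cases h2 : i = l
            · subst h2
              rw [hkl.2.1, swap_apply_right]
              exact Relation.ReflTransGen.single ⟨a, ha, hkl.symm'⟩
            · rw [hkl.2.1, swap_apply_of_ne_of_ne h1 h2]
        · rw [h1]; exact Relation.ReflTransGen.refl
      | one => intro i; exact Relation.ReflTransGen.refl
      | mul x y _ _ hx hy =>
        intro i
        rw [SemidirectProduct.mul_right, Perm.mul_apply]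
        exact (hy i).trans (hx _)
      | inv x _ hx =>
        intro i
        have h1 := hx (x.right⁻¹ i)
        have h2 : x.right (x.right⁻¹ i) = i := by
          rw [← Perm.mul_apply, mul_inv_cancel, Perm.one_apply]
        rw [h2] at h1
        rw [SemidirectProduct.inv_right]
        exact (Relation.ReflTransGen.stdSymm).symm _ _ h1
    intro i j
    obtain ⟨g, hg, rfl⟩ := htrans i j
    exact key g hg i
  · intro a ha
    -- a reflection fixes all letters but at most two
    have h1 : ∃ i j : Fin n, ∀ k, k ≠ i → k ≠ j → FixesLetter a k := by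
      rcases hrefl a ha with ⟨i, j, h1, h2, h3, h4⟩ | ⟨i, h1, -, h2⟩
      · refine ⟨i, j, fun k hk hk' => ⟨?_, h4 k hk hk'⟩⟩
        rw [h2, swap_apply_of_ne_of_ne hk hk']
      · exact ⟨i, i, fun k hk _ => ⟨by rw [h1]; rfl, h2 k hk⟩⟩
    obtain ⟨i, j, h1⟩ := h1
    have h2 : 1 < ((Finset.univ : Finset (Fin n)) \ {i, j}).card := by
      have h3 := Finset.le_card_sdiff ({i, j} : Finset (Fin n)) Finset.univ
      have h4 : ({i, j} : Finset (Fin n)).card ≤ 2 := Finset.card_le_two
      rw [Finset.card_univ, Fintype.card_fin] at h3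
      omega
    obtain ⟨k, hk, l, hl, hkl⟩ := Finset.one_lt_card.1 h2
    simp only [Finset.mem_sdiff, Finset.mem_univ, true_and, Finset.mem_insert,
      Finset.mem_singleton, not_or] at hk hl
    exact ⟨k, l, hkl, h1 k hk.1 hk.2, h1 l hl.1 hl.2⟩

end Pool.Agent.H178.CL
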