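import Pool.Agent.H683.CV.Lem

/-! Correctness of one step of the algorithm (helper178 for helper683). -/

set_option autoImplicit false

namespace Pool.Agent.H178.CV

open Pool.Agent.NPC Pool.Agent.H633R2 Pool.Agent.H683.CV

theorem sum_range_list (p : ℕ) (f : ℕ → ℕ) :
    ((List.range p).map f).sum = ∑ j ∈ Finset.range p, f j := by
  induction p with
  | zero => rfl
  | succ p ih =>
    rw [List.range_succ, List.map_append, List.sum_append, Finset.sum_range_succ, ih]
    simp

section

variable (M : List (List Bool)) (S : List ℕ) (Z : List (ℕ × ℕ)) (p : ℕ) (w : List Unit)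

theorem val_le (r A : ℕ) : val M S Z p w r A ≤ M.length := by
  unfold val
  refine (List.length_filter_le _ _).trans ?_
  rw [List.length_range]

theorem sub_congr' {A A' : ℕ} (h : ∀ i < p, bt A i = bt A' i) (J : ℕ) :
    sub p A J = sub p A' J := by
  unfold sub
  rw [Bool.eq_iff_iff]
  simp only [List.all_eq_true, List.mem_range]
  constructor
  · intro h1 i hi
    have h2 := h1 i hi
    rwa [h i hi] at h2
  · intro h1 i hi
    have h2 := h1 i hi
    rwa [← h i hi] at h2

theorem dif_congr' {A A' : ℕ} (h : ∀ i < p, bt A i = bt A' i) (J : ℕ) :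
    dif p A J = dif p A' J := by
  unfold dif
  congr 1
  apply List.filter_congr
  intro i hi
  rw [List.mem_range] at hi
  rw [h i hi]

theorem val_congr' {A A' : ℕ} (h : ∀ i < p, bt A i = bt A' i) (r : ℕ) :
    val M S Z p w r A = val M S Z p w r A' := by
  unfold val
  simp only [sub_congr' p h, dif_congr' p h]

/-- the sum for the number `l` -/
def Fl (t a l : ℕ) : ℕ := t * l + ((reps M S).map fun r => val M S Z p w r a - l).sum

/-- the minimum -/
noncomputable def Uc (t a : ℕ) : ℕ :=
  (Finset.range (M.length + 1)).inf' ⟨0, by simp⟩ (Fl M S Z p w t a)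

theorem Uc_le (t a l : ℕ) (hl : l ≤ M.length) : Uc M S Z p w t a ≤ Fl M S Z p w t a l :=
  Finset.inf'_le _ (Finset.mem_range.2 (by omega))

theorem Uc_att (t a : ℕ) : ∃ l ≤ M.length, Uc M S Z p w t a = Fl M S Z p w t a l := by
  obtain ⟨l, hl, h⟩ := Finset.exists_mem_eq_inf' (s := Finset.range (M.length + 1))
    ⟨0, by simp⟩ (Fl M S Z p w t a)
  rw [Finset.mem_range] at hl
  exact ⟨l, by omega, h⟩

theorem Uc_congr {a a' : ℕ} (h : ∀ i < p, bt a i = bt a' i) (t : ℕ) :
    Uc M S Z p w t a = Uc M S Z p w t a' := by
  have e : Fl M S Z p w t a = Fl M S Z p w t a' := by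
    funext l
    unfold Fl
    simp only [val_congr' M S Z p w h]
  unfold Uc
  rw [e]

theorem Uc_step (hV : S_VAL) (t a a' j : ℕ)
    (h : ∀ i < p, bt a' i = (bt a i && !decide (i = j))) :
    Uc M S Z p w t a ≤ Uc M S Z p w t a' + t := by
  obtain ⟨l, hl, he⟩ := Uc_att M S Z p w t a'
  rw [he]
  have hv : ∀ r, val M S Z p w r a ≤ val M S Z p w r a' + 1 := fun r => hV M S Z p w r a a' j h
  rcases Nat.lt_or_ge l M.length with h1 | h1
  · refine (Uc_le M S Z p w t a (l + 1) (by omega)).trans ?_
    unfold Fl
    have h2 : ((reps M S).map fun r => val M S Z p w r a - (l + 1)).sum ≤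
        ((reps M S).map fun r => val M S Z p w r a' - l).sum := by
      apply List.sum_le_sum
      intro r _
      have := hv r
      omega
    rw [mul_add, mul_one]
    omega
  · have hln : l = M.length := by omega
    refine (Uc_le M S Z p w t a l hl).trans ?_
    unfold Fl
    have h2 : ((reps M S).map fun r => val M S Z p w r a - l).sum ≤
        ((reps M S).map fun r => val M S Z p w r a' - l).sum := by
      apply List.sum_le_sum
      intro r _
      have := val_le M S Z p w r a
      omega
    omega

end

/-- the code of a set -/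
noncomputable def code (hB : S_BITS) (p : ℕ) (A : Finset ℕ) : ℕ :=
  if h : A ⊆ Finset.range p then Classical.choose (hB p A h) else 0

theorem code_spec (hB : S_BITS) (p : ℕ) (A : Finset ℕ) (h : A ⊆ Finset.range p) :
    code hB p A < 2 ^ p ∧ ∀ j, bt (code hB p A) j = decide (j ∈ A) := by
  unfold code
  rw [dif_pos h]
  exact Classical.choose_spec (hB p A h)

/-- the set of a code -/
def dec (p a : ℕ) : Finset ℕ := (Finset.range p).filter fun j => bt a j = true

theorem mem_dec (p a j : ℕ) : j ∈ dec p a ↔ j < p ∧ bt a j = true := by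
  unfold dec
  rw [Finset.mem_filter, Finset.mem_range]

theorem dec_sub (p a : ℕ) : dec p a ⊆ Finset.range p := Finset.filter_subset _ _

/-- sums over the two parts -/
theorem sum_parts (p a : ℕ) (A : Finset ℕ) (hA : A ⊆ Finset.range p)
    (h : ∀ j < p, bt a j = decide (j ∈ A)) (f g : ℕ → ℕ) :
    ((List.range p).map fun j => if bt a j = true then f j else g j).sum =
      ∑ j ∈ A, f j + ∑ j ∈ Finset.range p \ A, g j := by
  rw [sum_range_list]
  have e : ∀ j ∈ Finset.range p, (if bt a j = true then f j else g j) =
      (if j ∈ A then f j else g j) := by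
    intro j hj
    rw [Finset.mem_range] at hj
    rw [h j hj]
    by_cases hjA : j ∈ A
    · simp [hjA]
    · simp [hjA]
  rw [Finset.sum_congr rfl e, ← Finset.sum_sdiff hA, add_comm]
  congr 1
  · refine Finset.sum_congr rfl fun j hj => ?_
    rw [if_pos hj]
  · refine Finset.sum_congr rfl fun j hj => ?_
    rw [if_neg (Finset.mem_sdiff.1 hj).2]

theorem sum_part1 (p a : ℕ) (A : Finset ℕ) (hA : A ⊆ Finset.range p)
    (h : ∀ j < p, bt a j = decide (j ∈ A)) (f : ℕ → ℕ) :
    ((List.range p).map fun j => if bt a j = true then f j else 0).sum = ∑ j ∈ A, f j := by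
  rw [sum_parts p a A hA h f (fun _ => 0)]
  simp

theorem gapv_false {q : ℕ} {cl x : List ℕ} {i j : ℕ} :
    gapv q cl x (i, j) ≠ true ↔
      (cl.getD j 0 < cl.getD i 0 → x.getD j 0 + q + 1 ≤ x.getD i 0) := by
  unfold gapv
  simp only [Bool.and_eq_true, decide_eq_true_eq, not_and, not_lt, ne_eq]

theorem mem_prs {p i j : ℕ} : (i, j) ∈ prs p ↔ i < p ∧ j < p := by
  unfold prs
  simp only [List.mem_flatMap, List.mem_range, List.mem_map, Prod.mk.injEq]
  constructor
  · rintro ⟨a, ha, b, hb, rfl, rfl⟩
    exact ⟨ha, hb⟩
  · rintro ⟨ha, hb⟩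
    exact ⟨i, ha, j, hb, rfl, rfl⟩

theorem mem_tA {M : List (List Bool)} {S : List ℕ} {p : ℕ} {w : List Unit} {t A : ℕ}
    (hw : 2 ^ p ≤ w.length) : (t, A) ∈ tA M S p w ↔ t ≤ (reps M S).length ∧ A < 2 ^ p := by
  unfold tA subs
  simp only [List.mem_flatMap, List.mem_range, List.mem_map, Prod.mk.injEq]
  constructor
  · rintro ⟨a, ha, b, hb, rfl, rfl⟩
    exact ⟨by omega, by omega⟩
  · rintro ⟨ha, hb⟩
    exact ⟨t, by omega, A, by omega, rfl, rfl⟩

theorem cand_iff {Z : List (ℕ × ℕ)} {x : List ℕ} {t A j : ℕ} : cand Z x t A j = true ↔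
    bt A j = true ∧ x.getD j 0 < t + siz Z j := by
  unfold cand
  rw [Bool.and_eq_true, decide_eq_true_eq]

theorem siz_le (Z : List (ℕ × ℕ)) (j : ℕ) : siz Z j ≤ Z.length := List.length_filter_le _ _

/-- the use of the key lemma -/
theorem horn_use (hH : S_HORN) (hV : S_VAL) (hB : S_BITS) (M : List (List Bool)) (B S : List ℕ)
    (Z : List (ℕ × ℕ)) (cl : List ℕ)
    (p : ℕ) (w : List Unit) (x x' : List ℕ) (hw : 2 ^ p ≤ w.length) (hZ : Z.length ≤ S.length)
    (hle : ∀ j < p, x.getD j 0 ≤ x'.getD j 0)
    (hrig : ∀ i < p, ∀ j < p, cl.getD i 0 = cl.getD j 0 →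
      x'.getD i 0 + x.getD j 0 = x'.getD j 0 + x.getD i 0)
    (hgap : ∀ i < p, ∀ j < p, cl.getD j 0 < cl.getD i 0 →
      x.getD j 0 + S.length + 1 ≤ x.getD i 0)
    (hgap' : ∀ i < p, ∀ j < p, cl.getD j 0 < cl.getD i 0 →
      x'.getD j 0 + S.length + 1 ≤ x'.getD i 0)
    (hok : ∀ t ≤ (reps M S).length, ∀ A < 2 ^ p, viol M B S Z p w x' t A = false)
    (t A : ℕ) (ht : t ≤ (reps M S).length) (hv : viol M B S Z p w x t A = true) :
    (∃ j < p, cand Z x t A j = true) ∧ ∀ j < p, cand Z x t A j = true →
      (∀ i < p, cand Z x t A i = true → x.getD i 0 ≤ x.getD j 0) → x.getD j 0 < x'.getD j 0 := by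
  have key := hH p S.length t ((B.map fun b => min b t).sum) (siz Z) (fun j => x.getD j 0)
    (fun j => x'.getD j 0) (fun j => cl.getD j 0) (fun A' => Uc M S Z p w t (code hB p A'))
    (dec p A) (dec_sub p A) (fun j _ => (siz_le Z j).trans hZ) (by
      intro A' hA' j hj
      apply Uc_step M S Z p w hV t _ _ j
      intro i _
      have h1 := (code_spec hB p A' hA').2 i
      have h2 := (code_spec hB p (A'.erase j) ((Finset.erase_subset _ _).trans hA')).2 i
      rw [h1, h2]
      by_cases hij : i = j
      · simp [hij]
      · by_cases hiA : i ∈ A'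
        · simp [hij, hiA]
        · simp [hiA]) hle hrig hgap hgap' (by
      intro A' hA'
      obtain ⟨hc1, hc2⟩ := code_spec hB p A' hA'
      have h1 := hok t ht _ hc1
      unfold viol at h1
      rw [List.all_eq_false] at h1
      obtain ⟨l, hl, h2⟩ := h1
      rw [List.mem_range] at hl
      rw [decide_eq_true_eq, not_lt] at h2
      unfold lhs rhs at h2
      rw [sum_part1 p _ A' hA' (fun j _ => hc2 j), sum_parts p _ A' hA' (fun j _ => hc2 j)] at h2
      have h3 := Uc_le M S Z p w t (code hB p A') l (by omega)
      unfold Fl at h3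
      omega) (by
      have hA' := dec_sub p A
      obtain ⟨hc1, hc2⟩ := code_spec hB p (dec p A) hA'
      have hcA : ∀ j < p, bt A j = decide (j ∈ dec p A) := by
        intro j hj
        by_cases hb : bt A j = true
        · rw [hb]
          symm
          rw [decide_eq_true_eq, mem_dec]
          exact ⟨hj, hb⟩
        · rw [Bool.not_eq_true] at hb
          rw [hb]
          symm
          rw [decide_eq_false_iff_not, mem_dec, hb]
          simp
      have hUe : Uc M S Z p w t (code hB p (dec p A)) = Uc M S Z p w t A := by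
        apply Uc_congr
        intro i hi
        rw [hc2 i, hcA i hi]
      obtain ⟨l, hl, he⟩ := Uc_att M S Z p w t A
      unfold viol at hv
      rw [List.all_eq_true] at hv
      have h1 := hv l (List.mem_range.2 (by omega))
      rw [decide_eq_true_eq] at h1
      unfold lhs rhs at h1
      rw [sum_part1 p _ (dec p A) hA' hcA, sum_parts p _ (dec p A) hA' hcA] at h1
      rw [hUe, he]
      unfold Fl
      omega)
  obtain ⟨⟨j0, hj0, hj0'⟩, h2⟩ := key
  refine ⟨⟨j0, ((mem_dec p A j0).1 hj0).1, ?_⟩, ?_⟩
  · rw [cand_iff]
    exact ⟨((mem_dec p A j0).1 hj0).2, hj0'⟩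
  · intro j hj hc hmax
    rw [cand_iff] at hc
    refine h2 j ((mem_dec p A j).2 ⟨hj, hc.1⟩) hc.2 ?_
    intro i hi hi'
    have h3 := (mem_dec p A i).1 hi
    exact hmax i h3.1 (cand_iff.2 ⟨h3.2, hi'⟩)

theorem STEP : S_HORN → S_VAL → S_BITS → S_STEP := by
  intro hH hV hB M B S Z cl p w x x' hw hZ hle hrig hok
  -- the solution `x'`
  unfold ok at hok
  rw [Bool.and_eq_true, Bool.and_eq_true, List.all_eq_true, List.all_eq_true,
    List.all_eq_true] at hok
  obtain ⟨⟨hok1, hok2⟩, hok3⟩ := hok
  have hgap' : ∀ i < p, ∀ j < p, cl.getD j 0 < cl.getD i 0 →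
      x'.getD j 0 + S.length + 1 ≤ x'.getD i 0 := by
    intro i hi j hj
    have h1 := hok1 (i, j) (mem_prs.2 ⟨hi, hj⟩)
    rw [Bool.not_eq_true'] at h1
    exact gapv_false.1 (by rw [h1]; exact Bool.false_ne_true)
  have hviol' : ∀ t ≤ (reps M S).length, ∀ A < 2 ^ p, viol M B S Z p w x' t A = false := by
    intro t ht A hA
    have h1 := hok3 (t, A) ((mem_tA hw).2 ⟨ht, hA⟩)
    rw [Bool.not_eq_true'] at h1
    exact h1
  cases hf1 : (prs p).find? (gapv S.length cl x) with
  | some t =>
    have hn : nxt M B S Z cl p w x = some t.1 := by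
      unfold nxt
      rw [hf1]
    rw [hn]
    refine ⟨fun h => absurd h (Option.some_ne_none _), ?_⟩
    intro j hj
    rw [Option.some.injEq] at hj
    subst hj
    obtain ⟨i, j⟩ := t
    have h1 := List.find?_some hf1
    have h2 := List.mem_of_find?_eq_some hf1
    rw [mem_prs] at h2
    unfold gapv at h1
    simp only [Bool.and_eq_true, decide_eq_true_eq] at h1
    have h3 := hgap' i h2.1 j h2.2 h1.1
    have h4 := hle j h2.2
    refine ⟨h2.1, ?_⟩
    show x.getD i 0 < x'.getD i 0
    omega
  | none =>
    have hgap0 := List.find?_eq_none.1 hf1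
    have hgap : ∀ i < p, ∀ j < p, cl.getD j 0 < cl.getD i 0 →
        x.getD j 0 + S.length + 1 ≤ x.getD i 0 := by
      intro i hi j hj
      exact gapv_false.1 (hgap0 (i, j) (mem_prs.2 ⟨hi, hj⟩))
    cases hf2 : (List.range p).find? (multv M.length B p cl x) with
    | some j =>
      have hn : nxt M B S Z cl p w x = some j := by
        unfold nxt
        rw [hf1]
        simp only
        rw [hf2]
      rw [hn]
      refine ⟨fun h => absurd h (Option.some_ne_none _), ?_⟩
      intro j' hj'
      rw [Option.some.injEq] at hj'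
      subst hj'
      have h1 := List.find?_some hf2
      have h2 := List.mem_of_find?_eq_some hf2
      have hjp : j < p := List.mem_range.1 h2
      refine ⟨hjp, ?_⟩
      by_contra hcon
      have heq : x'.getD j 0 = x.getD j 0 := by
        have := hle j hjp
        omega
      have h3 := hok2 j h2
      rw [Bool.not_eq_true'] at h3
      unfold multv at h1 h3
      rw [decide_eq_true_eq] at h1
      rw [decide_eq_false_iff_not, heq] at h3
      apply h3
      refine lt_of_lt_of_eq h1 ?_
      congr 1
      apply List.filter_congr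
      intro i hi
      rw [List.mem_range] at hi
      by_cases hc : cl.getD i 0 = cl.getD j 0
      · have h4 := hrig i hi j hjp hc
        rw [heq] at h4
        have h5 : x'.getD i 0 = x.getD i 0 := by omega
        rw [h5]
      · rw [decide_eq_false hc, Bool.false_and, Bool.false_and]
    | none =>
      have hmult := List.find?_eq_none.1 hf2
      cases hf3 : (tA M S p w).find? (fun t => viol M B S Z p w x t.1 t.2) with
      | none =>
        have hn : nxt M B S Z cl p w x = none := by
          unfold nxt
          rw [hf1]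
          simp only
          rw [hf2]
          simp only
          rw [hf3]
        rw [hn]
        refine ⟨fun _ => ?_, fun j hj => absurd hj.symm (Option.some_ne_none _)⟩
        unfold ok
        rw [Bool.and_eq_true, Bool.and_eq_true, List.all_eq_true, List.all_eq_true,
          List.all_eq_true]
        refine ⟨⟨?_, ?_⟩, ?_⟩
        · intro t ht
          have := hgap0 t ht
          rw [Bool.not_eq_true] at this
          rw [this]
          rfl
        · intro j hj
          have := hmult j hj
          rw [Bool.not_eq_true] at this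
          rw [this]
          rfl
        · intro t ht
          have := List.find?_eq_none.1 hf3 t ht
          rw [Bool.not_eq_true] at this
          rw [this]
          rfl
      | some t =>
        obtain ⟨t, A⟩ := t
        have h1 := List.find?_some hf3
        have h2 := List.mem_of_find?_eq_some hf3
        rw [mem_tA hw] at h2
        obtain ⟨⟨j0, hj0, hj0c⟩, hraise⟩ := horn_use hH hV hB M B S Z cl p w x x' hw hZ hle hrig
          hgap hgap' hviol' t A h2.1 h1
        have hn : nxt M B S Z cl p w x = (List.range p).find? fun j => cand Z x t A j &&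
          (List.range p).all fun i => !cand Z x t A i || decide (x.getD i 0 ≤ x.getD j 0) := by
          unfold nxt
          rw [hf1]
          simp only
          rw [hf2]
          simp only
          rw [hf3]
        rw [hn]
        constructor
        · intro hnone
          exfalso
          -- the largest candidate
          obtain ⟨j, hj, hmax⟩ := Finset.exists_max_image
            ((Finset.range p).filter fun j => cand Z x t A j = true) (fun j => x.getD j 0)
            ⟨j0, Finset.mem_filter.2 ⟨Finset.mem_range.2 hj0, hj0c⟩⟩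
          rw [Finset.mem_filter, Finset.mem_range] at hj
          have h3 := List.find?_eq_none.1 hnone j (List.mem_range.2 hj.1)
          apply h3
          rw [Bool.and_eq_true, List.all_eq_true]
          refine ⟨hj.2, ?_⟩
          intro i hi
          rw [List.mem_range] at hi
          by_cases hc : cand Z x t A i = true
          · have h4 := hmax i (Finset.mem_filter.2 ⟨Finset.mem_range.2 hi, hc⟩)
            rw [Bool.or_eq_true]
            right
            exact decide_eq_true h4
          · rw [Bool.not_eq_true] at hc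
            rw [hc]
            rfl
        · intro j hj
          have h3 := List.find?_some hj
          have h4 := List.mem_of_find?_eq_some hj
          rw [List.mem_range] at h4
          rw [Bool.and_eq_true, List.all_eq_true] at h3
          refine ⟨h4, hraise j h4 h3.1 ?_⟩
          intro i hi hc
          have h5 := h3.2 i (List.mem_range.2 hi)
          rw [hc] at h5
          rw [Bool.or_eq_true] at h5
          rcases h5 with h5 | h5
          · exact absurd h5 (by decide)
          · exact of_decide_eq_true h5

end Pool.Agent.H178.CV
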