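import Pool.Agent.H293.EX.Stm2

/-! The convolution identity (helper178 for helper293). -/

set_option autoImplicit false

namespace Pool.Agent.H178.EXCV

open MeasureTheory Filter Topology Set Complex
open Pool.Agent.H293.EX
open Pool.Agent.Q253.LQ Pool.Agent.Q14.LQ

/-- the coefficients -/
noncomputable def bb (q n : ℕ) : ℝ :=
  if n % q = 1 % q then ArithmeticFunction.vonMangoldt n * Real.exp (-(Real.log n / 2)) else 0

theorem bb_nonneg (q n : ℕ) : 0 ≤ bb q n := by
  unfold bb
  split_ifs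
  · exact mul_nonneg ArithmeticFunction.vonMangoldt_nonneg (Real.exp_pos _).le
  · exact le_refl _

theorem bb_le (q n : ℕ) :
    bb q n ≤ ArithmeticFunction.vonMangoldt n * Real.exp (-(Real.log n / 2)) := by
  unfold bb
  split_ifs
  · exact le_refl _
  · exact mul_nonneg ArithmeticFunction.vonMangoldt_nonneg (Real.exp_pos _).le

/-- the majorant -/
noncomputable def mj (n : ℕ) : ℝ :=
  ArithmeticFunction.vonMangoldt n * Real.exp (-((1 + 1 / 2) * Real.log n))

theorem mj_summable : Summable mj := Lam_summable (x := 1) (by norm_num)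

theorem mj_nonneg (n : ℕ) : 0 ≤ mj n :=
  mul_nonneg ArithmeticFunction.vonMangoldt_nonneg (Real.exp_pos _).le

/-- `b_n e^{-|u - w - log n|} ≤ mj n e^u e^{-w}` -/
theorem term_le (q n : ℕ) (u w : ℝ) :
    bb q n * Real.exp (-|u - w - Real.log n|) ≤ mj n * (Real.exp u * Real.exp (-w)) := by
  have h1 : Real.exp (-|u - w - Real.log n|) ≤ Real.exp (u - w - Real.log n) := by
    apply Real.exp_le_exp.2
    have := neg_abs_le (u - w - Real.log n)
    exact this
  calc bb q n * Real.exp (-|u - w - Real.log n|)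
      ≤ (ArithmeticFunction.vonMangoldt n * Real.exp (-(Real.log n / 2))) *
        Real.exp (u - w - Real.log n) :=
        mul_le_mul (bb_le q n) h1 (Real.exp_pos _).le
          (mul_nonneg ArithmeticFunction.vonMangoldt_nonneg (Real.exp_pos _).le)
    _ = mj n * (Real.exp u * Real.exp (-w)) := by
        unfold mj
        rw [mul_assoc, mul_assoc, ← Real.exp_add, ← Real.exp_add, ← Real.exp_add]
        congr 2
        ring

theorem sum_summable (q : ℕ) (u w : ℝ) :
    Summable (fun n : ℕ => bb q n * Real.exp (-|u - w - Real.log n|)) := by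
  refine Summable.of_nonneg_of_le
    (fun n => mul_nonneg (bb_nonneg q n) (Real.exp_pos _).le) (fun n => term_le q n u w)
    (mj_summable.mul_right _)

theorem EE_eq (q : ℕ) (u : ℝ) : EE q u = (Nat.totient q : ℝ) *
    (∑' n : ℕ, bb q n * Real.exp (-|u - Real.log n|)) - 8 / 3 * Real.exp (u / 2) := by
  unfold EE
  congr 2
  refine tsum_congr fun n => ?_
  unfold bb
  split_ifs
  · ring
  · ring

theorem FF_eq (q : ℕ) (a u : ℝ) : FF q a u = (Nat.totient q : ℝ) *
    (∑' n : ℕ, bb q n * (max (u - Real.log n) 0 * Real.exp (-(a * (u - Real.log n))))) -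
    Real.exp (u / 2) / (a + 1 / 2) ^ 2 := by
  unfold FF
  congr 2
  refine tsum_congr fun n => ?_
  unfold bb
  split_ifs
  · ring
  · ring

theorem kap_cont (a : ℝ) : Continuous (kap a) := by
  unfold kap
  fun_prop

/-- `|κ| e^{-w}` is integrable -/
theorem int1 (h2 : S_KI) {a : ℝ} (ha : 0 < a) :
    IntegrableOn (fun w : ℝ => |kap a w| * Real.exp (-w)) (Ioi 0) := by
  have h : IntegrableOn (fun w : ℝ => ‖kap a w * Real.exp (-|0 - w|)‖) (Ioi 0) :=
    (h2 a 0 ha).1.norm
  refine IntegrableOn.congr_fun h (fun w hw => ?_) measurableSet_Ioi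
  have hw' : 0 < w := hw
  simp only [norm_mul, Real.norm_eq_abs]
  rw [abs_of_pos (Real.exp_pos _), zero_sub, abs_neg, abs_of_pos hw']

theorem norm_kap_cexp (a w : ℝ) :
    ‖(kap a w : ℂ) * cexp (-((1 / 2 : ℂ) * w))‖ = |kap a w| * Real.exp (-(w / 2)) := by
  rw [norm_mul, Complex.norm_real, Real.norm_eq_abs, Complex.norm_exp]
  congr 2
  have : (-((1 / 2 : ℂ) * w)) = ((-(w / 2) : ℝ) : ℂ) := by push_cast; ring
  rw [this, Complex.ofReal_re]

theorem int2 (h1 : S_KE) {a : ℝ} (ha : 0 < a) :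
    IntegrableOn (fun w : ℝ => |kap a w| * Real.exp (-(w / 2))) (Ioi 0) := by
  have h : IntegrableOn (fun w : ℝ => ‖(kap a w : ℂ) * cexp (-((1 / 2 : ℂ) * w))‖) (Ioi 0) :=
    (h1 a (1 / 2) ha (by
    have : ((1 / 2 : ℂ)).re = 1 / 2 := by norm_num
    rw [this]
    linarith)).1.norm
  refine IntegrableOn.congr_fun h (fun w _ => ?_) measurableSet_Ioi
  exact norm_kap_cexp a w

theorem int3 (h1 : S_KE) {a : ℝ} (ha : 0 < a) :
    IntegrableOn (fun w : ℝ => kap a w * Real.exp (-(w / 2))) (Ioi 0) := by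
  refine (int2 h1 ha).mono' ?_ ?_
  · refine Continuous.aestronglyMeasurable ?_
    exact (kap_cont a).mul (by fun_prop)
  · refine Filter.Eventually.of_forall fun w => ?_
    rw [norm_mul, Real.norm_eq_abs, Real.norm_eq_abs, abs_of_pos (Real.exp_pos _)]

theorem val3 (h1 : S_KE) {a : ℝ} (ha : 0 < a) :
    ∫ w in Ioi (0 : ℝ), kap a w * Real.exp (-(w / 2)) =
      a / (a + 1 / 2) - (a ^ 2 - 1) / 2 / (a + 1 / 2) ^ 2 := by
  have h := (h1 a (1 / 2) ha (by
    have : ((1 / 2 : ℂ)).re = 1 / 2 := by norm_num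
    rw [this]
    linarith)).2
  have e : ∫ w in Ioi (0 : ℝ), (kap a w : ℂ) * cexp (-((1 / 2 : ℂ) * w)) =
      ((∫ w in Ioi (0 : ℝ), kap a w * Real.exp (-(w / 2)) : ℝ) : ℂ) := by
    rw [← integral_complex_ofReal]
    refine integral_congr_ae (Filter.Eventually.of_forall fun w => ?_)
    simp only
    push_cast
    congr 2
    ring
  rw [e] at h
  apply Complex.ofReal_injective
  rw [h]
  push_cast
  ring

/-- the terms -/
noncomputable def fn (q : ℕ) (a u : ℝ) (n : ℕ) (w : ℝ) : ℝ :=
  bb q n * (kap a w * Real.exp (-|u - Real.log n - w|))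

theorem fn_int (h2 : S_KI) (q : ℕ) {a : ℝ} (ha : 0 < a) (u : ℝ) (n : ℕ) :
    IntegrableOn (fn q a u n) (Ioi 0) :=
  (h2 a (u - Real.log n) ha).1.const_mul _

theorem fn_val (h2 : S_KI) (q : ℕ) {a : ℝ} (ha : 0 < a) (u : ℝ) (n : ℕ) :
    ∫ w in Ioi (0 : ℝ), fn q a u n w =
      bb q n * (max (u - Real.log n) 0 * Real.exp (-(a * (u - Real.log n)))) +
      1 / 2 * (bb q n * Real.exp (-|u - Real.log n|)) := by
  unfold fn
  rw [integral_const_mul]
  have h := (h2 a (u - Real.log n) ha).2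
  linear_combination -(bb q n) * h

theorem fn_norm (h2 : S_KI) (q : ℕ) {a : ℝ} (ha : 0 < a) (u : ℝ) (n : ℕ) :
    ∫ w in Ioi (0 : ℝ), ‖fn q a u n w‖ ≤
      mj n * (Real.exp u * ∫ w in Ioi (0 : ℝ), |kap a w| * Real.exp (-w)) := by
  rw [← integral_const_mul, ← integral_const_mul]
  refine integral_mono_of_nonneg (Filter.Eventually.of_forall fun w => norm_nonneg _)
    (((int1 h2 ha).const_mul _).const_mul _) (Filter.Eventually.of_forall fun w => ?_)
  simp only
  unfold fn
  rw [norm_mul, norm_mul, Real.norm_eq_abs, Real.norm_eq_abs, Real.norm_eq_abs,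
    abs_of_nonneg (bb_nonneg q n), abs_of_pos (Real.exp_pos _)]
  have h := term_le q n u w
  have e : u - Real.log n - w = u - w - Real.log n := by ring
  rw [e]
  calc bb q n * (|kap a w| * Real.exp (-|u - w - Real.log n|)) =
      |kap a w| * (bb q n * Real.exp (-|u - w - Real.log n|)) := by ring
    _ ≤ |kap a w| * (mj n * (Real.exp u * Real.exp (-w))) :=
        mul_le_mul_of_nonneg_left h (abs_nonneg _)
    _ = mj n * (Real.exp u * (|kap a w| * Real.exp (-w))) := by ring

theorem fn_tsum (q : ℕ) (a u w : ℝ) : ∑' n : ℕ, fn q a u n w =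
    kap a w * ∑' n : ℕ, bb q n * Real.exp (-|u - w - Real.log n|) := by
  rw [← tsum_mul_left]
  refine tsum_congr fun n => ?_
  unfold fn
  have e : u - Real.log n - w = u - w - Real.log n := by ring
  rw [e]
  ring

/-- the sum part -/
theorem sum_part (h2 : S_KI) (q : ℕ) {a : ℝ} (ha : 0 < a) (u : ℝ) :
    HasSum (fun n : ℕ => bb q n * (max (u - Real.log n) 0 * Real.exp (-(a * (u - Real.log n)))) +
      1 / 2 * (bb q n * Real.exp (-|u - Real.log n|)))
      (∫ w in Ioi (0 : ℝ), kap a w * ∑' n : ℕ, bb q n * Real.exp (-|u - w - Real.log n|)) := by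
  have hs : Summable fun n : ℕ => ∫ w in Ioi (0 : ℝ), ‖fn q a u n w‖ :=
    Summable.of_nonneg_of_le (fun n => integral_nonneg fun w => norm_nonneg _)
      (fun n => fn_norm h2 q ha u n) (mj_summable.mul_right _)
  have h := hasSum_integral_of_summable_integral_norm (fun n => fn_int h2 q ha u n) hs
  simp_rw [fn_val h2 q ha u, fn_tsum] at h
  exact h

theorem sum0_summable (q : ℕ) (u : ℝ) :
    Summable (fun n : ℕ => bb q n * Real.exp (-|u - Real.log n|)) := by
  have h := sum_summable q u 0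
  simpa using h

/-- `κ` times the sum is integrable -/
theorem sum_int (h2 : S_KI) (q : ℕ) [NeZero q] {a : ℝ} (ha : 0 < a) (u : ℝ) :
    IntegrableOn (fun w : ℝ => kap a w *
      ((Nat.totient q : ℝ) * ∑' n : ℕ, bb q n * Real.exp (-|u - w - Real.log n|))) (Ioi 0) := by
  have hcont : Continuous (fun w : ℝ =>
      (Nat.totient q : ℝ) * ∑' n : ℕ, bb q n * Real.exp (-|u - w - Real.log n|)) := by
    have e : (fun w : ℝ =>
        (Nat.totient q : ℝ) * ∑' n : ℕ, bb q n * Real.exp (-|u - w - Real.log n|)) =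
        fun w : ℝ => EE q (u - w) + 8 / 3 * Real.exp ((u - w) / 2) := by
      funext w
      rw [EE_eq]
      ring
    rw [e]
    refine Continuous.add ?_ (by fun_prop)
    exact (EE_cont q).comp (continuous_const.sub continuous_id)
  have hb : Integrable (fun w : ℝ => ((Nat.totient q : ℝ) * (∑' n, mj n) * Real.exp u) *
      (|kap a w| * Real.exp (-w))) (volume.restrict (Ioi 0)) := (int1 h2 ha).const_mul _
  refine hb.mono' ((kap_cont a).mul hcont).aestronglyMeasurable ?_
  refine Filter.Eventually.of_forall fun w => ?_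
  have h1 : ∑' n : ℕ, bb q n * Real.exp (-|u - w - Real.log n|) ≤
      (∑' n, mj n) * (Real.exp u * Real.exp (-w)) := by
    rw [← tsum_mul_right]
    exact Summable.tsum_le_tsum (fun n => term_le q n u w) (sum_summable q u w)
      (mj_summable.mul_right _)
  have h0 : 0 ≤ ∑' n : ℕ, bb q n * Real.exp (-|u - w - Real.log n|) :=
    tsum_nonneg fun n => mul_nonneg (bb_nonneg q n) (Real.exp_pos _).le
  have hphi : (0 : ℝ) ≤ Nat.totient q := Nat.cast_nonneg _
  rw [norm_mul, Real.norm_eq_abs, Real.norm_eq_abs, abs_of_nonneg (mul_nonneg hphi h0)]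
  calc |kap a w| * ((Nat.totient q : ℝ) * ∑' n : ℕ, bb q n * Real.exp (-|u - w - Real.log n|))
      ≤ |kap a w| * ((Nat.totient q : ℝ) * ((∑' n, mj n) * (Real.exp u * Real.exp (-w)))) :=
        mul_le_mul_of_nonneg_left (mul_le_mul_of_nonneg_left h1 hphi) (abs_nonneg _)
    _ = ((Nat.totient q : ℝ) * (∑' n, mj n) * Real.exp u) * (|kap a w| * Real.exp (-w)) := by
        ring

theorem t_CV (h1 : S_KE) (h2 : S_KI) : S_CV := by
  intro q _ a ha u
  have hI1 := sum_int h2 q ha u
  have hI2 : IntegrableOn (fun w : ℝ => (8 / 3 * Real.exp (u / 2)) *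
      (kap a w * Real.exp (-(w / 2)))) (Ioi 0) := (int3 h1 ha).const_mul _
  have e : ∀ w : ℝ, kap a w * EE q (u - w) =
      kap a w * ((Nat.totient q : ℝ) * ∑' n : ℕ, bb q n * Real.exp (-|u - w - Real.log n|)) -
      (8 / 3 * Real.exp (u / 2)) * (kap a w * Real.exp (-(w / 2))) := by
    intro w
    rw [EE_eq]
    have e2 : Real.exp ((u - w) / 2) = Real.exp (u / 2) * Real.exp (-(w / 2)) := by
      rw [← Real.exp_add]
      congr 1
      ring
    rw [e2]
    ring
  have e' : (fun w : ℝ => kap a w * EE q (u - w)) = fun w =>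
      kap a w * ((Nat.totient q : ℝ) * ∑' n : ℕ, bb q n * Real.exp (-|u - w - Real.log n|)) -
      (8 / 3 * Real.exp (u / 2)) * (kap a w * Real.exp (-(w / 2))) := funext e
  rw [e']
  refine ⟨hI1.sub hI2, ?_⟩
  rw [integral_sub hI1 hI2, integral_const_mul, val3 h1 ha]
  have e3 : ∫ w in Ioi (0 : ℝ), kap a w *
      ((Nat.totient q : ℝ) * ∑' n : ℕ, bb q n * Real.exp (-|u - w - Real.log n|)) =
      (Nat.totient q : ℝ) * ∫ w in Ioi (0 : ℝ), kap a w *
        ∑' n : ℕ, bb q n * Real.exp (-|u - w - Real.log n|) := by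
    rw [← integral_const_mul]
    refine integral_congr_ae (Filter.Eventually.of_forall fun w => ?_)
    simp only
    ring
  have hs := sum_part h2 q ha u
  have hs0 := sum0_summable q u
  have hM : Summable (fun n : ℕ =>
      bb q n * (max (u - Real.log n) 0 * Real.exp (-(a * (u - Real.log n))))) := by
    have h3 := hs.summable.sub (hs0.mul_left (1 / 2))
    refine h3.congr fun n => ?_
    ring
  have h4 := hs.tsum_eq
  rw [hM.tsum_add (hs0.mul_left (1 / 2)), tsum_mul_left] at h4
  rw [e3, ← h4, FF_eq, EE_eq]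
  have hne : a + 1 / 2 ≠ 0 := by positivity
  have e5 : Real.exp (u / 2) / (a + 1 / 2) ^ 2 = -(4 / 3 * Real.exp (u / 2)) +
      8 / 3 * Real.exp (u / 2) * (a / (a + 1 / 2) - (a ^ 2 - 1) / 2 / (a + 1 / 2) ^ 2) := by
    field_simp
    ring
  rw [e5]
  ring

end Pool.Agent.H178.EXCV
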