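import Mathlib

/-! Families of `k`-sets which nearly attain Johnson's bound: the completion matrix. -/

namespace Pool.Agent.H178.Gap

open Finset

variable {V : Type*} [Fintype V] [DecidableEq V]

/-- The indicator function of `B`. -/
def a (B : Finset V) (x : V) : ℤ := if x ∈ B then 1 else 0

theorem a_nonneg (B : Finset V) (x : V) : 0 ≤ a B x := by
  unfold a; split_ifs <;> norm_num

theorem sum_a (B : Finset V) : ∑ x, a B x = B.card := by
  unfold a
  rw [Finset.sum_boole, Finset.filter_mem_eq_inter, Finset.univ_inter]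

theorem a_mul_a (B C : Finset V) (x : V) : a B x * a C x = a (B ∩ C) x := by
  unfold a
  by_cases h1 : x ∈ B <;> by_cases h2 : x ∈ C <;> simp [h1, h2]

theorem sum_a_mul (B C : Finset V) : ∑ x, a B x * a C x = (B ∩ C).card := by
  simp only [a_mul_a, sum_a]

/-- The number of the sets of `F` through `x`. -/
def r (F : Finset (Finset V)) (x : V) : ℤ := ∑ B ∈ F, a B x

/-- The number of the sets of `F` through `x` and `y`. -/
def c (F : Finset (Finset V)) (x y : V) : ℤ := ∑ B ∈ F, a B x * a B y

/-- The deficiency of `x`. -/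
def e (k : ℤ) (F : Finset (Finset V)) (x : V) : ℤ := k - r F x

/-- The matrix `(k - l) I + l J - Aᵀ A`. -/
def M (k l : ℤ) (F : Finset (Finset V)) (x y : V) : ℤ :=
  (if x = y then k - l else 0) + l - c F x y

/-- The slack of two sets. -/
def E (l : ℤ) (B C : Finset V) : ℤ := if B = C then 0 else l - (B ∩ C).card

theorem M_symm (k l : ℤ) (F : Finset (Finset V)) (x y : V) : M k l F x y = M k l F y x := by
  unfold M c
  have h1 : (if x = y then k - l else 0) = if y = x then k - l else 0 := by
    by_cases h : x = y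
    · subst h; rfl
    · rw [if_neg h, if_neg (fun h' => h h'.symm)]
  rw [h1]
  congr 1
  exact Finset.sum_congr rfl fun B _ => mul_comm _ _

theorem M_self (k l : ℤ) (F : Finset (Finset V)) (x : V) : M k l F x x = e k F x := by
  unfold M e c r
  rw [if_pos rfl]
  have : ∀ B ∈ F, a B x * a B x = a B x := fun B _ => by
    rw [a_mul_a, Finset.inter_self]
  rw [Finset.sum_congr rfl this]
  ring

section

variable {k l : ℤ} {F : Finset (Finset V)}

theorem inter_eq (hF : ∀ B ∈ F, (B.card : ℤ) = k) {B C : Finset V} (hB : B ∈ F) :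
    ((B ∩ C).card : ℤ) = (if B = C then k - l else 0) + l - E l B C := by
  unfold E
  by_cases h : B = C
  · subst h
    rw [if_pos rfl, if_pos rfl, Finset.inter_self, hF B hB]
    ring
  · rw [if_neg h, if_neg h]
    ring

/-- The row sums. -/
theorem sum_M (hF : ∀ B ∈ F, (B.card : ℤ) = k) (hv : k * (k - 1) = l * (Fintype.card V - 1))
    (x : V) : ∑ y, M k l F x y = k * e k F x := by
  unfold M e c r
  rw [Finset.sum_sub_distrib, Finset.sum_add_distrib, Finset.sum_ite_eq, if_pos (Finset.mem_univ _),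
    Finset.sum_const, Finset.card_univ, Finset.sum_comm]
  have : ∀ B ∈ F, ∑ y, a B x * a B y = a B x * k := fun B hB => by
    rw [← Finset.mul_sum, sum_a, hF B hB]
  rw [Finset.sum_congr rfl this, ← Finset.sum_mul, nsmul_eq_mul]
  linear_combination (-1 : ℤ) * hv

/-- The products with the sets. -/
theorem sum_M_mul (hF : ∀ B ∈ F, (B.card : ℤ) = k) (x : V) {B : Finset V} (hB : B ∈ F) :
    ∑ y, M k l F x y * a B y = l * e k F x + ∑ C ∈ F, a C x * E l C B := by
  have h1 : ∀ y, M k l F x y * a B y =
      (if x = y then (k - l) * a B y else 0) + l * a B y - ∑ C ∈ F, a C x * (a C y * a B y) := by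
    intro y
    unfold M c
    rw [sub_mul, add_mul, ite_mul, zero_mul, Finset.sum_mul]
    congr 1
    exact Finset.sum_congr rfl fun C _ => by ring
  rw [Finset.sum_congr rfl fun y _ => h1 y, Finset.sum_sub_distrib, Finset.sum_add_distrib,
    Finset.sum_ite_eq, if_pos (Finset.mem_univ _), ← Finset.mul_sum, sum_a, hF B hB,
    Finset.sum_comm]
  have h2 : ∀ C ∈ F, ∑ y, a C x * (a C y * a B y) =
      (if C = B then a C x * (k - l) else 0) + a C x * l - a C x * E l C B := by
    intro C hC
    rw [← Finset.mul_sum, sum_a_mul, inter_eq (l := l) hF hC]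
    split_ifs <;> ring
  rw [Finset.sum_congr rfl h2, Finset.sum_sub_distrib, Finset.sum_add_distrib,
    Finset.sum_ite_eq', if_pos hB, ← Finset.sum_mul]
  unfold e r
  ring

/-- The quadratic form of the slack. -/
def Q (l : ℤ) (F : Finset (Finset V)) (x z : V) : ℤ :=
  ∑ B ∈ F, (∑ C ∈ F, a C x * E l C B) * a B z

/-- The square of the matrix. -/
theorem sum_M_mul_M (hF : ∀ B ∈ F, (B.card : ℤ) = k)
    (hv : k * (k - 1) = l * (Fintype.card V - 1)) (x z : V) :
    ∑ y, M k l F x y * M k l F z y =
      (k - l) * M k l F x z + l * e k F x * e k F z - Q l F x z := by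
  have h1 : ∀ y, M k l F x y * M k l F z y =
      (if z = y then (k - l) * M k l F x y else 0) + l * M k l F x y -
        ∑ B ∈ F, (M k l F x y * a B y) * a B z := by
    intro y
    conv_lhs => rw [M.eq_def k l F z y]
    unfold c
    rw [mul_sub, mul_add, mul_ite, mul_zero, Finset.mul_sum]
    rw [mul_comm (M k l F x y) (k - l), mul_comm (M k l F x y) l]
    congr 1
    exact Finset.sum_congr rfl fun B _ => by ring
  rw [Finset.sum_congr rfl fun y _ => h1 y, Finset.sum_sub_distrib, Finset.sum_add_distrib,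
    Finset.sum_ite_eq, if_pos (Finset.mem_univ _), ← Finset.mul_sum, sum_M hF hv, Finset.sum_comm]
  have h2 : ∀ B ∈ F, ∑ y, (M k l F x y * a B y) * a B z =
      l * e k F x * a B z + (∑ C ∈ F, a C x * E l C B) * a B z := by
    intro B hB
    rw [← Finset.sum_mul, sum_M_mul hF x hB]
    ring
  rw [Finset.sum_congr rfl h2, Finset.sum_add_distrib, ← Finset.mul_sum]
  unfold Q
  have h3 : ∑ B ∈ F, a B z = k - e k F z := by unfold e r; ring
  rw [h3]
  ring

variable (hI : ∀ B ∈ F, ∀ C ∈ F, B ≠ C → ((B ∩ C).card : ℤ) ≤ l)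
include hI

theorem E_nonneg {B C : Finset V} (hB : B ∈ F) (hC : C ∈ F) : 0 ≤ E l B C := by
  unfold E
  split_ifs with h
  · exact le_rfl
  · linarith [hI B hB C hC h]

theorem EE_nonneg (x : V) {B : Finset V} (hB : B ∈ F) : 0 ≤ ∑ C ∈ F, a C x * E l C B :=
  Finset.sum_nonneg fun C hC => mul_nonneg (a_nonneg C x) (E_nonneg hI hC hB)

theorem Q_nonneg (x z : V) : 0 ≤ Q l F x z :=
  Finset.sum_nonneg fun B hB => mul_nonneg (EE_nonneg hI x hB) (a_nonneg B z)

variable (hF : ∀ B ∈ F, (B.card : ℤ) = k) (hv : k * (k - 1) = l * (Fintype.card V - 1))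
include hF hv

theorem e_nonneg (hl : 0 < l) (hlk : l < k) (x : V) : 0 ≤ e k F x := by
  by_contra hneg
  push Not at hneg
  have h1 := sum_M_mul_M hF hv x x
  have h2 := Q_nonneg hI x x
  rw [M_self] at h1
  have h3 : ∑ y, M k l F x y = k * e k F x := sum_M hF hv x
  -- Cauchy-Schwarz
  have h4 : (∑ y, M k l F x y) ^ 2 ≤ (Fintype.card V : ℤ) * ∑ y, (M k l F x y) ^ 2 := by
    have := sq_sum_le_card_mul_sum_sq (s := (Finset.univ : Finset V)) (f := fun y => M k l F x y)
    rwa [Finset.card_univ] at this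
  have h5 : ∑ y, (M k l F x y) ^ 2 = ∑ y, M k l F x y * M k l F x y :=
    Finset.sum_congr rfl fun y _ => sq _
  rw [h5, h1, h3] at h4
  have hvpos : (0 : ℤ) ≤ Fintype.card V := Int.natCast_nonneg _
  set v : ℤ := (Fintype.card V : ℤ)
  have h6 : (k * e k F x) ^ 2 ≤ v * ((k - l) * e k F x + l * e k F x * e k F x) := by
    nlinarith
  -- `(k² - l v) e² ≤ v (k - l) e`
  have h7 : (k - l) * (e k F x * e k F x) ≤ (k - l) * (v * e k F x) := by
    have h8 : k * k - l * v = k - l := by linarith
    have : (k * e k F x) ^ 2 - v * ((k - l) * e k F x + l * e k F x * e k F x) =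
        (k * k - l * v) * (e k F x * e k F x) - (k - l) * (v * e k F x) := by ring
    rw [h8] at this
    linarith
  have h9 : e k F x * e k F x ≤ v * e k F x := le_of_mul_le_mul_left h7 (by linarith)
  nlinarith

/-- The rows of the points of deficiency at most one. -/
theorem row_le_one {x : V} (hx : e k F x = 0 ∨ e k F x = 1) :
    Q l F x x = 0 ∧ ∀ y, M k l F x y = 0 ∨ M k l F x y = 1 := by
  have h1 := sum_M_mul_M hF hv x x
  have h2 := Q_nonneg hI x x
  rw [M_self] at h1
  have h3 : ∑ y, M k l F x y = k * e k F x := sum_M hF hv x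
  have h4 : ∑ y, (M k l F x y * M k l F x y - M k l F x y) = - Q l F x x := by
    rw [Finset.sum_sub_distrib, h1, h3]
    rcases hx with h | h <;> rw [h] <;> ring
  have h5 : ∀ y, 0 ≤ M k l F x y * M k l F x y - M k l F x y := by
    intro y
    have : ∀ m : ℤ, 0 ≤ m * m - m := by
      intro m
      rcases le_or_gt m 0 with h | h
      · nlinarith
      · nlinarith
    exact this _
  have h6 := Finset.sum_nonneg (s := Finset.univ) fun y _ => h5 y
  have h7 : ∑ y, (M k l F x y * M k l F x y - M k l F x y) = 0 := by linarith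
  refine ⟨by linarith, fun y => ?_⟩
  have h8 := (Finset.sum_eq_zero_iff_of_nonneg (fun y _ => h5 y)).1 h7 y (Finset.mem_univ _)
  have h9 : M k l F x y * (M k l F x y - 1) = 0 := by linarith
  rcases mul_eq_zero.1 h9 with h | h
  · exact Or.inl h
  · exact Or.inr (by linarith)

theorem row_zero (hl : 0 < l) (hlk : l < k) {x : V} (hx : e k F x = 0) (y : V) :
    M k l F x y = 0 := by
  have h3 : ∑ y, M k l F x y = 0 := by rw [sum_M hF hv x, hx, mul_zero]
  have h4 := (row_le_one hI hF hv (Or.inl hx)).2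
  have h5 : ∀ y ∈ (Finset.univ : Finset V), 0 ≤ M k l F x y := fun y _ => by
    rcases h4 y with h | h <;> rw [h]
    norm_num
  exact (Finset.sum_eq_zero_iff_of_nonneg h5).1 h3 y (Finset.mem_univ _)

end

end Pool.Agent.H178.Gap
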