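import Pool.Agent.H178.GapA

/-! Families of `k`-sets which nearly attain Johnson's bound: no slack, and completion. -/

namespace Pool.Agent.H178.Gap

open Finset

variable {V : Type*} [Fintype V] [DecidableEq V]

section

variable {k l : ℤ} {F : Finset (Finset V)}

theorem sum_e (hF : ∀ B ∈ F, (B.card : ℤ) = k) :
    ∑ x, e k F x = ((Fintype.card V : ℤ) - F.card) * k := by
  unfold e r
  rw [Finset.sum_sub_distrib, Finset.sum_const, Finset.card_univ, Finset.sum_comm]
  have : ∀ B ∈ F, ∑ x, a B x = k := fun B hB => by rw [sum_a, hF B hB]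
  rw [Finset.sum_congr rfl this, Finset.sum_const, nsmul_eq_mul, nsmul_eq_mul]
  ring

/-- The deficiency of a set. -/
theorem sum_e_block (hF : ∀ B ∈ F, (B.card : ℤ) = k)
    (hv : k * (k - 1) = l * (Fintype.card V - 1)) {B : Finset V} (hB : B ∈ F) :
    ∑ x, a B x * e k F x = l * ((Fintype.card V : ℤ) - F.card) + ∑ C ∈ F, E l B C := by
  have h1 : ∀ x, a B x * e k F x = a B x * k - ∑ C ∈ F, a B x * a C x := by
    intro x
    unfold e r
    rw [mul_sub, Finset.mul_sum]
  rw [Finset.sum_congr rfl fun x _ => h1 x, Finset.sum_sub_distrib, ← Finset.sum_mul, sum_a,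
    hF B hB, Finset.sum_comm]
  have h2 : ∀ C ∈ F, ∑ x, a B x * a C x = (if B = C then k - l else 0) + l - E l B C :=
    fun C hC => by rw [sum_a_mul, inter_eq (l := l) hF hB]
  rw [Finset.sum_congr rfl h2, Finset.sum_sub_distrib, Finset.sum_add_distrib,
    Finset.sum_ite_eq, if_pos hB, Finset.sum_const, nsmul_eq_mul]
  linear_combination hv

/-- The sum of the squares. -/
theorem sum_e_sq (hF : ∀ B ∈ F, (B.card : ℤ) = k)
    (hv : k * (k - 1) = l * (Fintype.card V - 1)) :
    ∑ x, e k F x * (e k F x - 1) =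
      l * (((Fintype.card V : ℤ) - F.card) * ((Fintype.card V : ℤ) - F.card - 1)) -
        ∑ B ∈ F, ∑ C ∈ F, E l B C := by
  have h1 : ∀ x, e k F x * (e k F x - 1) = (k - 1) * e k F x - ∑ B ∈ F, a B x * e k F x := by
    intro x
    rw [← Finset.sum_mul]
    have : ∑ B ∈ F, a B x = k - e k F x := by unfold e r; ring
    rw [this]
    ring
  rw [Finset.sum_congr rfl fun x _ => h1 x, Finset.sum_sub_distrib, ← Finset.mul_sum, sum_e hF,
    Finset.sum_comm, Finset.sum_congr rfl fun B hB => sum_e_block hF hv hB,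
    Finset.sum_add_distrib, Finset.sum_const, nsmul_eq_mul]
  linear_combination ((Fintype.card V : ℤ) - F.card) * hv

variable (hI : ∀ B ∈ F, ∀ C ∈ F, B ≠ C → ((B ∩ C).card : ℤ) ≤ l)
  (hF : ∀ B ∈ F, (B.card : ℤ) = k) (hv : k * (k - 1) = l * (Fintype.card V - 1))
  (hl : 0 < l) (hlk : l < k)
include hI hF hv hl hlk

theorem defect_nonneg : 0 ≤ (Fintype.card V : ℤ) - F.card := by
  have h1 := sum_e hF
  have h2 : 0 ≤ ∑ x, e k F x := Finset.sum_nonneg fun x _ => e_nonneg hI hF hv hl hlk x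
  rw [h1] at h2
  exact nonneg_of_mul_nonneg_left h2 (by linarith)

/-- All points of a set with slack have positive deficiency. -/
theorem one_le_e {B C : Finset V} (hB : B ∈ F) (hC : C ∈ F) (hE : 0 < E l B C) {x : V}
    (hx : x ∈ B) : 1 ≤ e k F x := by
  by_contra h
  have h0 : e k F x = 0 := by
    have := e_nonneg hI hF hv hl hlk x
    omega
  have h1 := sum_M_mul (l := l) hF x hC
  have h2 : ∑ y, M k l F x y * a C y = 0 :=
    Finset.sum_eq_zero fun y _ => by rw [row_zero hI hF hv hl hlk h0 y, zero_mul]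
  have h3 : a B x * E l B C ≤ ∑ D ∈ F, a D x * E l D C :=
    Finset.single_le_sum (f := fun D => a D x * E l D C)
      (fun D hD => mul_nonneg (a_nonneg D x) (E_nonneg hI hD hC)) hB
  have h4 : a B x = 1 := by unfold a; rw [if_pos hx]
  rw [h2, h0, mul_zero, zero_add] at h1
  rw [← h1, h4, one_mul] at h3
  linarith

/-- The slack of a set with slack is large. -/
theorem slack_large {B C : Finset V} (hB : B ∈ F) (hC : C ∈ F) (hE : 0 < E l B C) :
    k - l * ((Fintype.card V : ℤ) - F.card) ≤ ∑ D ∈ F, E l B D := by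
  have h1 := sum_e_block hF hv hB
  have h2 : ∑ x, a B x * 1 ≤ ∑ x, a B x * e k F x := by
    refine Finset.sum_le_sum fun x _ => ?_
    by_cases hx : x ∈ B
    · exact mul_le_mul_of_nonneg_left (one_le_e hI hF hv hl hlk hB hC hE hx) (a_nonneg B x)
    · have : a B x = 0 := by unfold a; rw [if_neg hx]
      rw [this, zero_mul, zero_mul]
  simp only [mul_one] at h2
  rw [sum_a, hF B hB] at h2
  linarith

/-- **No slack.** -/
theorem no_slack (hδ : l * (2 * ((Fintype.card V : ℤ) - F.card) - 1) < k) :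
    ∀ B ∈ F, ∀ C ∈ F, E l B C = 0 := by
  classical
  by_contra hcon
  push Not at hcon
  obtain ⟨B, hB, C, hC, hne⟩ := hcon
  have hδ0 := defect_nonneg hI hF hv hl hlk
  set δ : ℤ := (Fintype.card V : ℤ) - F.card with hδdef
  have hE0 : ∀ {B C : Finset V}, B ∈ F → C ∈ F → 0 ≤ E l B C := fun hB hC => E_nonneg hI hB hC
  have hpos : 0 < E l B C := lt_of_le_of_ne (hE0 hB hC) (Ne.symm hne)
  have hsymm : ∀ B C : Finset V, E l B C = E l C B := by
    intro B C
    unfold E
    rw [Finset.inter_comm]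
    by_cases h : B = C
    · subst h; rfl
    · rw [if_neg h, if_neg (fun h' => h h'.symm)]
  have hle : ∀ {B C : Finset V}, E l B C ≤ l := by
    intro B C
    unfold E
    split_ifs
    · linarith
    · have : (0 : ℤ) ≤ ((B ∩ C).card : ℤ) := Int.natCast_nonneg _
      linarith
  -- the total slack
  have htot : ∑ B ∈ F, ∑ C ∈ F, E l B C ≤ l * (δ * (δ - 1)) := by
    have h1 := sum_e_sq hF hv
    have h2 : 0 ≤ ∑ x, e k F x * (e k F x - 1) := by
      refine Finset.sum_nonneg fun x _ => ?_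
      have h3 := e_nonneg hI hF hv hl hlk x
      rcases eq_or_lt_of_le h3 with h | h
      · rw [← h]; simp
      · exact mul_nonneg h3 (by linarith)
    linarith
  set t : ℤ := k - l * δ with ht
  have hbig : ∀ B ∈ F, ∀ C ∈ F, 0 < E l B C → t ≤ ∑ D ∈ F, E l B D :=
    fun B hB C hC h => slack_large hI hF hv hl hlk hB hC h
  -- `δ ≥ 1`
  have hδ1 : 1 ≤ δ := by
    by_contra h
    have h0 : δ = 0 := by omega
    have h1 : E l B C ≤ ∑ C ∈ F, E l B C :=
      Finset.single_le_sum (f := fun C => E l B C) (fun D hD => hE0 hB hD) hC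
    have h2 : ∑ C ∈ F, E l B C ≤ ∑ B ∈ F, ∑ C ∈ F, E l B C :=
      Finset.single_le_sum (f := fun B => ∑ C ∈ F, E l B C)
        (fun D hD => Finset.sum_nonneg fun G hG => hE0 hD hG) hB
    rw [h0] at htot
    linarith
  have htpos : l * (δ - 1) < t := by rw [ht]; linarith
  have htpos' : 0 < t := lt_of_le_of_lt (mul_nonneg hl.le (by linarith)) htpos
  -- the neighbours of `B`
  set S : Finset (Finset V) := F.filter (fun D => 0 < E l B D) with hS
  have hSB : ∑ D ∈ F, E l B D ≤ l * S.card := by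
    have h1 : ∑ D ∈ F, E l B D = ∑ D ∈ S, E l B D := by
      rw [hS, Finset.sum_filter]
      refine Finset.sum_congr rfl fun D hD => ?_
      split_ifs with h
      · rfl
      · exact le_antisymm (not_lt.1 h) (hE0 hB hD)
    rw [h1]
    calc ∑ D ∈ S, E l B D ≤ ∑ D ∈ S, l := Finset.sum_le_sum fun D _ => hle
      _ = l * S.card := by rw [Finset.sum_const, nsmul_eq_mul, mul_comm]
  have hBS : B ∉ S := by
    rw [hS, Finset.mem_filter]
    rintro ⟨-, h⟩
    unfold E at h
    rw [if_pos rfl] at h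
    exact lt_irrefl _ h
  have hlow : t * (S.card + 1) ≤ ∑ B ∈ F, ∑ C ∈ F, E l B C := by
    have h1 : ∑ D ∈ insert B S, ∑ C ∈ F, E l D C ≤ ∑ B ∈ F, ∑ C ∈ F, E l B C := by
      refine Finset.sum_le_sum_of_subset_of_nonneg ?_
        (fun D hD _ => Finset.sum_nonneg fun G hG => hE0 hD hG)
      intro D hD
      rcases Finset.mem_insert.1 hD with rfl | hD
      · exact hB
      · exact (Finset.mem_filter.1 hD).1
    have h2 : ∑ D ∈ insert B S, t ≤ ∑ D ∈ insert B S, ∑ C ∈ F, E l D C := by
      refine Finset.sum_le_sum fun D hD => ?_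
      rcases Finset.mem_insert.1 hD with rfl | hD
      · exact hbig D hB C hC hpos
      · obtain ⟨hD1, hD2⟩ := Finset.mem_filter.1 hD
        exact hbig D hD1 B hB (by rw [hsymm]; exact hD2)
    rw [Finset.sum_const, Finset.card_insert_of_notMem hBS, nsmul_eq_mul] at h2
    push_cast at h2
    linarith
  have hScard : t ≤ l * S.card := (hbig B hB C hC hpos).trans hSB
  have hScard0 : (0 : ℤ) ≤ S.card := Int.natCast_nonneg _
  -- `(l + t) t ≤ l (total) ≤ l² δ (δ - 1)`
  have h1 : l * (t * (S.card + 1)) ≤ l * (l * (δ * (δ - 1))) :=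
    mul_le_mul_of_nonneg_left (hlow.trans htot) hl.le
  have h2 : t * (t + l) ≤ l * (t * (S.card + 1)) := by
    have : l * (t * (S.card + 1)) = t * (l * S.card + l) := by ring
    rw [this]
    exact mul_le_mul_of_nonneg_left (by linarith) htpos'.le
  have h3 : (l * (δ - 1)) * (l * δ) < t * (t + l) := by
    have h4 : l * δ < t + l := by linarith
    have h5 : 0 ≤ l * (δ - 1) := mul_nonneg hl.le (by linarith)
    nlinarith
  nlinarith

/-- **A new set.** -/
theorem exists_new (hE : ∀ B ∈ F, ∀ C ∈ F, E l B C = 0) (hδ1 : 1 ≤ (Fintype.card V : ℤ) - F.card)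
    (hδ : l * ((Fintype.card V : ℤ) - F.card - 1) < k) :
    ∃ x, e k F x = 1 := by
  by_contra hcon
  push Not at hcon
  set δ : ℤ := (Fintype.card V : ℤ) - F.card with hδdef
  have h1 := sum_e hF
  have h2 := sum_e_sq hF hv
  rw [Finset.sum_eq_zero fun B hB => Finset.sum_eq_zero fun C hC => hE B hB C hC, sub_zero] at h2
  have h3 : ∑ x, e k F x ≤ ∑ x, e k F x * (e k F x - 1) := by
    refine Finset.sum_le_sum fun x _ => ?_
    have h4 := e_nonneg hI hF hv hl hlk x
    have h5 := hcon x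
    rcases eq_or_lt_of_le h4 with h | h
    · rw [← h]; simp
    · have : 2 ≤ e k F x := by omega
      nlinarith
  rw [h1, h2] at h3
  have h4 : δ * (k - l * (δ - 1)) ≤ 0 := by
    rw [← hδdef] at h3
    nlinarith
  nlinarith

end

/-- The new set of a point of deficiency one. -/
def R (k l : ℤ) (F : Finset (Finset V)) (x : V) : Finset V :=
  Finset.univ.filter (fun y => M k l F x y = 1)

section

variable {k l : ℤ} {F : Finset (Finset V)}
  (hI : ∀ B ∈ F, ∀ C ∈ F, B ≠ C → ((B ∩ C).card : ℤ) ≤ l)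
  (hF : ∀ B ∈ F, (B.card : ℤ) = k) (hv : k * (k - 1) = l * (Fintype.card V - 1))
  (hl : 0 < l) (hlk : l < k)
include hI hF hv

theorem a_R {x : V} (hx : e k F x = 1) (y : V) : a (R k l F x) y = M k l F x y := by
  simp only [a, R, Finset.mem_filter, Finset.mem_univ, true_and]
  rcases (row_le_one hI hF hv (Or.inr hx)).2 y with h | h
  · rw [h]; simp
  · rw [h]; simp

theorem card_R {x : V} (hx : e k F x = 1) : ((R k l F x).card : ℤ) = k := by
  rw [← sum_a, Finset.sum_congr rfl fun y _ => a_R hI hF hv hx y, sum_M hF hv, hx, mul_one]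

theorem inter_R (hE : ∀ B ∈ F, ∀ C ∈ F, E l B C = 0) {x : V} (hx : e k F x = 1)
    {B : Finset V} (hB : B ∈ F) : ((R k l F x ∩ B).card : ℤ) = l := by
  rw [← sum_a_mul, Finset.sum_congr rfl fun y _ => by rw [a_R hI hF hv hx y], sum_M_mul hF x hB,
    hx, mul_one, Finset.sum_eq_zero fun C hC => by rw [hE C hC B hB, mul_zero], add_zero]

end

end Pool.Agent.H178.Gap
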