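import Pool.Agent.H178.GapB

/-! Families of `k`-sets which nearly attain Johnson's bound: extension to a symmetric design. -/

namespace Pool.Agent.H178.Gap

open Finset

variable {V : Type*} [Fintype V] [DecidableEq V]

/-- `D` is a symmetric design. -/
def IsDes (k l : ℕ) (D : Finset (Finset V)) : Prop :=
  D.card = Fintype.card V ∧ (∀ B ∈ D, B.card = k) ∧
    ∀ x y : V, x ≠ y → (D.filter (fun B => x ∈ B ∧ y ∈ B)).card = l

theorem c_eq (F : Finset (Finset V)) (x y : V) :
    c F x y = (F.filter (fun B => x ∈ B ∧ y ∈ B)).card := by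
  unfold c
  rw [Finset.card_filter]
  push_cast
  refine Finset.sum_congr rfl fun B _ => ?_
  unfold a
  by_cases h1 : x ∈ B <;> by_cases h2 : y ∈ B <;> simp [h1, h2]

theorem c_self (F : Finset (Finset V)) (x : V) : c F x x = r F x := by
  unfold c r
  exact Finset.sum_congr rfl fun B _ => by rw [a_mul_a, Finset.inter_self]

/-- The completion matrix of a design vanishes. -/
theorem des_M {k l : ℕ} (hl : 0 < l) (hlk : l < k)
    (hv : (k : ℤ) * (k - 1) = l * (Fintype.card V - 1)) {D : Finset (Finset V)}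
    (hD : IsDes k l D) (x y : V) : M k l D x y = 0 := by
  obtain ⟨h1, h2, h3⟩ := hD
  have hF : ∀ B ∈ D, (B.card : ℤ) = k := fun B hB => by rw [h2 B hB]
  have hr : r D x = k := by
    -- `∑_y c x y = k r x`, `c x y = l`
    have e1 : ∑ y, c D x y = r D x * k := by
      unfold c r
      rw [Finset.sum_comm, Finset.sum_mul]
      exact Finset.sum_congr rfl fun B hB => by rw [← Finset.mul_sum, sum_a, hF B hB]
    have e2 : ∑ y, c D x y = r D x + l * (Fintype.card V - 1) := by
      rw [← Finset.add_sum_erase _ _ (Finset.mem_univ x), c_self]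
      congr 1
      have : ∀ y ∈ Finset.univ.erase x, c D x y = l := fun y hy => by
        rw [c_eq, h3 x y (Finset.ne_of_mem_erase hy).symm]
      rw [Finset.sum_congr rfl this, Finset.sum_const, Finset.card_erase_of_mem (Finset.mem_univ x),
        Finset.card_univ, nsmul_eq_mul, Nat.cast_sub]
      · push_cast; ring
      · exact Fintype.card_pos_iff.2 ⟨x⟩
    have e3 : (r D x - k) * ((k : ℤ) - 1) = 0 := by
      rw [e1] at e2
      linarith
    have h2k : (k : ℤ) - 1 ≠ 0 := by
      have : 2 ≤ k := by omega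
      have : (2 : ℤ) ≤ k := by exact_mod_cast this
      intro h; linarith
    have := (mul_eq_zero.1 e3).resolve_right h2k
    linarith
  unfold M
  by_cases h : x = y
  · subst h
    rw [if_pos rfl, c_self, hr]
    ring
  · rw [if_neg h, c_eq, h3 x y h]
    ring

/-- **Completion.** -/
theorem complete {k l : ℕ} (hl : 0 < l) (hlk : l < k)
    (hv : (k : ℤ) * (k - 1) = l * (Fintype.card V - 1)) : ∀ (d : ℕ) (F : Finset (Finset V)),
    Fintype.card V = F.card + d → (∀ B ∈ F, B.card = k) →
    (∀ B ∈ F, ∀ C ∈ F, B ≠ C → (B ∩ C).card = l) → (l : ℤ) * ((d : ℤ) - 1) < k →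
    ∃! D : Finset (Finset V), F ⊆ D ∧ IsDes k l D := by
  intro d
  have hl' : (0 : ℤ) < l := by exact_mod_cast hl
  have hlk' : (l : ℤ) < k := by exact_mod_cast hlk
  induction d with
  | zero =>
    intro F hcard hF0 hI0 _
    have hF : ∀ B ∈ F, (B.card : ℤ) = k := fun B hB => by rw [hF0 B hB]
    have hI : ∀ B ∈ F, ∀ C ∈ F, B ≠ C → ((B ∩ C).card : ℤ) ≤ l :=
      fun B hB C hC h => by rw [hI0 B hB C hC h]
    refine ⟨F, ⟨Finset.Subset.refl _, ?_, hF0, ?_⟩, ?_⟩
    · omega
    · have h1 : ∑ x, e (k : ℤ) F x = 0 := by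
        rw [sum_e hF, hcard]
        push_cast
        ring
      have h2 := (Finset.sum_eq_zero_iff_of_nonneg
        (fun x _ => e_nonneg hI hF hv hl' hlk' x)).1 h1
      intro x y hxy
      have h3 := row_zero hI hF hv hl' hlk' (h2 x (Finset.mem_univ _)) y
      unfold M at h3
      rw [if_neg hxy, c_eq] at h3
      have : ((F.filter (fun B => x ∈ B ∧ y ∈ B)).card : ℤ) = l := by linarith
      exact_mod_cast this
    · rintro D ⟨h1, h2⟩
      refine (Finset.eq_of_subset_of_card_le h1 ?_).symm
      rw [h2.1, hcard]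
      exact le_rfl
  | succ d ih =>
    intro F hcard hF0 hI0 hd
    have hF : ∀ B ∈ F, (B.card : ℤ) = k := fun B hB => by rw [hF0 B hB]
    have hI : ∀ B ∈ F, ∀ C ∈ F, B ≠ C → ((B ∩ C).card : ℤ) ≤ l :=
      fun B hB C hC h => by rw [hI0 B hB C hC h]
    have hE : ∀ B ∈ F, ∀ C ∈ F, E l B C = 0 := by
      intro B hB C hC
      unfold E
      split_ifs with h
      · rfl
      · rw [hI0 B hB C hC h]; ring
    have hδ : (Fintype.card V : ℤ) - F.card = d + 1 := by
      rw [hcard]; push_cast; ring
    obtain ⟨x, hx⟩ := exists_new hI hF hv hl' hlk' hE (by rw [hδ]; linarith [Int.natCast_nonneg d])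
      (by rw [hδ]; push_cast at hd; linarith)
    set R₀ := R (k : ℤ) l F x with hR
    have hRcard : R₀.card = k := by
      have := card_R hI hF hv hx
      exact_mod_cast this
    have hRI : ∀ B ∈ F, (R₀ ∩ B).card = l := fun B hB => by
      have := inter_R hI hF hv hE hx hB
      exact_mod_cast this
    have hRF : R₀ ∉ F := by
      intro h
      have h1 := hRI R₀ h
      rw [Finset.inter_self, hRcard] at h1
      omega
    have hcard' : Fintype.card V = (insert R₀ F).card + d := by
      rw [Finset.card_insert_of_notMem hRF]; omega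
    have hd' : (l : ℤ) * ((d : ℤ) - 1) < k := by
      push_cast at hd
      nlinarith
    obtain ⟨D, ⟨hD1, hD2⟩, hD3⟩ := ih (insert R₀ F) hcard'
      (fun B hB => by
        rcases Finset.mem_insert.1 hB with rfl | hB
        · exact hRcard
        · exact hF0 B hB)
      (fun B hB C hC hBC => by
        rcases Finset.mem_insert.1 hB with rfl | hB <;> rcases Finset.mem_insert.1 hC with rfl | hC
        · exact absurd rfl hBC
        · exact hRI C hC
        · rw [Finset.inter_comm]; exact hRI B hB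
        · exact hI0 B hB C hC hBC) hd'
    refine ⟨D, ⟨(Finset.subset_insert _ _).trans hD1, hD2⟩, ?_⟩
    rintro D' ⟨h1, h2⟩
    refine hD3 D' ⟨?_, h2⟩
    refine Finset.insert_subset ?_ h1
    -- `R₀` belongs to each design containing `F`
    have hM : ∀ y, ∑ C ∈ D' \ F, a C x * a C y = M (k : ℤ) l F x y := by
      intro y
      have h3 := des_M hl hlk hv h2 x y
      have h4 : c D' x y = c F x y + ∑ C ∈ D' \ F, a C x * a C y := by
        unfold c
        rw [← Finset.sum_sdiff h1]
        ring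
      unfold M at h3 ⊢
      linarith
    have hx1 : ∑ C ∈ D' \ F, a C x = 1 := by
      have h3 := hM x
      rw [M_self, hx] at h3
      rw [← h3]
      exact Finset.sum_congr rfl fun C _ => by rw [a_mul_a, Finset.inter_self]
    obtain ⟨C, hC, hCx⟩ : ∃ C ∈ D' \ F, a C x ≠ 0 := by
      by_contra h
      push Not at h
      rw [Finset.sum_eq_zero h] at hx1
      exact absurd hx1 (by norm_num)
    have hCx1 : a C x = 1 := by
      unfold a at hCx ⊢
      split_ifs at hCx ⊢ with h
      · rfl
      · exact absurd rfl hCx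
    have hother : ∀ C' ∈ D' \ F, C' ≠ C → a C' x = 0 := by
      intro C' hC' hne
      rw [← Finset.add_sum_erase _ _ hC, hCx1] at hx1
      have h3 : ∑ C ∈ (D' \ F).erase C, a C x = 0 := by linarith
      exact (Finset.sum_eq_zero_iff_of_nonneg (fun B _ => a_nonneg B x)).1 h3 C'
        (Finset.mem_erase.2 ⟨hne, hC'⟩)
    have hCR : C = R₀ := by
      ext y
      have h3 := hM y
      rw [Finset.sum_eq_single C (fun C' hC' hne => by rw [hother C' hC' hne, zero_mul])
        (fun h => absurd hC h), hCx1, one_mul, ← a_R hI hF hv hx y] at h3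
      change a C y = a R₀ y at h3
      unfold a at h3
      by_cases h4 : y ∈ C <;> by_cases h5 : y ∈ R₀ <;> simp_all
    rw [← hCR]
    exact (Finset.mem_sdiff.1 hC).1

/-- **The gap theorem.** -/
theorem gap {k l : ℕ} (hl : 0 < l) (hlk : l < k)
    (hv : (k : ℤ) * (k - 1) = l * (Fintype.card V - 1)) (F : Finset (Finset V))
    (hF : ∀ B ∈ F, B.card = k)
    (hI : ((∀ B ∈ F, ∀ C ∈ F, B ≠ C → (B ∩ C).card ≤ l) ∧
        (l : ℤ) * (2 * ((Fintype.card V : ℤ) - F.card) - 1) < k) ∨
      ((∀ B ∈ F, ∀ C ∈ F, B ≠ C → (B ∩ C).card = l) ∧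
        (l : ℤ) * ((Fintype.card V : ℤ) - F.card - 1) < k)) :
    ∃! D : Finset (Finset V), F ⊆ D ∧ IsDes k l D := by
  have hl' : (0 : ℤ) < l := by exact_mod_cast hl
  have hlk' : (l : ℤ) < k := by exact_mod_cast hlk
  have hF' : ∀ B ∈ F, (B.card : ℤ) = k := fun B hB => by rw [hF B hB]
  have key : (∀ B ∈ F, ∀ C ∈ F, B ≠ C → (B ∩ C).card = l) ∧
        (l : ℤ) * ((Fintype.card V : ℤ) - F.card - 1) < k := by
    rcases hI with ⟨h1, h2⟩ | h
    · have h1' : ∀ B ∈ F, ∀ C ∈ F, B ≠ C → ((B ∩ C).card : ℤ) ≤ l :=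
        fun B hB C hC h => by exact_mod_cast h1 B hB C hC h
      have h3 := no_slack h1' hF' hv hl' hlk' h2
      have h4 := defect_nonneg h1' hF' hv hl' hlk'
      refine ⟨?_, ?_⟩
      · intro B hB C hC hBC
        have h5 := h3 B hB C hC
        unfold E at h5
        rw [if_neg hBC] at h5
        have : ((B ∩ C).card : ℤ) = l := by linarith
        exact_mod_cast this
      · nlinarith
    · exact h
  obtain ⟨h1, h2⟩ := key
  have h1' : ∀ B ∈ F, ∀ C ∈ F, B ≠ C → ((B ∩ C).card : ℤ) ≤ l :=
    fun B hB C hC h => by rw [h1 B hB C hC h]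
  have h4 := defect_nonneg h1' hF' hv hl' hlk'
  obtain ⟨d, hd⟩ : ∃ d : ℕ, Fintype.card V = F.card + d := by
    have : F.card ≤ Fintype.card V := by
      have : (F.card : ℤ) ≤ Fintype.card V := by linarith
      exact_mod_cast this
    exact Nat.exists_eq_add_of_le this
  refine complete hl hlk hv d F hd hF h1 ?_
  have : (Fintype.card V : ℤ) - F.card = d := by rw [hd]; push_cast; ring
  rwa [this] at h2

end Pool.Agent.H178.Gap
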