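import Pool.Agent.H178.GapC
import Pool.Graph.R_seed8.H177R2.SD.Main
import Pool.Graph.R_seed8.H177R2.SD.Final2
import Pool.Graph.R_seed8.H177R2.SD.Brc

/-! Families of `k`-sets which nearly attain Johnson's bound: complements and consequences. -/

namespace Pool.Agent.H178.Gap

open Finset

variable {V : Type*} [Fintype V] [DecidableEq V]

/-- The family of the complements. -/
def cpl (F : Finset (Finset V)) : Finset (Finset V) := F.image (fun B => Bᶜ)

theorem mem_cpl (F : Finset (Finset V)) (B : Finset V) : B ∈ cpl F ↔ Bᶜ ∈ F := by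
  unfold cpl
  rw [Finset.mem_image]
  constructor
  · rintro ⟨C, hC, rfl⟩
    rwa [compl_compl]
  · intro h
    exact ⟨Bᶜ, h, compl_compl B⟩

theorem cpl_cpl (F : Finset (Finset V)) : cpl (cpl F) = F := by
  ext B
  rw [mem_cpl, mem_cpl, compl_compl]

theorem card_cpl (F : Finset (Finset V)) : (cpl F).card = F.card :=
  Finset.card_image_of_injective _ compl_injective

theorem cpl_subset (F D : Finset (Finset V)) : cpl F ⊆ D ↔ F ⊆ cpl D := by
  constructor
  · intro h B hB
    rw [mem_cpl]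
    exact h ((mem_cpl F _).2 (by rwa [compl_compl]))
  · intro h B hB
    have := h ((mem_cpl F B).1 hB)
    rwa [mem_cpl, compl_compl] at this

theorem inter_compl (B C : Finset V) :
    ((Bᶜ ∩ Cᶜ).card : ℤ) = Fintype.card V - B.card - C.card + (B ∩ C).card := by
  rw [← Finset.compl_union, Finset.card_compl, Nat.cast_sub (Finset.card_le_univ _)]
  have := Finset.card_union_add_card_inter B C
  have : ((B ∪ C).card : ℤ) + (B ∩ C).card = B.card + C.card := by exact_mod_cast this
  linarith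

/-- The replication number of a design. -/
theorem des_r {k l : ℕ} (hl : 0 < l) (hlk : l < k)
    (hv : (k : ℤ) * (k - 1) = l * (Fintype.card V - 1)) {D : Finset (Finset V)}
    (hD : IsDes k l D) (x : V) : (D.filter (fun B => x ∈ B)).card = k := by
  have h1 := des_M hl hlk hv hD x x
  rw [M_self] at h1
  unfold e r at h1
  have h2 : ∑ B ∈ D, a B x = ((D.filter (fun B => x ∈ B)).card : ℤ) := by
    unfold a
    rw [Finset.sum_boole]
  rw [h2] at h1
  have : ((D.filter (fun B => x ∈ B)).card : ℤ) = k := by linarith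
  exact_mod_cast this

theorem des_cpl {k l k' l' : ℕ} (hl : 0 < l) (hlk : l < k)
    (hv : (k : ℤ) * (k - 1) = l * (Fintype.card V - 1)) (hk' : k + k' = Fintype.card V)
    (hl' : 2 * k + l' = Fintype.card V + l) {D : Finset (Finset V)}
    (hD : IsDes k l D) : IsDes k' l' (cpl D) := by
  refine ⟨by rw [card_cpl, hD.1], ?_, ?_⟩
  · intro B hB
    have h1 := hD.2.1 _ ((mem_cpl D B).1 hB)
    rw [Finset.card_compl] at h1
    have := Finset.card_le_univ B
    omega
  · intro x y hxy
    have h1 : (cpl D).filter (fun B => x ∈ B ∧ y ∈ B) =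
        cpl (D.filter (fun B => ¬ (x ∈ B ∨ y ∈ B))) := by
      ext B
      rw [Finset.mem_filter, mem_cpl, mem_cpl, Finset.mem_filter, Finset.mem_compl,
        Finset.mem_compl]
      tauto
    rw [h1, card_cpl]
    have h2 := Finset.card_filter_add_card_filter_not (s := D) (fun B => x ∈ B ∨ y ∈ B)
    have h3 : (D.filter (fun B => x ∈ B ∨ y ∈ B)).card + (D.filter (fun B => x ∈ B ∧ y ∈ B)).card =
        (D.filter (fun B => x ∈ B)).card + (D.filter (fun B => y ∈ B)).card := by
      rw [Finset.filter_or, Finset.filter_and, Finset.card_union_add_card_inter]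
    rw [hD.2.2 x y hxy, des_r hl hlk hv hD, des_r hl hlk hv hD] at h3
    rw [hD.1] at h2
    omega

/-- `F` is a nearly complete family: all sets have `k` elements, and either two of them meet in at
most `l` points, and `(2 δ - 1) (k - 1) < v - 1` or `(2 δ - 1) (v - k - 1) < v - 1`, or two of them meet
in exactly `l` points, and `(δ - 1) (k - 1) < v - 1` or `(δ - 1) (v - k - 1) < v - 1`, where
`δ = v - |F|`. -/
def Near (k l : ℕ) (F : Finset (Finset V)) : Prop :=
  (∀ B ∈ F, B.card = k) ∧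
    (((∀ B ∈ F, ∀ C ∈ F, B ≠ C → (B ∩ C).card ≤ l) ∧
        ((2 * ((Fintype.card V : ℤ) - F.card) - 1) * ((k : ℤ) - 1) < Fintype.card V - 1 ∨
          (2 * ((Fintype.card V : ℤ) - F.card) - 1) * ((Fintype.card V : ℤ) - k - 1) <
            Fintype.card V - 1)) ∨
      ((∀ B ∈ F, ∀ C ∈ F, B ≠ C → (B ∩ C).card = l) ∧
        (((Fintype.card V : ℤ) - F.card - 1) * ((k : ℤ) - 1) < Fintype.card V - 1 ∨
          ((Fintype.card V : ℤ) - F.card - 1) * ((Fintype.card V : ℤ) - k - 1) <
            Fintype.card V - 1)))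

theorem near_half {k l : ℕ} (hk : 2 ≤ k) (hkv : k + 2 ≤ Fintype.card V)
    (hv : (k : ℤ) * (k - 1) = l * (Fintype.card V - 1)) (F : Finset (Finset V))
    (hF : ∀ B ∈ F, B.card = k)
    (hI : ((∀ B ∈ F, ∀ C ∈ F, B ≠ C → (B ∩ C).card ≤ l) ∧
        (2 * ((Fintype.card V : ℤ) - F.card) - 1) * ((k : ℤ) - 1) < Fintype.card V - 1) ∨
      ((∀ B ∈ F, ∀ C ∈ F, B ≠ C → (B ∩ C).card = l) ∧
        ((Fintype.card V : ℤ) - F.card - 1) * ((k : ℤ) - 1) < Fintype.card V - 1)) :
    0 < l ∧ l < k ∧ ∃! D : Finset (Finset V), F ⊆ D ∧ IsDes k l D := by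
  have hk' : (2 : ℤ) ≤ k := by exact_mod_cast hk
  have hkv' : (k : ℤ) + 2 ≤ Fintype.card V := by exact_mod_cast hkv
  have hl : 0 < l := by
    rcases Nat.eq_zero_or_pos l with h | h
    · subst h
      push_cast at hv
      nlinarith
    · exact h
  have hl' : (0 : ℤ) < l := by exact_mod_cast hl
  have hlk : l < k := by
    by_contra h
    have h1 : (k : ℤ) ≤ l := by exact_mod_cast not_lt.1 h
    nlinarith
  have hlk' : (l : ℤ) < k := by exact_mod_cast hlk
  have conv : ∀ m : ℤ, m * ((k : ℤ) - 1) < Fintype.card V - 1 → (l : ℤ) * m < k := by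
    intro m hm
    by_contra h
    push Not at h
    have h1 : (k : ℤ) * ((k : ℤ) - 1) ≤ (l * m) * ((k : ℤ) - 1) :=
      mul_le_mul_of_nonneg_right h (by linarith)
    have h2 : (l : ℤ) * (m * ((k : ℤ) - 1)) < l * (Fintype.card V - 1) :=
      mul_lt_mul_of_pos_left hm hl'
    linarith
  refine ⟨hl, hlk, gap hl hlk hv F hF ?_⟩
  rcases hI with ⟨h1, h2⟩ | ⟨h1, h2⟩
  · exact Or.inl ⟨h1, conv _ h2⟩
  · exact Or.inr ⟨h1, conv _ h2⟩

/-- **The gap theorem**, both for the sets and for their complements. -/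
theorem near {k l : ℕ} (hk : 2 ≤ k) (hkv : k + 2 ≤ Fintype.card V)
    (hv : l * (Fintype.card V - 1) = k * (k - 1)) (F : Finset (Finset V)) (hF : Near k l F) :
    ∃! D : Finset (Finset V), F ⊆ D ∧ IsDes k l D := by
  have hk' : (2 : ℤ) ≤ k := by exact_mod_cast hk
  have hkv' : (k : ℤ) + 2 ≤ Fintype.card V := by exact_mod_cast hkv
  have hvZ : (k : ℤ) * (k - 1) = l * (Fintype.card V - 1) := by
    have h1 : ((l * (Fintype.card V - 1) : ℕ) : ℤ) = ((k * (k - 1) : ℕ) : ℤ) := by rw [hv]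
    rw [Nat.cast_mul, Nat.cast_mul, Nat.cast_sub (by omega), Nat.cast_sub (by omega)] at h1
    push_cast at h1
    linarith
  obtain ⟨h0, hI⟩ := hF
  have main : (((∀ B ∈ F, ∀ C ∈ F, B ≠ C → (B ∩ C).card ≤ l) ∧
        (2 * ((Fintype.card V : ℤ) - F.card) - 1) * ((k : ℤ) - 1) < Fintype.card V - 1) ∨
      ((∀ B ∈ F, ∀ C ∈ F, B ≠ C → (B ∩ C).card = l) ∧
        ((Fintype.card V : ℤ) - F.card - 1) * ((k : ℤ) - 1) < Fintype.card V - 1)) ∨
      (((∀ B ∈ F, ∀ C ∈ F, B ≠ C → (B ∩ C).card ≤ l) ∧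
        (2 * ((Fintype.card V : ℤ) - F.card) - 1) * ((Fintype.card V : ℤ) - k - 1) <
          Fintype.card V - 1) ∨
      ((∀ B ∈ F, ∀ C ∈ F, B ≠ C → (B ∩ C).card = l) ∧
        ((Fintype.card V : ℤ) - F.card - 1) * ((Fintype.card V : ℤ) - k - 1) <
          Fintype.card V - 1)) := by
    tauto
  rcases main with h | h
  · exact (near_half hk hkv hvZ F h0 h).2.2
  -- the complements
  have hlk : (l : ℤ) < k := by
    by_contra h
    push Not at h
    nlinarith
  obtain ⟨k', hk1⟩ : ∃ k', k + k' = Fintype.card V := ⟨Fintype.card V - k, by omega⟩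
  obtain ⟨l', hl1⟩ : ∃ l', 2 * k + l' = Fintype.card V + l := by
    refine ⟨Fintype.card V + l - 2 * k, ?_⟩
    -- `v - 2 k + l ≥ 0`
    have h3 : (2 * k : ℤ) ≤ Fintype.card V + l := by
      by_contra h4
      push Not at h4
      -- `(v - k) (v - k - 1) = (v - 2 k + l) (v - 1)`
      have h5 : ((Fintype.card V : ℤ) - k) * (Fintype.card V - k - 1) =
          (Fintype.card V - 2 * k + l) * (Fintype.card V - 1) := by
        linear_combination (1 : ℤ) * hvZ
      nlinarith
    have : 2 * k ≤ Fintype.card V + l := by exact_mod_cast h3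
    omega
  have hk1' : (k : ℤ) + k' = Fintype.card V := by exact_mod_cast hk1
  have hl1' : 2 * (k : ℤ) + l' = Fintype.card V + l := by exact_mod_cast hl1
  have hvZ' : (k' : ℤ) * (k' - 1) = l' * (Fintype.card V - 1) := by
    have h3 : (k' : ℤ) = Fintype.card V - k := by linarith
    have h4 : (l' : ℤ) = Fintype.card V - 2 * k + l := by linarith
    rw [h3, h4]
    linear_combination (1 : ℤ) * hvZ
  have hkk' : (Fintype.card V : ℤ) - k = k' := by linarith
  have hcpl0 : ∀ B ∈ cpl F, B.card = k' := by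
    intro B hB
    have h1 := h0 _ ((mem_cpl F B).1 hB)
    rw [Finset.card_compl] at h1
    have := Finset.card_le_univ B
    omega
  have hcplI : ∀ B ∈ cpl F, ∀ C ∈ cpl F, ((B ∩ C).card : ℤ) = (Bᶜ ∩ Cᶜ).card + (l' : ℤ) - l := by
    intro B hB C hC
    have h1 := inter_compl B C
    rw [hcpl0 B hB, hcpl0 C hC] at h1
    linarith
  have hres := near_half (k := k') (l := l') (by omega) (by omega) hvZ' (cpl F) hcpl0 (by
    rw [card_cpl]
    rw [hkk'] at h
    rcases h with ⟨h1, h2⟩ | ⟨h1, h2⟩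
    · refine Or.inl ⟨?_, h2⟩
      intro B hB C hC hBC
      have h3 := h1 _ ((mem_cpl F B).1 hB) _ ((mem_cpl F C).1 hC) (fun h => hBC (compl_injective h))
      have h4 := hcplI B hB C hC
      have h5 : ((Bᶜ ∩ Cᶜ).card : ℤ) ≤ l := by exact_mod_cast h3
      have : ((B ∩ C).card : ℤ) ≤ l' := by linarith
      exact_mod_cast this
    · refine Or.inr ⟨?_, h2⟩
      intro B hB C hC hBC
      have h3 := h1 _ ((mem_cpl F B).1 hB) _ ((mem_cpl F C).1 hC) (fun h => hBC (compl_injective h))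
      have h4 := hcplI B hB C hC
      have h5 : ((Bᶜ ∩ Cᶜ).card : ℤ) = l := by exact_mod_cast h3
      have : ((B ∩ C).card : ℤ) = l' := by linarith
      exact_mod_cast this)
  obtain ⟨hl'0, hlk'0, D, ⟨hD1, hD2⟩, hD3⟩ := hres
  have hl0 : 0 < l := by
    rcases Nat.eq_zero_or_pos l with h | h
    · subst h
      push_cast at hvZ
      nlinarith
    · exact h
  have hlk0 : l < k := by exact_mod_cast hlk
  refine ⟨cpl D, ⟨(cpl_subset F D).1 hD1, des_cpl hl'0 hlk'0 hvZ' (by omega) (by omega) hD2⟩, ?_⟩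
  rintro D' ⟨h1, h2⟩
  have h3 := hD3 (cpl D') ⟨(cpl_subset F (cpl D')).2 (by rwa [cpl_cpl]),
    des_cpl hl0 hlk0 hvZ hk1 hl1 h2⟩
  have h3' : cpl D' = D := h3
  rw [← h3', cpl_cpl]

open Pool.Agent.H177R2.SD in
theorem isSymmetricDesign_of {v k l : ℕ} (hk : 2 ≤ k) (hkv : k + 2 ≤ v)
    (hv : l * (v - 1) = k * (k - 1)) {D : Finset (Finset (Fin v))} (hD : IsDes k l D) :
    IsSymmetricDesign v k l := by
  have hk' : (2 : ℤ) ≤ k := by exact_mod_cast hk
  have hkv' : (k : ℤ) + 2 ≤ v := by exact_mod_cast hkv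
  have hvZ : (k : ℤ) * (k - 1) = l * ((Fintype.card (Fin v) : ℤ) - 1) := by
    rw [Fintype.card_fin]
    have h1 : ((l * (v - 1) : ℕ) : ℤ) = ((k * (k - 1) : ℕ) : ℤ) := by rw [hv]
    rw [Nat.cast_mul, Nat.cast_mul, Nat.cast_sub (by omega), Nat.cast_sub (by omega)] at h1
    push_cast at h1
    linarith
  have hl0 : 0 < l := by
    rcases Nat.eq_zero_or_pos l with h | h
    · subst h
      push_cast at hvZ
      nlinarith
    · exact h
  have hlk : l < k := by
    by_contra h
    have h1 : (k : ℤ) ≤ l := by exact_mod_cast not_lt.1 h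
    rw [Fintype.card_fin] at hvZ
    nlinarith
  have hcard : D.card = v := by rw [hD.1, Fintype.card_fin]
  let ψ : Fin v ≃ D := (finCongr hcard.symm).trans D.equivFin.symm
  refine ⟨by omega, k, fun i => (ψ i : Finset (Fin v)), fun i => hD.2.1 _ (ψ i).2, ?_, ?_⟩
  · intro x
    rw [← des_r hl0 hlk hvZ hD x]
    refine Finset.card_bij (fun i _ => ((ψ i : D) : Finset (Fin v))) ?_ ?_ ?_
    · intro i hi
      rw [Finset.mem_filter] at hi ⊢
      exact ⟨(ψ i).2, hi.2⟩
    · intro i _ j _ h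
      exact ψ.injective (Subtype.ext h)
    · intro B hB
      rw [Finset.mem_filter] at hB
      refine ⟨ψ.symm ⟨B, hB.1⟩, ?_, ?_⟩
      · rw [Finset.mem_filter]
        simpa using hB.2
      · simp
  · intro x y hxy
    rw [← hD.2.2 x y hxy]
    refine Finset.card_bij (fun i _ => ((ψ i : D) : Finset (Fin v))) ?_ ?_ ?_
    · intro i hi
      rw [Finset.mem_filter] at hi ⊢
      exact ⟨(ψ i).2, hi.2⟩
    · intro i _ j _ h
      exact ψ.injective (Subtype.ext h)
    · intro B hB
      rw [Finset.mem_filter] at hB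
      refine ⟨ψ.symm ⟨B, hB.1⟩, ?_, ?_⟩
      · rw [Finset.mem_filter]
        simpa using hB.2
      · simp

end Pool.Agent.H178.Gap
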