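import Pool.Agent.H178.GapD
import Pool.Graph.R_pool_sql_team_ae5b0c61.H25.BRC

/-! The theorem of Bruck, Ryser and Chowla. -/

namespace Pool.Agent.H178.Gap

open Finset Matrix

variable {V : Type} [Fintype V] [DecidableEq V]

/-- A square incidence matrix. -/
theorem des_matrix {k l : ℕ} (hl : 0 < l) (hlk : l < k)
    (hv : (k : ℤ) * (k - 1) = l * (Fintype.card V - 1)) {D : Finset (Finset V)}
    (hD : IsDes k l D) : ∃ N : Matrix V V ℚ, ∀ x y, ∑ i, N i x * N i y =
      (if x = y then (k : ℚ) - l else 0) + l := by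
  let ψ : V ≃ D := Fintype.equivOfCardEq (by rw [Fintype.card_coe, hD.1])
  refine ⟨fun i x => (a (ψ i : Finset V) x : ℚ), fun x y => ?_⟩
  have h1 := des_M hl hlk hv hD x y
  unfold M c at h1
  have h2 : (∑ B ∈ D, a B x * a B y) = (if x = y then (k : ℤ) - l else 0) + l := by linarith
  have h3 : ∑ i, (a (ψ i : Finset V) x : ℚ) * (a (ψ i : Finset V) y : ℚ) =
      ((∑ B ∈ D, a B x * a B y : ℤ) : ℚ) := by
    push_cast
    rw [← Finset.sum_coe_sort D (fun B => (a B x : ℚ) * (a B y : ℚ))]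
    exact Equiv.sum_comp ψ (fun B : D => (a (B : Finset V) x : ℚ) * (a (B : Finset V) y : ℚ))
  rw [h3, h2]
  push_cast
  split_ifs <;> simp

/-- Even number of points. -/
theorem brc_even {k l : ℕ} (hl : 0 < l) (hlk : l < k)
    (hv : (k : ℤ) * (k - 1) = l * (Fintype.card V - 1)) (hev : Even (Fintype.card V))
    {D : Finset (Finset V)} (hD : IsDes k l D) : IsSquare (k - l) := by
  obtain ⟨N, hN⟩ := des_matrix hl hlk hv hD
  have hn : (k : ℚ) - l ≠ 0 := by
    have : (l : ℚ) < k := by exact_mod_cast hlk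
    intro h; linarith
  set n : ℚ := (k : ℚ) - l with hndef
  have hk0 : (k : ℚ) ≠ 0 := by
    have : 0 < k := by omega
    exact_mod_cast this.ne'
  have h1 : N.transpose * N = n • ((1 : Matrix V V ℚ) +
      replicateCol Unit (fun _ => (l : ℚ) / n) * replicateRow Unit (fun _ => (1 : ℚ))) := by
    ext x y
    rw [Matrix.mul_apply]
    simp only [Matrix.transpose_apply, hN x y, Matrix.smul_apply, Matrix.add_apply,
      Matrix.one_apply, Matrix.mul_apply, replicateCol_apply, replicateRow_apply,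
      Finset.univ_unique, Finset.sum_singleton, smul_eq_mul]
    split_ifs
    · field_simp
    · field_simp
      ring
  have h2 := congrArg Matrix.det h1
  rw [Matrix.det_mul, Matrix.det_transpose, Matrix.det_smul,
    det_one_add_replicateCol_mul_replicateRow] at h2
  have h3 : (fun _ : V => (1 : ℚ)) ⬝ᵥ (fun _ => (l : ℚ) / n) = Fintype.card V * (l / n) := by
    simp [dotProduct, Finset.sum_const, Finset.card_univ]
  rw [h3] at h2
  obtain ⟨m, hm⟩ := hev
  have hvQ : (k : ℚ) * (k - 1) = l * ((Fintype.card V : ℚ) - 1) := by exact_mod_cast hv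
  have h4 : n * (1 + (Fintype.card V : ℚ) * (l / n)) = (k : ℚ) * k := by
    have : n * (1 + (Fintype.card V : ℚ) * (l / n)) = n + Fintype.card V * l := by
      field_simp
    rw [this, hndef]
    linear_combination (-1 : ℚ) * hvQ
  have h5 : n * (N.det * N.det) = (n ^ m * k) * (n ^ m * k) := by
    rw [h2]
    have h6 : n ^ Fintype.card V = n ^ m * n ^ m := by rw [← pow_add, hm]
    rw [h6]
    linear_combination (n ^ m * n ^ m) * h4
  have hdet : N.det ≠ 0 := by
    intro h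
    rw [h] at h5
    have : n ^ m * k ≠ 0 := mul_ne_zero (pow_ne_zero _ hn) hk0
    have h7 : (n ^ m * k) * (n ^ m * k) = 0 := by rw [← h5]; ring
    exact this (mul_self_eq_zero.1 h7)
  have h8 : IsSquare n := by
    refine ⟨(n ^ m * k) / N.det, ?_⟩
    rw [div_mul_div_comm, ← h5]
    field_simp
  have h9 : n = ((k - l : ℕ) : ℚ) := by
    rw [hndef, Nat.cast_sub hlk.le]
  rw [h9, Rat.isSquare_natCast_iff] at h8
  exact h8

/-- Elimination with signs. -/
theorem elim {I : Type} [Fintype I] [DecidableEq I] (A : Matrix I I ℚ) (b : I → ℚ) :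
    ∃ y : I → ℚ, ∀ i, (∑ j, A i j * y j + b i) ^ 2 = y i ^ 2 := by
  obtain ⟨ε, hε, hdet⟩ := Pool.Agent.H25.BRC.signs A
  have hunit : IsUnit (A + diagonal ε) := by
    rw [Matrix.isUnit_iff_isUnit_det]
    exact isUnit_iff_ne_zero.2 hdet
  obtain ⟨y, hy⟩ : ∃ y, (A + diagonal ε).mulVec y = -b := by
    refine ⟨(A + diagonal ε)⁻¹.mulVec (-b), ?_⟩
    rw [Matrix.mulVec_mulVec, Matrix.mul_nonsing_inv _ ((Matrix.isUnit_iff_isUnit_det _).1 hunit),
      Matrix.one_mulVec]
  refine ⟨y, fun i => ?_⟩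
  have h1 := congrFun hy i
  rw [Matrix.add_mulVec, Pi.add_apply, Matrix.mulVec_diagonal] at h1
  have h2 : A.mulVec y i = ∑ j, A i j * y j := rfl
  rw [h2, Pi.neg_apply] at h1
  have h3 : ∑ j, A i j * y j + b i = - (ε i * y i) := by linarith
  rw [h3]
  rcases hε i with h | h <;> rw [h] <;> ring

/-- The matrix of the Lagrange identity. -/
def H4 (a b c d : ℚ) : Matrix (Fin 4) (Fin 4) ℚ :=
  !![a, b, c, d; -b, a, -d, c; -c, d, a, -b; -d, -c, b, a]

theorem H4_sq (a b c d : ℚ) (y : Fin 4 → ℚ) :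
    ∑ i, (∑ j, H4 a b c d i j * y j) ^ 2 = (a ^ 2 + b ^ 2 + c ^ 2 + d ^ 2) * ∑ j, y j ^ 2 := by
  simp [H4, Fin.sum_univ_four]
  ring

/-- The quadratic form of a design. -/
theorem quad {n l : ℚ} {N : Matrix V V ℚ}
    (hN : ∀ x y, ∑ i, N i x * N i y = (if x = y then n else 0) + l) (X : V → ℚ) :
    ∑ i, (∑ x, N i x * X x) ^ 2 = n * ∑ x, X x ^ 2 + l * (∑ x, X x) ^ 2 := by
  have h1 : ∀ i, (∑ x, N i x * X x) ^ 2 = ∑ x, ∑ y, (N i x * N i y) * (X x * X y) := by
    intro i
    rw [sq, Finset.sum_mul_sum]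
    exact Finset.sum_congr rfl fun x _ => Finset.sum_congr rfl fun y _ => by ring
  rw [Finset.sum_congr rfl fun i _ => h1 i, Finset.sum_comm]
  have h2 : ∀ x, ∑ i, ∑ y, (N i x * N i y) * (X x * X y) =
      n * X x ^ 2 + l * (X x * ∑ y, X y) := by
    intro x
    rw [Finset.sum_comm]
    have h3 : ∀ y, ∑ i, (N i x * N i y) * (X x * X y) =
        (if x = y then n * (X x * X y) else 0) + l * (X x * X y) := by
      intro y
      rw [← Finset.sum_mul, hN, add_mul, ite_mul, zero_mul]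
    rw [Finset.sum_congr rfl fun y _ => h3 y, Finset.sum_add_distrib, Finset.sum_ite_eq,
      if_pos (Finset.mem_univ _), ← Finset.mul_sum, ← Finset.mul_sum]
    ring
  rw [Finset.sum_congr rfl fun x _ => h2 x, Finset.sum_add_distrib, ← Finset.mul_sum,
    ← Finset.mul_sum, ← Finset.sum_mul, sq]

/-- The substitution by blocks of four. -/
theorem subst4 {n : ℚ} (hn : n ≠ 0) {Q : Type} [Fintype Q] {a b c d : ℚ}
    (hab : a ^ 2 + b ^ 2 + c ^ 2 + d ^ 2 = n) (y : Q × Fin 4 → ℚ) :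
    n * ∑ p : Q × Fin 4, ((1 / n) * ∑ j, H4 a b c d p.2 j * y (p.1, j)) ^ 2 =
      ∑ p : Q × Fin 4, y p ^ 2 := by
  rw [Fintype.sum_prod_type, Fintype.sum_prod_type, Finset.mul_sum]
  refine Finset.sum_congr rfl fun q _ => ?_
  have h1 := H4_sq a b c d (fun j => y (q, j))
  rw [hab] at h1
  have h2 : ∀ i : Fin 4, ((1 / n) * ∑ j, H4 a b c d i j * y (q, j)) ^ 2 =
      (1 / n ^ 2) * (∑ j, H4 a b c d i j * y (q, j)) ^ 2 := by
    intro i
    field_simp
  simp only [h2]
  rw [← Finset.mul_sum, h1]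
  field_simp

theorem brc_one {n l : ℚ} (hn : n ≠ 0) {Q : Type} [Fintype Q] [DecidableEq Q] {a b c d : ℚ}
    (hab : a ^ 2 + b ^ 2 + c ^ 2 + d ^ 2 = n)
    {N : Matrix ((Q × Fin 4) ⊕ Unit) ((Q × Fin 4) ⊕ Unit) ℚ}
    (hN : ∀ x y, ∑ i, N i x * N i y = (if x = y then n else 0) + l) :
    ∃ x z : ℚ, x ^ 2 = n + l * z ^ 2 := by
  classical
  -- the linear forms in the new variables
  let A : Matrix (Q × Fin 4) (Q × Fin 4) ℚ := fun i p =>
    (1 / n) * ∑ j, N (Sum.inl i) (Sum.inl (p.1, j)) * H4 a b c d j p.2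
  obtain ⟨y, hy⟩ := elim A (fun i => N (Sum.inl i) (Sum.inr ()))
  let X : (Q × Fin 4) ⊕ Unit → ℚ := Sum.elim
    (fun p => (1 / n) * ∑ j, H4 a b c d p.2 j * y (p.1, j)) (fun _ => 1)
  have h1 := quad hN X
  have h2 : ∀ i : Q × Fin 4, ∑ x, N (Sum.inl i) x * X x =
      ∑ j, A i j * y j + N (Sum.inl i) (Sum.inr ()) := by
    intro i
    rw [Fintype.sum_sum_type]
    congr 1
    · simp only [X, Sum.elim_inl, A]
      rw [Fintype.sum_prod_type, Fintype.sum_prod_type]
      refine Finset.sum_congr rfl fun q _ => ?_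
      simp only
      have e1 : ∀ x : Fin 4, N (Sum.inl i) (Sum.inl (q, x)) *
          (1 / n * ∑ j, H4 a b c d x j * y (q, j)) =
          ∑ j, 1 / n * (N (Sum.inl i) (Sum.inl (q, x)) * H4 a b c d x j) * y (q, j) := by
        intro x
        rw [Finset.mul_sum, Finset.mul_sum]
        exact Finset.sum_congr rfl fun j _ => by ring
      rw [Finset.sum_congr rfl fun x _ => e1 x, Finset.sum_comm]
      refine Finset.sum_congr rfl fun j _ => ?_
      rw [Finset.mul_sum, Finset.sum_mul]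
    · simp [X]
  rw [Fintype.sum_sum_type, Finset.sum_congr rfl fun i _ => by rw [h2 i, hy i]] at h1
  have h3 : n * ∑ x, X x ^ 2 = ∑ p : Q × Fin 4, y p ^ 2 + n := by
    rw [Fintype.sum_sum_type, mul_add]
    congr 1
    · exact subst4 hn hab y
    · simp [X]
  rw [h3] at h1
  refine ⟨∑ x, N (Sum.inr ()) x * X x, ∑ x, X x, ?_⟩
  simp only [Finset.univ_unique, Finset.sum_singleton, PUnit.default_eq_unit] at h1
  linarith

theorem brc_three {n l : ℚ} (hn : n ≠ 0) {Q : Type} [Fintype Q] {a b c d : ℚ}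
    (hab : a ^ 2 + b ^ 2 + c ^ 2 + d ^ 2 = n)
    {N : Matrix V V ℚ} (σ : V ⊕ Unit ≃ Q × Fin 4)
    (hN : ∀ x y, ∑ i, N i x * N i y = (if x = y then n else 0) + l) :
    ∃ x z : ℚ, 1 = n * x ^ 2 - l * z ^ 2 := by
  classical
  -- `X p = (1 / n) ∑_j H4 p.2 j Y (p.1, j)`, `Y = y ∘ σ⁻¹`
  let T : (V ⊕ Unit) → (V ⊕ Unit) → ℚ := fun x w =>
    if (σ x).1 = (σ w).1 then (1 / n) * H4 a b c d (σ x).2 (σ w).2 else 0
  let A : Matrix V V ℚ := fun i w => ∑ x, N i x * T (Sum.inl x) (Sum.inl w)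
  obtain ⟨y, hy⟩ := elim A (fun i => ∑ x, N i x * T (Sum.inl x) (Sum.inr ()))
  let y' : V ⊕ Unit → ℚ := Sum.elim y (fun _ => 1)
  let X : V ⊕ Unit → ℚ := fun x => ∑ w, T x w * y' w
  have hX : ∀ x, X x = (1 / n) * ∑ j, H4 a b c d (σ x).2 j * y' (σ.symm ((σ x).1, j)) := by
    intro x
    show ∑ w, T x w * y' w = _
    rw [← Equiv.sum_comp σ.symm, Fintype.sum_prod_type, Finset.sum_eq_single (σ x).1]
    · rw [Finset.mul_sum]
      refine Finset.sum_congr rfl fun j _ => ?_
      simp only [T, Equiv.apply_symm_apply, if_true]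
      ring
    · intro q _ hq
      refine Finset.sum_eq_zero fun j _ => ?_
      simp only [T, Equiv.apply_symm_apply]
      rw [if_neg (fun h => hq h.symm), zero_mul]
    · intro h
      exact absurd (Finset.mem_univ _) h
  have h0 : n * ∑ x, X x ^ 2 = ∑ x, y' x ^ 2 := by
    have h1 := subst4 hn hab (fun p => y' (σ.symm p))
    rw [← Equiv.sum_comp σ] at h1
    rw [Equiv.sum_comp σ.symm (fun x => y' x ^ 2)] at h1
    rw [← h1]
    congr 1
    exact Finset.sum_congr rfl fun x _ => by rw [hX x]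
  have h1 := quad hN (fun x => X (Sum.inl x))
  have h2 : ∀ i, ∑ x, N i x * X (Sum.inl x) =
      ∑ j, A i j * y j + ∑ x, N i x * T (Sum.inl x) (Sum.inr ()) := by
    intro i
    have e1 : ∀ x, N i x * X (Sum.inl x) = (∑ w, (N i x * T (Sum.inl x) (Sum.inl w)) * y w) +
        N i x * T (Sum.inl x) (Sum.inr ()) := by
      intro x
      show N i x * (∑ w, T (Sum.inl x) w * y' w) = _
      rw [Fintype.sum_sum_type, mul_add, Finset.mul_sum]
      congr 1
      · exact Finset.sum_congr rfl fun w _ => by simp only [y', Sum.elim_inl]; ring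
      · simp [y']
    rw [Finset.sum_congr rfl fun x _ => e1 x, Finset.sum_add_distrib, Finset.sum_comm]
    congr 1
    refine Finset.sum_congr rfl fun w _ => ?_
    rw [← Finset.sum_mul]
  rw [Finset.sum_congr rfl fun i _ => by rw [h2 i, hy i]] at h1
  rw [Fintype.sum_sum_type, Fintype.sum_sum_type] at h0
  simp only [Finset.univ_unique, Finset.sum_singleton, PUnit.default_eq_unit, y', Sum.elim_inl,
    Sum.elim_inr] at h0
  refine ⟨X (Sum.inr ()), ∑ x, X (Sum.inl x), ?_⟩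
  linarith

end Pool.Agent.H178.Gap
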