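import Pool.Agent.H178.GapE

/-! The theorem of Bruck, Ryser and Chowla, final form, and consequences. -/

namespace Pool.Agent.H178.Gap

open Finset Matrix

theorem clear_den (x z : ℚ) : ∃ X Z : ℤ, ∃ d : ℤ, d ≠ 0 ∧ (X : ℚ) = x * d ∧ (Z : ℚ) = z * d := by
  refine ⟨x.num * z.den, z.num * x.den, x.den * z.den, ?_, ?_, ?_⟩
  · exact mul_ne_zero (by exact_mod_cast x.den_nz) (by exact_mod_cast z.den_nz)
  · push_cast
    have h2 : (x.num : ℚ) = x * x.den := (Rat.mul_den_eq_num x).symm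
    rw [h2]; ring
  · push_cast
    have h2 : (z.num : ℚ) = z * z.den := (Rat.mul_den_eq_num z).symm
    rw [h2]; ring

variable {V : Type} [Fintype V] [DecidableEq V]

/-- Odd number of points. -/
theorem brc_odd {k l : ℕ} (hl : 0 < l) (hlk : l < k)
    (hv : (k : ℤ) * (k - 1) = l * (Fintype.card V - 1)) (hodd : Fintype.card V % 2 = 1)
    {D : Finset (Finset V)} (hD : IsDes k l D) :
    ∃ x y z : ℤ, ¬ (x = 0 ∧ y = 0 ∧ z = 0) ∧
      x ^ 2 = ((k : ℤ) - l) * y ^ 2 + (-1) ^ ((Fintype.card V - 1) / 2) * l * z ^ 2 := by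
  obtain ⟨N, hN⟩ := des_matrix hl hlk hv hD
  have hn : (k : ℚ) - l ≠ 0 := by
    have : (l : ℚ) < k := by exact_mod_cast hlk
    intro h; linarith
  obtain ⟨a, b, c, d, habcd⟩ := Nat.sum_four_squares (k - l)
  have hab : (a : ℚ) ^ 2 + (b : ℚ) ^ 2 + (c : ℚ) ^ 2 + (d : ℚ) ^ 2 = (k : ℚ) - l := by
    rw [← Nat.cast_sub hlk.le, ← habcd]
    push_cast
    ring
  rcases (by omega : Fintype.card V % 4 = 1 ∨ Fintype.card V % 4 = 3) with h4 | h4
  · obtain ⟨m, hm⟩ : ∃ m, Fintype.card V = 4 * m + 1 := ⟨Fintype.card V / 4, by omega⟩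
    let σ : (Fin m × Fin 4) ⊕ Unit ≃ V := Fintype.equivOfCardEq (by
      rw [Fintype.card_sum, Fintype.card_prod, Fintype.card_fin, Fintype.card_fin,
        Fintype.card_unit, hm]
      ring)
    have hN' : ∀ x y, ∑ i, (fun i x => N (σ i) (σ x) : Matrix _ _ ℚ) i x *
        (fun i x => N (σ i) (σ x) : Matrix _ _ ℚ) i y =
        (if x = y then (k : ℚ) - l else 0) + l := by
      intro x y
      have := hN (σ x) (σ y)
      rw [← Equiv.sum_comp σ] at this
      rw [this]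
      simp only [σ.injective.eq_iff]
    obtain ⟨x, z, hxz⟩ := brc_one hn hab hN'
    obtain ⟨X, Z, e, he, hX, hZ⟩ := clear_den x z
    refine ⟨X, e, Z, fun h => he h.2.1, ?_⟩
    have hpow : (-1 : ℤ) ^ ((Fintype.card V - 1) / 2) = 1 := by
      have : (Fintype.card V - 1) / 2 = 2 * m := by omega
      rw [this, pow_mul]; norm_num
    rw [hpow]
    have : ((X ^ 2 : ℤ) : ℚ) = (((k : ℤ) - l) * e ^ 2 + 1 * l * Z ^ 2 : ℤ) := by
      push_cast
      rw [hX, hZ]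
      linear_combination ((e : ℚ) ^ 2) * hxz
    exact_mod_cast this
  · obtain ⟨m, hm⟩ : ∃ m, Fintype.card V = 4 * m + 3 := ⟨Fintype.card V / 4, by omega⟩
    let σ : V ⊕ Unit ≃ Fin (m + 1) × Fin 4 := Fintype.equivOfCardEq (by
      rw [Fintype.card_sum, Fintype.card_prod, Fintype.card_fin, Fintype.card_fin,
        Fintype.card_unit, hm]
      ring)
    obtain ⟨x, z, hxz⟩ := brc_three hn hab σ hN
    obtain ⟨X, Z, e, he, hX, hZ⟩ := clear_den x z
    refine ⟨e, X, Z, fun h => he h.1, ?_⟩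
    have hpow : (-1 : ℤ) ^ ((Fintype.card V - 1) / 2) = -1 := by
      have : (Fintype.card V - 1) / 2 = 2 * m + 1 := by omega
      rw [this, pow_succ, pow_mul]; norm_num
    rw [hpow]
    have : ((e ^ 2 : ℤ) : ℚ) = (((k : ℤ) - l) * X ^ 2 + -1 * l * Z ^ 2 : ℤ) := by
      push_cast
      rw [hX, hZ]
      linear_combination ((e : ℚ) ^ 2) * hxz
    exact_mod_cast this

/-- The two conditions of Bruck, Ryser and Chowla. -/
def BRC (v k l : ℕ) : Prop :=
  (v % 2 = 0 → IsSquare (k - l)) ∧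
    (v % 2 = 1 → ∃ x y z : ℤ, ¬ (x = 0 ∧ y = 0 ∧ z = 0) ∧
      x ^ 2 = ((k : ℤ) - l) * y ^ 2 + (-1) ^ ((v - 1) / 2) * l * z ^ 2)

theorem near_brc {k l : ℕ} (hk : 2 ≤ k) (hkv : k + 2 ≤ Fintype.card V)
    (hv : l * (Fintype.card V - 1) = k * (k - 1)) (F : Finset (Finset V)) (hF : Near k l F) :
    BRC (Fintype.card V) k l := by
  have hk' : (2 : ℤ) ≤ k := by exact_mod_cast hk
  have hkv' : (k : ℤ) + 2 ≤ Fintype.card V := by exact_mod_cast hkv
  obtain ⟨D, ⟨-, hD⟩, -⟩ := near hk hkv hv F hF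
  have hvZ : (k : ℤ) * (k - 1) = l * (Fintype.card V - 1) := by
    have h1 : ((l * (Fintype.card V - 1) : ℕ) : ℤ) = ((k * (k - 1) : ℕ) : ℤ) := by rw [hv]
    rw [Nat.cast_mul, Nat.cast_mul, Nat.cast_sub (by omega), Nat.cast_sub (by omega)] at h1
    push_cast at h1
    linarith
  have hl0 : 0 < l := by
    rcases Nat.eq_zero_or_pos l with h | h
    · subst h
      push_cast at hvZ
      nlinarith
    · exact h
  have hlk : l < k := by
    by_contra h
    have h1 : (k : ℤ) ≤ l := by exact_mod_cast not_lt.1 h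
    nlinarith
  refine ⟨fun h => brc_even hl0 hlk hvZ (Nat.even_iff.2 h) hD, fun h => ?_⟩
  exact brc_odd hl0 hlk hvZ h hD

/-- A multiple by a square of a number which is not a sum of two squares. -/
theorem sum_two_squares {n : ℕ} {x y z : ℤ} (h : ¬ (x = 0 ∧ y = 0 ∧ z = 0))
    (hxyz : x ^ 2 + z ^ 2 = n * y ^ 2) : ∃ a b : ℕ, n = a ^ 2 + b ^ 2 := by
  have hy : y ≠ 0 := by
    rintro rfl
    have h1 : x ^ 2 + z ^ 2 = 0 := by rw [hxyz]; ring
    have hx : x = 0 := by nlinarith [sq_nonneg x, sq_nonneg z]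
    have hz : z = 0 := by nlinarith [sq_nonneg x, sq_nonneg z]
    exact h ⟨hx, rfl, hz⟩
  rcases Nat.eq_zero_or_pos n with hn | hn
  · exact ⟨0, 0, by rw [hn]; norm_num⟩
  have h1 : n * y.natAbs ^ 2 = x.natAbs ^ 2 + z.natAbs ^ 2 := by
    zify
    simp only [sq_abs]
    linarith
  have hy' : y.natAbs ≠ 0 := Int.natAbs_ne_zero.2 hy
  rw [Nat.eq_sq_add_sq_iff]
  intro q hq hq4
  have hqp := Nat.prime_of_mem_primeFactors hq
  have h2 := (Nat.eq_sq_add_sq_iff (n := n * y.natAbs ^ 2)).1 ⟨_, _, h1⟩ (q := q) (by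
    rw [Nat.mem_primeFactors]
    refine ⟨hqp, (Nat.dvd_of_mem_primeFactors hq).mul_right _, ?_⟩
    exact mul_ne_zero hn.ne' (pow_ne_zero _ hy')) hq4
  have : Fact q.Prime := ⟨hqp⟩
  rw [padicValNat.mul hn.ne' (pow_ne_zero _ hy'), padicValNat.pow] at h2
  exact (Nat.even_add.1 h2).2 (even_two_mul _)

/-- Projective planes. -/
theorem near_plane {n : ℕ} (hn : 2 ≤ n) (h4 : n % 4 = 1 ∨ n % 4 = 2)
    (hV : Fintype.card V = n ^ 2 + n + 1) (F : Finset (Finset V)) (hF : Near (n + 1) 1 F) :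
    ∃ a b : ℕ, n = a ^ 2 + b ^ 2 := by
  have h1 := (near_brc (k := n + 1) (l := 1) (by omega) (by rw [hV]; nlinarith)
    (by rw [hV]; simp only [Nat.add_sub_cancel]; ring) F hF).2 (by
    rw [hV]
    have : Even (n ^ 2 + n) := by
      rw [sq, ← Nat.mul_succ]; exact Nat.even_mul_succ_self n
    obtain ⟨m, hm⟩ := this
    omega)
  obtain ⟨x, y, z, h2, h3⟩ := h1
  have hpow : (-1 : ℤ) ^ ((Fintype.card V - 1) / 2) = -1 := by
    apply Odd.neg_one_pow
    rw [hV]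
    obtain ⟨m, hm⟩ : ∃ m, n = 4 * m + 1 ∨ n = 4 * m + 2 := ⟨n / 4, by omega⟩
    rcases hm with rfl | rfl
    · exact ⟨4 * m ^ 2 + 3 * m, by
        have : (4 * m + 1) ^ 2 + (4 * m + 1) + 1 - 1 = 2 * (2 * (4 * m ^ 2 + 3 * m) + 1) := by
          rw [Nat.add_sub_cancel]; ring
        rw [this, Nat.mul_div_cancel_left _ (by norm_num)]⟩
    · exact ⟨4 * m ^ 2 + 5 * m + 1, by
        have : (4 * m + 2) ^ 2 + (4 * m + 2) + 1 - 1 = 2 * (2 * (4 * m ^ 2 + 5 * m + 1) + 1) := by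
          rw [Nat.add_sub_cancel]; ring
        rw [this, Nat.mul_div_cancel_left _ (by norm_num)]⟩
  rw [hpow] at h3
  exact sum_two_squares h2 (by push_cast at h3; linarith)

open Pool.Agent.H177R2.SD

theorem near_isSymmetricDesign {v k l : ℕ} (hk : 2 ≤ k) (hkv : k + 2 ≤ v)
    (hv : l * (v - 1) = k * (k - 1)) (F : Finset (Finset (Fin v))) (hF : Near k l F) :
    IsSymmetricDesign v k l := by
  obtain ⟨D, ⟨-, hD⟩, -⟩ := near (V := Fin v) hk (by rwa [Fintype.card_fin])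
    (by rwa [Fintype.card_fin]) F hF
  exact isSymmetricDesign_of hk hkv hv hD

open Classical in
/-- Almost all numbers of points. -/
theorem almost_all : Filter.Tendsto (fun N : ℕ => (((Finset.Icc 1 N).filter (fun v =>
      ∃ k l : ℕ, 2 ≤ k ∧ k + 2 ≤ v ∧ l * (v - 1) = k * (k - 1) ∧
        (∃ F : Finset (Finset (Fin v)), Near k l F) ∧
        ¬ (v % 4 = 3 ∧ (IsSquare (k * (v - 1 - k)) ∨ IsSquare ((k - 1) * (v - k)))))).card : ℝ) / N)
      Filter.atTop (nhds 0) := by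
  refine squeeze_zero (fun N => by positivity) (fun N => ?_) Pool.Agent.H177R2.SD.main
  refine div_le_div_of_nonneg_right ?_ (by positivity)
  have : (Finset.Icc 1 N).filter (fun v =>
      ∃ k l : ℕ, 2 ≤ k ∧ k + 2 ≤ v ∧ l * (v - 1) = k * (k - 1) ∧
        (∃ F : Finset (Finset (Fin v)), Near k l F) ∧
        ¬ (v % 4 = 3 ∧ (IsSquare (k * (v - 1 - k)) ∨ IsSquare ((k - 1) * (v - k))))) ⊆
      (Finset.Icc 1 N).filter Exc := by
    intro v hv
    rw [Finset.mem_filter] at hv ⊢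
    obtain ⟨h0, k, l, h1, h2, h3, ⟨F, hF⟩, h5⟩ := hv
    exact ⟨h0, k, l, h1, h2, near_isSymmetricDesign h1 h2 h3 F hF, h5⟩
  exact_mod_cast Finset.card_le_card this

open Classical in
/-- Almost all parameters. -/
theorem proportion_near : ∃ C : ℝ, 0 < C ∧ ∀ N : ℕ, 16 ≤ N →
    (((Admissible N).filter (fun t => 2 ≤ t.2.1 ∧ t.2.1 + 2 ≤ t.1 ∧
      ∃ F : Finset (Finset (Fin t.1)), Near t.2.1 t.2.2 F)).card : ℝ) ≤
      C * ((Real.log (Real.log N)) ^ 2 / Real.log N) * ((Admissible N).card : ℝ) := by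
  obtain ⟨C, hC, h⟩ := Pool.Agent.H177R2.SD.proportion
  refine ⟨C, hC, fun N hN => le_trans ?_ (h N hN)⟩
  have : (Admissible N).filter (fun t => 2 ≤ t.2.1 ∧ t.2.1 + 2 ≤ t.1 ∧
      ∃ F : Finset (Finset (Fin t.1)), Near t.2.1 t.2.2 F) ⊆ Realised N := by
    rintro ⟨v, k, l⟩ ht
    rw [Finset.mem_filter] at ht
    obtain ⟨h1, h2, h3, F, hF⟩ := ht
    simp only [Admissible, Finset.mem_filter] at h1
    simp only [Realised, Finset.mem_filter]
    exact ⟨h1.1, near_isSymmetricDesign h2 h3 h1.2.2 F hF⟩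
  exact_mod_cast Finset.card_le_card this

end Pool.Agent.H178.Gap
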