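import Pool.Graph.R_seed8.R694.RC.Tame

set_option autoImplicit false
set_option linter.unusedSectionVars false

/-!
# Hypomorphic graphs without triangles and 4-cycles: basic facts
-/

namespace Pool.Agent.H178.GR

open Finset Classical
open Pool.Agent.H234RC (Hypo NonIso Reconstructible)
open Pool.Agent.R694.RC (nbrs inv_start fin1 fin2 nbrs_eq)

variable {V : Type} [Fintype V]

/-- the neighbours of `x` -/
noncomputable def N (G : SimpleGraph V) (x : V) : Finset V := univ.filter (fun y => G.Adj x y)

lemma mem_N {G : SimpleGraph V} {x y : V} : y ∈ N G x ↔ G.Adj x y := by simp [N]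

/-- the degree -/
noncomputable def dg (G : SimpleGraph V) (x : V) : ℕ := (N G x).card

/-- the multiset of the degrees of the neighbours -/
noncomputable def D (G : SimpleGraph V) (x : V) : Multiset ℕ := (N G x).val.map (dg G)

/-- no triangle -/
def NoTri (G : SimpleGraph V) : Prop := ∀ a b c, G.Adj a b → G.Adj b c → ¬ G.Adj a c

/-- no 4-cycle -/
def NoQuad (G : SimpleGraph V) : Prop :=
  ∀ a b c d, a ≠ c → G.Adj a b → G.Adj b c → G.Adj a d → G.Adj d c → b = d

/-- no two vertices have neighbour degrees which differ by a single step -/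
def NoStep (G : SimpleGraph V) : Prop :=
  ∀ (x y : V) (j : ℕ) (R : Multiset ℕ), D G x = j ::ₘ R → D G y ≠ (j + 1) ::ₘ R

variable {G H : SimpleGraph V} {π : V → Equiv.Perm V}

/-- relabelled graph -/
def rel (H : SimpleGraph V) (σ : Equiv.Perm V) : SimpleGraph V := H.comap σ

lemma rel_adj (H : SimpleGraph V) (σ : Equiv.Perm V) (x y : V) :
    (rel H σ).Adj x y ↔ H.Adj (σ x) (σ y) := Iff.rfl

lemma N_rel (H : SimpleGraph V) (σ : Equiv.Perm V) (x : V) :
    (N (rel H σ) x).map σ.toEmbedding = N H (σ x) := by
  ext y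
  simp only [mem_map, mem_N, rel_adj, Equiv.coe_toEmbedding]
  constructor
  · rintro ⟨z, hz, rfl⟩; exact hz
  · intro h; exact ⟨σ.symm y, by simpa using h, by simp⟩

lemma dg_rel (H : SimpleGraph V) (σ : Equiv.Perm V) (x : V) : dg (rel H σ) x = dg H (σ x) := by
  unfold dg
  rw [← N_rel, card_map]

lemma D_rel (H : SimpleGraph V) (σ : Equiv.Perm V) (x : V) : D (rel H σ) x = D H (σ x) := by
  unfold D
  rw [← N_rel, map_val, Multiset.map_map]
  refine Multiset.map_congr rfl fun y _ => ?_
  simp [dg_rel]

lemma card_D (G : SimpleGraph V) (x : V) : Multiset.card (D G x) = dg G x := by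
  simp [D, dg]

lemma hypo_symm (hH : Hypo G H π) : Hypo H G (fun v => (π v).symm) where
  fix v := by
    rw [Equiv.symm_apply_eq, hH.fix]
  adj v x y hx hy := by
    have h1 : (π v).symm x ≠ v := fun e => hx (by
      rw [Equiv.symm_apply_eq, hH.fix] at e; exact e)
    have h2 : (π v).symm y ≠ v := fun e => hy (by
      rw [Equiv.symm_apply_eq, hH.fix] at e; exact e)
    have := hH.adj v _ _ h1 h2
    simp only [Equiv.apply_symm_apply] at this
    exact this.symm

lemma noniso_symm (hN : NonIso G H) : NonIso H G := by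
  rintro ⟨σ, h⟩
  exact hN ⟨σ.symm, fun x y => by rw [← h]; simp⟩

lemma rel_ne (hN : NonIso G H) (σ : Equiv.Perm V) : rel H σ ≠ G := by
  intro h
  refine hN ⟨σ, fun x y => ?_⟩
  rw [← rel_adj, h]

lemma nbrs_dg (G : SimpleGraph V) (z : V) :
    nbrs G univ (fun _ => 0) Set.univ z = dg G z := by
  unfold nbrs dg N
  congr 1
  ext y
  simp

/-- the degrees are the same -/
lemma dg_hyp (hV : 3 ≤ Fintype.card V) (hH : Hypo G H π) (v : V) : dg H v = dg G v := by
  have := nbrs_eq hH (inv_start hV) Set.univ v (mem_univ v)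
  rwa [nbrs_dg, nbrs_dg] at this

lemma nw (hV : 3 ≤ Fintype.card V) (hH : Hypo G H π) (hN : NonIso G H) (v : V) :
    ∃ x y, y ≠ v ∧ G.Adj v x ∧ ¬ G.Adj v y ∧ dg G x = dg G y + 1 := by
  by_contra hcon
  push Not at hcon
  refine fin1 hH (inv_start hV) v (mem_univ v) (fun i => ⟨Set.univ, Set.mem_univ _, ?_⟩) hN
  intro x _ y _ hyv _ _ hvx hvy he
  rw [nbrs_dg, nbrs_dg] at he
  exact hcon x y hyv hvx hvy he

lemma conn (hV : 3 ≤ Fintype.card V) (hH : Hypo G H π) (hN : NonIso G H) (W : Finset V)
    (h1 : W.Nonempty) (h2 : (univ \ W).Nonempty) : ∃ x ∈ W, ∃ y, y ∉ W ∧ G.Adj x y := by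
  by_contra hcon
  push Not at hcon
  refine fin2 hH (inv_start hV) W (subset_univ _) h1 (by convert h2) ?_ hN
  intro x hx y hy x' hx' y' hy' _
  have hy1 : y ∉ W := by
    have := Finset.mem_sdiff.mp hy
    exact this.2
  have hy2 : y' ∉ W := by
    have := Finset.mem_sdiff.mp hy'
    exact this.2
  exact iff_of_false (hcon x hx y hy1) (hcon x' hx' y' hy2)

lemma nonreg (hV : 3 ≤ Fintype.card V) (hH : Hypo G H π) (hN : NonIso G H) :
    ¬ ∀ v w, dg G v = dg G w := by
  intro h
  have : Nonempty V := Fintype.card_pos_iff.mp (by omega)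
  obtain ⟨x, y, -, -, -, h1⟩ := nw hV hH hN (Classical.arbitrary V)
  rw [h x y] at h1
  omega

/-- the number of neighbours of degree `k` -/
noncomputable def nk (G : SimpleGraph V) (v : V) (k : ℕ) : ℕ :=
  ((N G v).filter (fun y => dg G y = k)).card

lemma count_D (G : SimpleGraph V) (v : V) (k : ℕ) : (D G v).count k = nk G v k := by
  unfold D nk
  rw [Multiset.count_map, card_def, filter_val]
  congr 1
  refine Multiset.filter_congr fun y _ => ?_
  exact eq_comm

/-- degree in the card -/
noncomputable def dc (G : SimpleGraph V) (v x : V) : ℕ := ((N G x).erase v).card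

lemma dc_adj (G : SimpleGraph V) {v x : V} (h : G.Adj x v) : dc G v x + 1 = dg G x := by
  unfold dc dg
  rw [card_erase_of_mem (mem_N.mpr h)]
  have : 0 < (N G x).card := card_pos.mpr ⟨v, mem_N.mpr h⟩
  omega

lemma dc_nadj (G : SimpleGraph V) {v x : V} (h : ¬ G.Adj x v) : dc G v x = dg G x := by
  unfold dc dg
  rw [erase_eq_of_notMem (fun h' => h (mem_N.mp h'))]

lemma dc_hyp (hH : Hypo G H π) (v x : V) (hx : x ≠ v) : dc H v (π v x) = dc G v x := by
  unfold dc
  symm
  refine card_bij (fun y _ => π v y) ?_ ?_ ?_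
  · intro y hy
    rw [mem_erase, mem_N] at hy ⊢
    refine ⟨fun h => hy.1 ((π v).injective (by rw [h, hH.fix])), ?_⟩
    exact (hH.adj v x y hx hy.1).mpr hy.2
  · intro a _ b _ h
    exact (π v).injective h
  · intro y hy
    rw [mem_erase, mem_N] at hy
    have h1 : (π v).symm y ≠ v := fun e => hy.1 (by
      rw [Equiv.symm_apply_eq, hH.fix] at e; exact e)
    refine ⟨(π v).symm y, ?_, by simp⟩
    rw [mem_erase, mem_N]
    refine ⟨h1, ?_⟩
    rw [← hH.adj v x _ hx h1]
    simpa using hy.2

/-- the numbers of vertices of given degree in the card -/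
lemma count_dc (G : SimpleGraph V) (v : V) (k : ℕ) :
    ((univ.erase v).filter (fun x => dc G v x = k)).card + nk G v k =
      ((univ.erase v).filter (fun x => dg G x = k)).card + nk G v (k + 1) := by
  have e1 : ((univ.erase v).filter (fun x => dc G v x = k)) =
      ((univ.erase v).filter (fun x => ¬ G.Adj v x ∧ dg G x = k)) ∪
        ((N G v).filter (fun y => dg G y = k + 1)) := by
    ext x
    simp only [mem_union, mem_filter, mem_erase, mem_univ, and_true, mem_N]
    by_cases h : G.Adj v x
    · have := dc_adj G h.symm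
      constructor
      · rintro ⟨h1, h2⟩
        right; exact ⟨h, by omega⟩
      · rintro (⟨_, h1, _⟩ | ⟨_, h1⟩)
        · exact absurd h h1
        · exact ⟨h.ne', by omega⟩
    · have := dc_nadj G (v := v) (x := x) (fun h' => h h'.symm)
      constructor
      · rintro ⟨h1, h2⟩
        left; exact ⟨h1, h, by omega⟩
      · rintro (⟨h0, h1, h2⟩ | ⟨h1, _⟩)
        · exact ⟨h0, by omega⟩
        · exact absurd h1 h
  have e2 : ((univ.erase v).filter (fun x => dg G x = k)) =
      ((univ.erase v).filter (fun x => ¬ G.Adj v x ∧ dg G x = k)) ∪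
        ((N G v).filter (fun y => dg G y = k)) := by
    ext x
    simp only [mem_union, mem_filter, mem_erase, mem_univ, and_true, mem_N]
    by_cases h : G.Adj v x
    · have := h.ne'
      tauto
    · tauto
  rw [e1, e2, card_union_of_disjoint, card_union_of_disjoint]
  · unfold nk; omega
  · rw [disjoint_left]
    intro x h1 h2
    exact (mem_filter.mp h1).2.1 (mem_N.mp (mem_filter.mp h2).1)
  · rw [disjoint_left]
    intro x h1 h2
    exact (mem_filter.mp h1).2.1 (mem_N.mp (mem_filter.mp h2).1)

lemma nk_hyp (hV : 3 ≤ Fintype.card V) (hH : Hypo G H π) (v : V) (k : ℕ) :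
    nk H v k = nk G v k := by
  have hdc : ∀ k, ((univ.erase v).filter (fun x => dc G v x = k)).card =
      ((univ.erase v).filter (fun x => dc H v x = k)).card := by
    intro k
    refine card_bij (fun y _ => π v y) ?_ ?_ ?_
    · intro y hy
      simp only [mem_filter, mem_erase, mem_univ, and_true] at hy ⊢
      refine ⟨fun h => hy.1 ((π v).injective (by rw [h, hH.fix])), ?_⟩
      rw [dc_hyp hH v y hy.1, hy.2]
    · intro a _ b _ h
      exact (π v).injective h
    · intro y hy
      simp only [mem_filter, mem_erase, mem_univ, and_true] at hy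
      have h1 : (π v).symm y ≠ v := fun e => hy.1 (by
        rw [Equiv.symm_apply_eq, hH.fix] at e; exact e)
      refine ⟨(π v).symm y, ?_, by simp⟩
      simp only [mem_filter, mem_erase, mem_univ, and_true]
      refine ⟨h1, ?_⟩
      rw [← dc_hyp hH v _ h1]
      simpa using hy.2
  have hdg : ∀ k, ((univ.erase v).filter (fun x => dg G x = k)).card =
      ((univ.erase v).filter (fun x => dg H x = k)).card := by
    intro k
    congr 1
    refine filter_congr fun x _ => ?_
    rw [dg_hyp hV hH]
  induction k with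
  | zero =>
    have z : ∀ K : SimpleGraph V, nk K v 0 = 0 := by
      intro K
      unfold nk
      rw [card_eq_zero, filter_eq_empty_iff]
      intro y hy h
      have : v ∈ N K y := mem_N.mpr (mem_N.mp hy).symm
      unfold dg at h
      rw [card_eq_zero] at h
      rw [h] at this
      simp at this
    rw [z, z]
  | succ k ih =>
    have h1 := count_dc G v k
    have h2 := count_dc H v k
    rw [hdc, hdg] at h1
    omega

/-- the degrees of the neighbours are the same -/
lemma D_hyp (hV : 3 ≤ Fintype.card V) (hH : Hypo G H π) (v : V) : D H v = D G v := by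
  refine Multiset.ext.mpr fun k => ?_
  rw [count_D, count_D, nk_hyp hV hH]

end Pool.Agent.H178.GR
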