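import Pool.Agent.H178.GirthA

set_option autoImplicit false
set_option linter.unusedSectionVars false

/-!
# Hypomorphic graphs without triangles and 4-cycles: the local structure
-/

namespace Pool.Agent.H178.GR

open Finset Classical
open Pool.Agent.H234RC (Hypo NonIso Reconstructible)

variable {V : Type} [Fintype V] {G H : SimpleGraph V} {π : V → Equiv.Perm V}

/-- the data which are used -/
structure Pair0 (G H : SimpleGraph V) (π : V → Equiv.Perm V) : Prop where
  hV : 3 ≤ Fintype.card V
  hH : Hypo G H π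
  hN : NonIso G H
  tG : NoTri G
  qG : NoQuad G
  tH : NoTri H
  qH : NoQuad H

/-- the data which are used, with the condition on the degrees of the neighbours -/
structure Pair (G H : SimpleGraph V) (π : V → Equiv.Perm V) : Prop extends Pair0 G H π where
  sG : NoStep G

lemma exists_out {s : Finset V} (h : s.card < Fintype.card V) : ∃ v, v ∉ s := by
  by_contra hcon
  push Not at hcon
  rw [(eq_univ_iff_forall.mpr hcon), card_univ] at h
  exact lt_irrefl _ h

/-- a connected card for an edge -/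
lemma adj_back (hH : Hypo G H π) {v x y : V} (hx : x ≠ v) (hy : y ≠ v) (h : H.Adj x y) :
    G.Adj ((π v).symm x) ((π v).symm y) := ((hypo_symm hH).adj v x y hx hy).mpr h

lemma tri_hyp (hV : 3 ≤ Fintype.card V) (hH : Hypo G H π) (hN : NonIso G H) (tG : NoTri G) :
    NoTri H := by
  intro a b c hab hbc hac
  by_cases hV4 : 4 ≤ Fintype.card V
  · obtain ⟨v, hv⟩ : ∃ v, v ∉ ({a, b, c} : Finset V) := exists_out (by
      have : ({a, b, c} : Finset V).card ≤ 3 := card_le_three
      omega)
    simp only [mem_insert, mem_singleton, not_or] at hv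
    exact tG _ _ _ (adj_back hH (Ne.symm hv.1) (Ne.symm hv.2.1) hab)
      (adj_back hH (Ne.symm hv.2.1) (Ne.symm hv.2.2) hbc)
      (adj_back hH (Ne.symm hv.1) (Ne.symm hv.2.2) hac)
  · have h3 : Fintype.card V = 3 := by omega
    have hc : ({a, b, c} : Finset V).card = 3 := card_eq_three.mpr ⟨a, b, c, hab.ne, hac.ne, hbc.ne, rfl⟩
    have hu : ({a, b, c} : Finset V) = univ := by
      rw [← card_eq_iff_eq_univ, hc, h3]
    refine nonreg hV (hypo_symm hH) (noniso_symm hN) ?_
    have hd : ∀ v, dg H v = 2 := by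
      intro v
      have hv : v ∈ ({a, b, c} : Finset V) := by rw [hu]; exact mem_univ v
      have hall : ∀ w, w ≠ v → H.Adj v w := by
        intro w hw
        have hw' : w ∈ ({a, b, c} : Finset V) := by rw [hu]; exact mem_univ w
        simp only [mem_insert, mem_singleton] at hv hw'
        rcases hv with rfl | rfl | rfl <;> rcases hw' with rfl | rfl | rfl <;>
          first
            | exact absurd rfl hw
            | assumption
            | exact hab.symm
            | exact hbc.symm
            | exact hac.symm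
      have : N H v = univ.erase v := by
        ext w
        rw [mem_N, mem_erase]
        exact ⟨fun h => ⟨h.ne', mem_univ _⟩, fun h => hall w h.1⟩
      unfold dg
      rw [this, card_erase_of_mem (mem_univ v), card_univ, h3]
    intro v w
    rw [hd, hd]

lemma quad_hyp (hV : 3 ≤ Fintype.card V) (hH : Hypo G H π) (hN : NonIso G H) (tG : NoTri G)
    (qG : NoQuad G) : NoQuad H := by
  have tH := tri_hyp hV hH hN tG
  intro a b c d hac hab hbc had hdc
  by_contra hbd
  by_cases hV5 : 5 ≤ Fintype.card V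
  · obtain ⟨v, hv⟩ : ∃ v, v ∉ ({a, b, c, d} : Finset V) := exists_out (by
      have : ({a, b, c, d} : Finset V).card ≤ 4 := card_le_four
      omega)
    simp only [mem_insert, mem_singleton, not_or] at hv
    refine hbd ((π v).symm.injective (qG ((π v).symm a) _ ((π v).symm c) _
      (fun h => hac ((π v).symm.injective h)) ?_ ?_ ?_ ?_))
    · exact adj_back hH (Ne.symm hv.1) (Ne.symm hv.2.1) hab
    · exact adj_back hH (Ne.symm hv.2.1) (Ne.symm hv.2.2.1) hbc
    · exact adj_back hH (Ne.symm hv.1) (Ne.symm hv.2.2.2) had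
    · exact adj_back hH (Ne.symm hv.2.2.2) (Ne.symm hv.2.2.1) hdc
  · have hc : ({a, b, c, d} : Finset V).card = 4 := by
      rw [card_insert_of_notMem, card_insert_of_notMem, card_insert_of_notMem, card_singleton]
      · simpa using hdc.ne'
      · simp only [mem_insert, mem_singleton, not_or]
        exact ⟨hbc.ne, hbd⟩
      · simp only [mem_insert, mem_singleton, not_or]
        exact ⟨hab.ne, hac, had.ne⟩
    have h4 : Fintype.card V = 4 := by
      have : ({a, b, c, d} : Finset V).card ≤ Fintype.card V := card_le_univ _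
      omega
    have hu : ({a, b, c, d} : Finset V) = univ := by
      rw [← card_eq_iff_eq_univ, hc, h4]
    have nac : ¬ H.Adj a c := tH a b c hab hbc
    have nbd : ¬ H.Adj b d := tH b a d hab.symm had
    refine nonreg hV (hypo_symm hH) (noniso_symm hN) ?_
    have key : ∀ v p q r : V, ({v, p, q, r} : Finset V) = univ → p ≠ q → H.Adj v p → H.Adj v q →
        ¬ H.Adj v r → dg H v = 2 := by
      intro v p q r hu hpq hp hq hr
      have : N H v = {p, q} := by
        ext w
        have hw' : w ∈ ({v, p, q, r} : Finset V) := by rw [hu]; exact mem_univ w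
        simp only [mem_insert, mem_singleton] at hw'
        rw [mem_N, mem_insert, mem_singleton]
        constructor
        · intro h
          rcases hw' with rfl | rfl | rfl | rfl
          · exact absurd rfl h.ne
          · exact Or.inl rfl
          · exact Or.inr rfl
          · exact absurd h hr
        · rintro (rfl | rfl)
          · exact hp
          · exact hq
      unfold dg
      rw [this, card_pair hpq]
    have da : dg H a = 2 := key a b d c (by rw [← hu]; ext x; simp; tauto) hbd hab had nac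
    have db : dg H b = 2 := key b a c d (by rw [← hu]; ext x; simp; tauto) hac hab.symm hbc nbd
    have dc' : dg H c = 2 := key c b d a (by rw [← hu]; ext x; simp; tauto) hbd hbc.symm hdc.symm
      (fun h => nac h.symm)
    have dd : dg H d = 2 := key d a c b (by rw [← hu]; ext x; simp; tauto) hac had.symm hdc
      (fun h => nbd h.symm)
    have hall : ∀ v, dg H v = 2 := by
      intro v
      have hv : v ∈ ({a, b, c, d} : Finset V) := by rw [hu]; exact mem_univ v
      simp only [mem_insert, mem_singleton] at hv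
      rcases hv with rfl | rfl | rfl | rfl <;> assumption
    intro v w
    rw [hall, hall]

lemma mk_pair0 (hV : 3 ≤ Fintype.card V) (hH : Hypo G H π) (hN : NonIso G H) (tG : NoTri G)
    (qG : NoQuad G) : Pair0 G H π :=
  ⟨hV, hH, hN, tG, qG, tri_hyp hV hH hN tG, quad_hyp hV hH hN tG qG⟩

lemma mk_pair (hV : 3 ≤ Fintype.card V) (hH : Hypo G H π) (hN : NonIso G H) (tG : NoTri G)
    (qG : NoQuad G) (sG : NoStep G) : Pair G H π :=
  ⟨mk_pair0 hV hH hN tG qG, sG⟩

lemma Pair.symm (P : Pair G H π) : Pair H G (fun v => (π v).symm) where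
  hV := P.hV
  hH := hypo_symm P.hH
  hN := noniso_symm P.hN
  tG := P.tH
  qG := P.qH
  sG := by
    intro x y j R
    rw [D_hyp P.hV P.hH, D_hyp P.hV P.hH]
    exact P.sG x y j R
  tH := P.tG
  qH := P.qG

/-- the graph `H` with the labels of the card at `v` -/
def K (H : SimpleGraph V) (π : V → Equiv.Perm V) (v : V) : SimpleGraph V := rel H (π v)

/-- the neighbours of `v` which are lost -/
noncomputable def S (G H : SimpleGraph V) (π : V → Equiv.Perm V) (v : V) : Finset V :=
  N G v \ N (K H π v) v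

/-- the neighbours of `v` which are new -/
noncomputable def T (G H : SimpleGraph V) (π : V → Equiv.Perm V) (v : V) : Finset V :=
  N (K H π v) v \ N G v

lemma mem_S {v x : V} : x ∈ S G H π v ↔ G.Adj v x ∧ ¬ (K H π v).Adj v x := by
  unfold S; rw [mem_sdiff, mem_N, mem_N]

lemma mem_T {v x : V} : x ∈ T G H π v ↔ (K H π v).Adj v x ∧ ¬ G.Adj v x := by
  unfold T; rw [mem_sdiff, mem_N, mem_N]

namespace Pair0

variable (P : Pair0 G H π)

include P

lemma Kadj {v x y : V} (hx : x ≠ v) (hy : y ≠ v) : (K H π v).Adj x y ↔ G.Adj x y :=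
  P.hH.adj v x y hx hy

lemma Ktri (v : V) : NoTri (K H π v) := fun _ _ _ h1 h2 h3 => P.tH _ _ _ h1 h2 h3

lemma Kquad (v : V) : NoQuad (K H π v) := fun _ _ _ _ h h1 h2 h3 h4 =>
  (π v).injective (P.qH _ _ _ _ (fun e => h ((π v).injective e)) h1 h2 h3 h4)

lemma Kdg (v x : V) : dg (K H π v) x = dg G (π v x) := by
  unfold K
  rw [dg_rel, dg_hyp P.hV P.hH]

lemma KD (v x : V) : D (K H π v) x = D G (π v x) := by
  unfold K
  rw [D_rel, D_hyp P.hV P.hH]

lemma Kdgv (v : V) : dg (K H π v) v = dg G v := by rw [P.Kdg, P.hH.fix]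

lemma S_ne {v x : V} (h : x ∈ S G H π v) : x ≠ v := by
  rintro rfl
  exact (mem_S.mp h).1.ne rfl

lemma T_ne {v x : V} (h : x ∈ T G H π v) : x ≠ v := by
  rintro rfl
  exact (mem_T.mp h).1.ne rfl

lemma card_ST (v : V) : (S G H π v).card = (T G H π v).card := by
  have h1 := card_sdiff_add_card_inter (N G v) (N (K H π v) v)
  have h2 := card_sdiff_add_card_inter (N (K H π v) v) (N G v)
  have h3 := P.Kdgv v
  unfold dg at h3
  rw [inter_comm] at h2
  unfold S T
  omega

lemma T_nonempty (v : V) : (T G H π v).Nonempty := by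
  by_contra h
  have hT : T G H π v = ∅ := not_nonempty_iff_eq_empty.mp h
  have hS : S G H π v = ∅ := by
    rw [← card_eq_zero, P.card_ST, hT, card_empty]
  refine rel_ne P.hN (π v) ?_
  have hv : ∀ y, (K H π v).Adj v y ↔ G.Adj v y := by
    intro y
    constructor
    · intro h1
      by_contra h2
      have : y ∈ T G H π v := mem_T.mpr ⟨h1, h2⟩
      rw [hT] at this; simp at this
    · intro h1
      by_contra h2
      have : y ∈ S G H π v := mem_S.mpr ⟨h1, h2⟩
      rw [hS] at this; simp at this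
  ext x y
  by_cases hx : x = v
  · subst hx; exact hv y
  · by_cases hy : y = v
    · subst hy
      rw [SimpleGraph.adj_comm, G.adj_comm]
      exact hv x
    · exact P.Kadj hx hy

/-- the neighbours in `K` of a vertex which is neither lost nor new -/
lemma N_eq {v x : V} (hx : x ≠ v) (h1 : x ∉ S G H π v) (h2 : x ∉ T G H π v) :
    N (K H π v) x = N G x := by
  ext y
  rw [mem_N, mem_N]
  by_cases hy : y = v
  · subst hy
    rw [SimpleGraph.adj_comm, G.adj_comm]
    by_contra hcon
    by_cases h : G.Adj y x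
    · exact h1 (mem_S.mpr ⟨h, fun h' => hcon ⟨fun _ => h, fun _ => h'⟩⟩)
    · exact h2 (mem_T.mpr ⟨by
        by_contra h'
        exact hcon ⟨fun h'' => absurd h'' h', fun h'' => absurd h'' h⟩, h⟩)
  · exact P.Kadj hx hy

lemma N_S {v x : V} (h : x ∈ S G H π v) : N (K H π v) x = (N G x).erase v := by
  ext y
  rw [mem_N, mem_erase, mem_N]
  by_cases hy : y = v
  · subst hy
    exact ⟨fun h' => absurd h'.symm (mem_S.mp h).2, fun h' => absurd rfl h'.1⟩
  · rw [P.Kadj (P.S_ne h) hy]
    exact ⟨fun h' => ⟨hy, h'⟩, fun h' => h'.2⟩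

lemma N_T {v x : V} (h : x ∈ T G H π v) : N (K H π v) x = insert v (N G x) := by
  ext y
  rw [mem_N, mem_insert, mem_N]
  by_cases hy : y = v
  · subst hy
    exact ⟨fun _ => Or.inl rfl, fun _ => (mem_T.mp h).1.symm⟩
  · rw [P.Kadj (P.T_ne h) hy]
    exact ⟨fun h' => Or.inr h', fun h' => h'.resolve_left hy⟩

lemma dg_eq' {v x : V} (h1 : x ∉ S G H π v) (h2 : x ∉ T G H π v) :
    dg (K H π v) x = dg G x := by
  by_cases hx : x = v
  · subst hx; exact P.Kdgv x
  · unfold dg; rw [P.N_eq hx h1 h2]

lemma dg_S {v x : V} (h : x ∈ S G H π v) : dg (K H π v) x + 1 = dg G x := by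
  unfold dg
  rw [P.N_S h, card_erase_of_mem (mem_N.mpr (mem_S.mp h).1.symm)]
  have : 0 < (N G x).card := card_pos.mpr ⟨v, mem_N.mpr (mem_S.mp h).1.symm⟩
  omega

lemma dg_T {v x : V} (h : x ∈ T G H π v) : dg (K H π v) x = dg G x + 1 := by
  unfold dg
  rw [P.N_T h, card_insert_of_notMem (fun h' => (mem_T.mp h).2 (mem_N.mp h').symm)]

/-- a vertex which is neither lost nor new and sees `S` also sees `T` -/
lemma see0 {v u s : V} (hu : u ≠ v) (h1 : u ∉ S G H π v) (h2 : u ∉ T G H π v)
    (hs : s ∈ S G H π v) (hus : G.Adj u s)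
    (hno : ∀ (y : V) (R : Multiset ℕ), D G u = dg G s ::ₘ R → D G y ≠ (dg G s - 1) ::ₘ R) :
    ∃ t ∈ T G H π v, G.Adj u t := by
  have hN := P.N_eq hu h1 h2
  by_contra hcon
  push Not at hcon
  have hs' : s ∈ N G u := mem_N.mpr hus
  have e1 : D G u = dg G s ::ₘ ((N G u).erase s).val.map (dg G) := by
    unfold D
    conv_lhs => rw [← insert_erase hs', insert_val_of_notMem (notMem_erase _ _),
      Multiset.map_cons]
  have e2 : D (K H π v) u = dg (K H π v) s ::ₘ ((N G u).erase s).val.map (dg G) := by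
    unfold D
    rw [hN]
    conv_lhs => rw [← insert_erase hs', insert_val_of_notMem (notMem_erase _ _),
      Multiset.map_cons]
    congr 1
    refine Multiset.map_congr rfl fun y hy => ?_
    rw [← mem_def, mem_erase, mem_N] at hy
    refine P.dg_eq' (fun h => ?_) (fun h => hcon y h hy.2)
    exact hy.1 (P.qG u y v s hu hy.2 (mem_S.mp h).1.symm hus (mem_S.mp hs).1.symm)
  rw [P.KD] at e2
  have e3 := P.dg_S hs
  have e4 : dg (K H π v) s = dg G s - 1 := by omega
  rw [e4] at e2
  exact hno _ _ e1 e2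

/-- the degrees of the lost neighbours -/
lemma le_S0 {v x : V} (hx : x ∈ S G H π v)
    (hs : ∀ u, u ≠ v → G.Adj x u → u ∉ S G H π v → u ∉ T G H π v → ∃ t ∈ T G H π v, G.Adj u t) :
    dg G x ≤ (T G H π v).card + 1 := by
  have hvx := (mem_S.mp hx).1
  have h1 : ((N G x).erase v).card ≤ (T G H π v).card := by
    have hf : ∀ u ∈ (N G x).erase v, ∃ y ∈ T G H π v, u = y ∨ G.Adj u y := by
      intro u hu
      rw [mem_erase, mem_N] at hu
      by_cases hT : u ∈ T G H π v
      · exact ⟨u, hT, Or.inl rfl⟩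
      · have hS : u ∉ S G H π v := fun h => P.tG v x u hvx hu.2 (mem_S.mp h).1
        obtain ⟨t, ht, hut⟩ := hs u hu.1 hu.2 hS hT
        exact ⟨t, ht, Or.inr hut⟩
    choose! f hf1 hf2 using hf
    refine card_le_card_of_injOn f (fun u hu => hf1 u hu) ?_
    intro u1 hu1 u2 hu2 he
    have g1 := hf2 u1 hu1
    have g2 := hf2 u2 hu2
    have gT := hf1 u1 hu1
    rw [mem_coe, mem_erase, mem_N] at hu1 hu2
    rw [← he] at g2
    have hxy : x ≠ f u1 := by
      intro e
      rw [← e] at gT
      exact (mem_T.mp gT).2 hvx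
    rcases g1 with g1 | g1 <;> rcases g2 with g2 | g2
    · rw [g1, g2]
    · rw [← g1] at g2
      exact absurd hu1.2 (P.tG x u2 u1 hu2.2 g2)
    · rw [← g2] at g1
      exact absurd hu2.2 (P.tG x u1 u2 hu1.2 g1)
    · exact P.qG x u1 (f u1) u2 hxy hu1.2 g1 hu2.2 g2
  rw [card_erase_of_mem (mem_N.mpr hvx.symm)] at h1
  unfold dg
  omega

/-- the sum of the degrees of the new neighbours -/
lemma sum_T (v : V) : ∑ x ∈ S G H π v, dg (K H π v) x = ∑ y ∈ T G H π v, dg G y := by
  have h0 : ∑ x, (dg (K H π v) x : ℤ) ^ 2 = ∑ x, (dg G x : ℤ) ^ 2 := by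
    rw [← Equiv.sum_comp (π v) (fun x => (dg G x : ℤ) ^ 2)]
    exact Finset.sum_congr rfl fun x _ => by rw [P.Kdg]
  have hdis : Disjoint (S G H π v) (T G H π v) := by
    rw [disjoint_left]
    intro x h1 h2
    exact (mem_T.mp h2).2 (mem_S.mp h1).1
  have h1 : ∑ x, ((dg (K H π v) x : ℤ) ^ 2 - (dg G x : ℤ) ^ 2) =
      ∑ x ∈ S G H π v ∪ T G H π v, ((dg (K H π v) x : ℤ) ^ 2 - (dg G x : ℤ) ^ 2) := by
    symm
    refine Finset.sum_subset (subset_univ _) fun x _ hx => ?_
    rw [mem_union, not_or] at hx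
    rw [P.dg_eq' hx.1 hx.2, sub_self]
  rw [Finset.sum_sub_distrib, h0, sub_self, sum_union hdis] at h1
  have h2 : ∑ x ∈ S G H π v, ((dg (K H π v) x : ℤ) ^ 2 - (dg G x : ℤ) ^ 2) =
      - (2 * ∑ x ∈ S G H π v, (dg (K H π v) x : ℤ) + ((S G H π v).card : ℤ)) := by
    have : ((S G H π v).card : ℤ) = ∑ x ∈ S G H π v, (1 : ℤ) := by simp
    rw [this, mul_sum, ← sum_add_distrib, ← sum_neg_distrib]
    refine Finset.sum_congr rfl fun x hx => ?_
    rw [← P.dg_S hx]
    push_cast
    ring
  have h3 : ∑ x ∈ T G H π v, ((dg (K H π v) x : ℤ) ^ 2 - (dg G x : ℤ) ^ 2) =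
      2 * ∑ x ∈ T G H π v, (dg G x : ℤ) + ((T G H π v).card : ℤ) := by
    have : ((T G H π v).card : ℤ) = ∑ x ∈ T G H π v, (1 : ℤ) := by simp
    rw [this, mul_sum, ← sum_add_distrib]
    refine Finset.sum_congr rfl fun x hx => ?_
    rw [P.dg_T hx]
    push_cast
    ring
  have h4 := P.card_ST v
  rw [h2, h3, h4] at h1
  have h5 : (∑ x ∈ S G H π v, (dg (K H π v) x : ℤ)) = ∑ y ∈ T G H π v, (dg G y : ℤ) := by
    linarith
  exact_mod_cast h5

end Pair0

namespace Pair

variable (P : Pair G H π)

include P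

/-- a vertex which is neither lost nor new sees `S` iff it sees `T` -/
lemma see {v u : V} (hu : u ≠ v) (h1 : u ∉ S G H π v) (h2 : u ∉ T G H π v) :
    (∃ s ∈ S G H π v, G.Adj u s) ↔ (∃ t ∈ T G H π v, G.Adj u t) := by
  have hN := P.N_eq hu h1 h2
  constructor
  · rintro ⟨s, hs, hus⟩
    refine P.see0 hu h1 h2 hs hus ?_
    intro y R hR hy
    have h3 : dg G s = dg G s - 1 + 1 := by
      have := P.dg_S hs
      omega
    rw [h3] at hR
    exact P.sG _ _ _ _ hy hR
  · rintro ⟨t, ht, hut⟩
    by_contra hcon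
    push Not at hcon
    have ht' : t ∈ N G u := mem_N.mpr hut
    have e1 : D G u = dg G t ::ₘ ((N G u).erase t).val.map (dg G) := by
      unfold D
      conv_lhs => rw [← insert_erase ht', insert_val_of_notMem (notMem_erase _ _),
        Multiset.map_cons]
    have e2 : D (K H π v) u = dg (K H π v) t ::ₘ ((N G u).erase t).val.map (dg G) := by
      unfold D
      rw [hN]
      conv_lhs => rw [← insert_erase ht', insert_val_of_notMem (notMem_erase _ _),
        Multiset.map_cons]
      congr 1
      refine Multiset.map_congr rfl fun y hy => ?_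
      rw [← mem_def, mem_erase, mem_N] at hy
      refine P.dg_eq' (fun h => hcon y h hy.2) (fun h => ?_)
      refine hy.1 (P.Kquad v u y v t hu ?_ (mem_T.mp h).1.symm ?_ (mem_T.mp ht).1.symm)
      · exact (P.Kadj hu (P.T_ne h)).mpr hy.2
      · exact (P.Kadj hu (P.T_ne ht)).mpr hut
    rw [P.KD] at e2
    rw [P.dg_T ht] at e2
    exact P.sG _ _ _ _ e1 e2

/-- the degrees of the lost neighbours -/
lemma le_S {v x : V} (hx : x ∈ S G H π v) : dg G x ≤ (T G H π v).card + 1 :=
  P.le_S0 hx fun u hu hxu hS hT => (P.see hu hS hT).mp ⟨x, hx, hxu.symm⟩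

/-- the degrees of the new neighbours -/
lemma le_T {v y : V} (hy : y ∈ T G H π v) : dg G y ≤ (T G H π v).card := by
  have hvy := mem_T.mp hy
  rw [← P.card_ST]
  have hf : ∀ u ∈ N G y, ∃ s ∈ S G H π v, u = s ∨ G.Adj u s := by
    intro u hu
    rw [mem_N] at hu
    by_cases hS : u ∈ S G H π v
    · exact ⟨u, hS, Or.inl rfl⟩
    · have hu' : u ≠ v := by
        rintro rfl
        exact hvy.2 hu.symm
      have hT : u ∉ T G H π v := fun h => P.Ktri v v y u hvy.1
        ((P.Kadj (P.T_ne hy) hu').mpr hu) (mem_T.mp h).1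
      obtain ⟨s, hs, hus⟩ := (P.see hu' hS hT).mpr ⟨y, hy, hu.symm⟩
      exact ⟨s, hs, Or.inr hus⟩
  choose! f hf1 hf2 using hf
  refine card_le_card_of_injOn f (fun u hu => hf1 u hu) ?_
  intro u1 hu1 u2 hu2 he
  have g1 := hf2 u1 hu1
  have g2 := hf2 u2 hu2
  have gS := hf1 u1 hu1
  rw [mem_coe, mem_N] at hu1 hu2
  rw [← he] at g2
  have hxy : y ≠ f u1 := by
    intro e
    rw [← e] at gS
    exact (mem_T.mp hy).2 (mem_S.mp gS).1
  rcases g1 with g1 | g1 <;> rcases g2 with g2 | g2
  · rw [g1, g2]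
  · rw [← g1] at g2
    exact absurd hu1 (P.tG y u2 u1 hu2 g2)
  · rw [← g2] at g1
    exact absurd hu2 (P.tG y u1 u2 hu1 g1)
  · exact P.qG y u1 (f u1) u2 hxy hu1 g1 hu2 g2

end Pair

/-- the local criterion -/
theorem Pair0.local_false (P : Pair0 G H π) {v : V} (hv : ∀ x, dg G v ≤ dg G x)
    (hno : ∀ x u, G.Adj v x → dg G v < dg G x → G.Adj x u → u ≠ v → ∀ (y : V) (R : Multiset ℕ),
      D G u = dg G x ::ₘ R → D G y ≠ (dg G x - 1) ::ₘ R)
    (h : (∃ x, G.Adj v x ∧ dg G x ≠ dg G v + 1) ∨
      (univ.filter (fun x => dg G x = dg G v)).card ≤ dg G v) : False := by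
  have hmin : ∀ x, dg G v ≤ dg (K H π v) x := fun x => by rw [P.Kdg]; exact hv _
  have hS : ∀ x ∈ S G H π v, dg G v < dg G x := by
    intro x hx
    have h1 := P.dg_S hx
    have h2 := hmin x
    omega
  have hle : ∀ x ∈ S G H π v, dg G x ≤ (T G H π v).card + 1 := by
    intro x hx
    refine P.le_S0 hx fun u hu hxu hS' hT => ?_
    exact P.see0 hu hS' hT hx hxu.symm (hno x u (mem_S.mp hx).1 (hS x hx) hxu hu)
  have hST := P.card_ST v
  have hTn := P.T_nonempty v
  have hSsub : S G H π v ⊆ N G v := sdiff_subset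
  have hSc := card_le_card hSsub
  obtain ⟨x, hx⟩ : (S G H π v).Nonempty := by
    rw [← card_pos, hST]; exact card_pos.mpr hTn
  have h1 := hle x hx
  have h2 := hS x hx
  have hdv : dg G v = (N G v).card := rfl
  have hTc : (T G H π v).card = dg G v := by omega
  have hSN : S G H π v = N G v := eq_of_subset_of_card_le hSsub (by omega)
  have hSd : ∀ x ∈ S G H π v, dg G x = dg G v + 1 := by
    intro x hx
    have h1 := hle x hx
    have h2 := hS x hx
    omega
  rcases h with ⟨x, hx, hne⟩ | h
  · exact hne (hSd x (by rw [hSN]; exact mem_N.mpr hx))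
  · have hsum := P.sum_T v
    have h3 : ∑ x ∈ S G H π v, dg (K H π v) x = ∑ _y ∈ T G H π v, dg G v := by
      rw [sum_const, ← hST, ← sum_const]
      refine Finset.sum_congr rfl fun x hx => ?_
      have h4 := hSd x hx
      have h5 := P.dg_S hx
      omega
    rw [h3] at hsum
    have h4 := (sum_eq_sum_iff_of_le (fun y _ => hv y)).mp hsum
    have h5 : insert v (T G H π v) ⊆ univ.filter (fun x => dg G x = dg G v) := by
      intro y hy
      rw [mem_filter]
      refine ⟨mem_univ _, ?_⟩
      rw [mem_insert] at hy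
      rcases hy with rfl | hy
      · rfl
      · exact (h4 y hy).symm
    have h6 := card_le_card h5
    rw [card_insert_of_notMem (fun h => P.T_ne h rfl), hTc] at h6
    omega

end Pool.Agent.H178.GR
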