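import Pool.Agent.H178.GirthB

set_option autoImplicit false
set_option linter.unusedSectionVars false

/-!
# Hypomorphic graphs without triangles and 4-cycles: the vertices of minimum degree
-/

namespace Pool.Agent.H178.GR

open Finset Classical
open Pool.Agent.H234RC (Hypo NonIso Reconstructible)

variable {V : Type} [Fintype V] {G H : SimpleGraph V} {π : V → Equiv.Perm V}

namespace Pair

variable (P : Pair G H π) {δ : ℕ} (hδ : ∀ x, δ ≤ dg G x)

include P hδ

lemma minK (v x : V) : δ ≤ dg (K H π v) x := by rw [P.Kdg]; exact hδ _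

/-- at a vertex of minimum degree -/
lemma A0 {v : V} (hv : dg G v = δ) : (T G H π v).card = δ ∧ S G H π v = N G v := by
  obtain ⟨y, hy⟩ := P.T_nonempty v
  have h1 := P.le_T hy
  have h2 := hδ y
  have h3 : (S G H π v).card ≤ (N G v).card := card_le_card sdiff_subset
  have h4 := P.card_ST v
  unfold dg at hv
  refine ⟨by omega, eq_of_subset_of_card_le sdiff_subset (by omega)⟩

lemma A1 {v x : V} (hv : dg G v = δ) (hx : G.Adj v x) : dg G x = δ + 1 := by
  obtain ⟨h1, h2⟩ := P.A0 hδ hv
  have hx' : x ∈ S G H π v := by rw [h2]; exact mem_N.mpr hx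
  have h3 := P.le_S hx'
  have h4 := P.dg_S hx'
  have h5 := P.minK hδ v x
  omega

lemma A2 {v y : V} (hv : dg G v = δ) (hy : y ∈ T G H π v) : dg G y = δ := by
  obtain ⟨h1, h2⟩ := P.A0 hδ hv
  have h3 := P.le_T hy
  have h4 := hδ y
  omega

/-- at a neighbour of a vertex of minimum degree -/
lemma B0 {v w : V} (hv : dg G v = δ) (hw : G.Adj v w) :
    (T G H π w).card = δ ∧ S G H π w = (N G w).erase v := by
  have hvS : v ∉ S G H π w := by
    intro h
    have h1 := P.dg_S h
    have h2 := P.minK hδ w v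
    omega
  have hsub : S G H π w ⊆ (N G w).erase v := by
    intro x hx
    exact mem_erase.mpr ⟨fun e => hvS (e ▸ hx), mem_N.mpr (mem_S.mp hx).1⟩
  have hc : ((N G w).erase v).card = δ := by
    rw [card_erase_of_mem (mem_N.mpr hw.symm)]
    have := P.A1 hδ hv hw
    unfold dg at this
    omega
  obtain ⟨y, hy⟩ := P.T_nonempty w
  have h1 := P.le_T hy
  have h2 := hδ y
  have h3 := card_le_card hsub
  have h4 := P.card_ST w
  exact ⟨by omega, eq_of_subset_of_card_le hsub (by omega)⟩

lemma B1 {v w x : V} (hv : dg G v = δ) (hw : G.Adj v w) (hx : G.Adj w x) (hxv : x ≠ v) :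
    dg G x = δ + 1 := by
  obtain ⟨h1, h2⟩ := P.B0 hδ hv hw
  have hx' : x ∈ S G H π w := by rw [h2]; exact mem_erase.mpr ⟨hxv, mem_N.mpr hx⟩
  have h3 := P.le_S hx'
  have h4 := P.dg_S hx'
  have h5 := P.minK hδ w x
  omega

lemma B1' {v w y : V} (hv : dg G v = δ) (hw : G.Adj v w) (hy : y ∈ T G H π w) : dg G y = δ := by
  obtain ⟨h1, h2⟩ := P.B0 hδ hv hw
  have h3 := P.le_T hy
  have h4 := hδ y
  omega

lemma DA {v : V} (hv : dg G v = δ) : D G v = Multiset.replicate δ (δ + 1) := by
  rw [Multiset.eq_replicate]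
  refine ⟨by rw [card_D, hv], fun b hb => ?_⟩
  unfold D at hb
  rw [Multiset.mem_map] at hb
  obtain ⟨x, hx, rfl⟩ := hb
  exact P.A1 hδ hv (mem_N.mp hx)

lemma DB {v w : V} (hv : dg G v = δ) (hw : G.Adj v w) :
    D G w = δ ::ₘ Multiset.replicate δ (δ + 1) := by
  have hvm : v ∈ N G w := mem_N.mpr hw.symm
  unfold D
  conv_lhs => rw [← insert_erase hvm, insert_val_of_notMem (notMem_erase _ _),
        Multiset.map_cons]
  rw [hv]
  congr 1
  rw [Multiset.eq_replicate]
  constructor
  · rw [Multiset.card_map]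
    show ((N G w).erase v).card = δ
    rw [card_erase_of_mem hvm]
    have := P.A1 hδ hv hw
    unfold dg at this
    omega
  · intro b hb
    rw [Multiset.mem_map] at hb
    obtain ⟨x, hx, rfl⟩ := hb
    rw [← mem_def, mem_erase, mem_N] at hx
    exact P.B1 hδ hv hw hx.2 hx.1

/-- uniqueness of the neighbour of minimum degree -/
lemma U {v v' w : V} (hv : dg G v = δ) (hv' : dg G v' = δ) (h : G.Adj v w) (h' : G.Adj v' w) :
    v' = v := by
  by_contra hne
  have := P.B1 hδ hv h h'.symm hne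
  omega

lemma B2 {v w x : V} (hv : dg G v = δ) (hw : G.Adj v w) (hx : G.Adj w x) (hxv : x ≠ v) :
    ∃ y ∈ T G H π w, G.Adj x y := by
  by_contra hcon
  push Not at hcon
  have hS : x ∈ S G H π w := by
    rw [(P.B0 hδ hv hw).2]; exact mem_erase.mpr ⟨hxv, mem_N.mpr hx⟩
  have hwx : w ∈ N G x := mem_N.mpr hx.symm
  have hdx := P.B1 hδ hv hw hx hxv
  have e1 : D G x = dg G w ::ₘ ((N G x).erase w).val.map (dg G) := by
    unfold D
    conv_lhs => rw [← insert_erase hwx, insert_val_of_notMem (notMem_erase _ _),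
        Multiset.map_cons]
  have e2 : D (K H π w) x = ((N G x).erase w).val.map (dg G) := by
    unfold D
    rw [P.N_S hS]
    refine Multiset.map_congr rfl fun y hy => ?_
    rw [← mem_def, mem_erase, mem_N] at hy
    refine P.dg_eq' (fun h => ?_) (fun h => hcon y h hy.2)
    exact P.tG w x y hx hy.2 (mem_S.mp h).1
  have e3 : dg G (π w x) = δ := by
    rw [← P.Kdg]
    have := P.dg_S hS
    omega
  rw [← e2, P.KD, P.DA hδ e3, P.A1 hδ hv hw] at e1
  exact P.sG _ _ _ _ (P.DB hδ hv hw) e1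

lemma B3 {v w y : V} (hv : dg G v = δ) (hw : G.Adj v w) (hy : y ∈ T G H π w) :
    ∃ x, G.Adj w x ∧ x ≠ v ∧ G.Adj x y := by
  by_contra hcon
  push Not at hcon
  have hyd := P.B1' hδ hv hw hy
  have hwy : w ∉ N G y := fun h => (mem_T.mp hy).2 (mem_N.mp h).symm
  have e2 : D (K H π w) y = dg G w ::ₘ D G y := by
    unfold D
    rw [P.N_T hy, insert_val_of_notMem hwy, Multiset.map_cons, P.Kdgv]
    congr 1
    refine Multiset.map_congr rfl fun u hu => ?_
    rw [← mem_def, mem_N] at hu
    have huw : u ≠ w := by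
      rintro rfl
      exact (mem_T.mp hy).2 hu.symm
    refine P.dg_eq' (fun h => ?_) (fun h => ?_)
    · have h' := h
      rw [(P.B0 hδ hv hw).2, mem_erase, mem_N] at h'
      exact hcon u h'.2 h'.1 hu.symm
    · exact P.Ktri w w y u (mem_T.mp hy).1 ((P.Kadj (P.T_ne hy) huw).mpr hu) (mem_T.mp h).1
  rw [P.KD, P.DA hδ hyd, P.A1 hδ hv hw] at e2
  exact P.sG _ _ _ _ (P.DB hδ hv hw) e2

lemma Dd {v w : V} (hv : dg G v = δ) (hw : G.Adj v w) : T G H π w = T G H π v := by
  refine eq_of_subset_of_card_le ?_ ?_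
  · intro y hy
    obtain ⟨x, hwx, hxv, hxy⟩ := P.B3 hδ hv hw hy
    have hdx := P.B1 hδ hv hw hwx hxv
    have hxS : x ∉ S G H π v := fun h => P.tG v w x hw hwx (mem_S.mp h).1
    have hxT : x ∉ T G H π v := fun h => by
      have := P.A2 hδ hv h
      omega
    have hwS : w ∈ S G H π v := by rw [(P.A0 hδ hv).2]; exact mem_N.mpr hw
    obtain ⟨y', hy', hxy'⟩ := (P.see hxv hxS hxT).mp ⟨w, hwS, hwx.symm⟩
    have : y = y' := P.U hδ (P.A2 hδ hv hy') (P.B1' hδ hv hw hy) hxy'.symm hxy.symm
    rw [this]; exact hy'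
  · rw [(P.A0 hδ hv).1, (P.B0 hδ hv hw).1]

lemma E {v y y' : V} (hv : dg G v = δ) (hy : y ∈ T G H π v) (hy' : y' ∈ T G H π y) :
    y' = v ∨ y' ∈ T G H π v := by
  have hyd := P.A2 hδ hv hy
  have hyd' := P.A2 hδ hyd hy'
  obtain ⟨u, hu⟩ : ∃ u, G.Adj y u := by
    have h1 : (T G H π v).card = δ := (P.A0 hδ hv).1
    have h2 : 0 < (T G H π v).card := card_pos.mpr ⟨y, hy⟩
    have h3 : 0 < (N G y).card := by unfold dg at hyd; omega
    obtain ⟨u, hu⟩ := card_pos.mp h3
    exact ⟨u, mem_N.mp hu⟩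
  have hy'' : y' ∈ T G H π u := by rw [P.Dd hδ hyd hu]; exact hy'
  obtain ⟨u', huu', hu'y, hu'y'⟩ := P.B3 hδ hyd hu hy''
  have hdu := P.A1 hδ hyd hu
  have hdu' := P.B1 hδ hyd hu huu' hu'y
  have huv : u ≠ v := by
    rintro rfl
    exact (mem_T.mp hy).2 hu.symm
  have huT : u ∉ T G H π v := fun h => by
    have := P.A2 hδ hv h
    omega
  have hvu : ¬ G.Adj v u := by
    intro h
    have := P.U hδ hv hyd h hu
    exact P.T_ne hy this
  have huS : u ∉ S G H π v := fun h => hvu (mem_S.mp h).1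
  obtain ⟨w, hwS, huw⟩ := (P.see huv huS huT).mpr ⟨y, hy, hu.symm⟩
  have hvw := (mem_S.mp hwS).1
  by_cases he : u' = w
  · subst he
    left
    exact P.U hδ hv hyd' hvw hu'y'.symm
  · right
    have hTw := P.Dd hδ hv hvw
    have hSw := (P.B0 hδ hv hvw).2
    have huSw : u ∈ S G H π w := by
      rw [hSw]; exact mem_erase.mpr ⟨huv, mem_N.mpr huw.symm⟩
    have h1 : u' ∉ S G H π w := fun h => P.tG w u u' huw.symm huu' (mem_S.mp h).1
    have h2 : u' ∉ T G H π w := fun h => by
      have := P.B1' hδ hv hvw h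
      omega
    obtain ⟨y3, hy3, h3⟩ := (P.see he h1 h2).mp ⟨u, huSw, huu'.symm⟩
    have : y3 = y' := P.U hδ hyd' (P.B1' hδ hv hvw hy3) hu'y'.symm h3.symm
    rw [← hTw, ← this]
    exact hy3

/-- the structure of the graph -/
lemma struct (hex : ∃ v, dg G v = δ) :
    (∀ v y, (K H π v).Adj v y ↔ dg G y = δ ∧ y ≠ v) ∧ (∀ x, dg G x = δ ∨ dg G x = δ + 1) ∧
      (∀ v x, dg G v = δ → G.Adj v x → dg G x = δ + 1) := by
  obtain ⟨v0, hv0⟩ := hex
  set C : Finset V := insert v0 (T G H π v0) with hC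
  have hv0T : v0 ∉ T G H π v0 := fun h => P.T_ne h rfl
  have hCc : C.card = δ + 1 := by rw [hC, card_insert_of_notMem hv0T, (P.A0 hδ hv0).1]
  have hCd : ∀ a ∈ C, dg G a = δ := by
    intro a ha
    rw [hC, mem_insert] at ha
    rcases ha with rfl | ha
    · exact hv0
    · exact P.A2 hδ hv0 ha
  have hCT : ∀ a ∈ C, T G H π a = C.erase a := by
    intro a ha
    have had := hCd a ha
    refine eq_of_subset_of_card_le ?_ ?_
    · intro y hy
      refine mem_erase.mpr ⟨P.T_ne hy, ?_⟩
      rw [hC, mem_insert] at ha ⊢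
      rcases ha with rfl | ha
      · exact Or.inr hy
      · exact P.E hδ hv0 ha hy
    · rw [card_erase_of_mem ha, hCc, (P.A0 hδ had).1]; omega
  set W : Finset V := univ.filter (fun x => x ∈ C ∨ ∃ a ∈ C, G.Adj a x) with hW
  have hWu : ∀ x, x ∈ W := by
    by_contra hcon
    push Not at hcon
    obtain ⟨z, hz⟩ := hcon
    obtain ⟨x, hx, y, hy, hxy⟩ := conn P.hV P.hH P.hN W
      ⟨v0, mem_filter.mpr ⟨mem_univ _, Or.inl (mem_insert_self _ _)⟩⟩
      ⟨z, mem_sdiff.mpr ⟨mem_univ _, hz⟩⟩
    apply hy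
    rw [hW, mem_filter] at hx ⊢
    refine ⟨mem_univ _, ?_⟩
    rcases hx.2 with h | ⟨a, ha, hax⟩
    · exact Or.inr ⟨x, h, hxy⟩
    · by_cases hya : y = a
      · left; rw [hya]; exact ha
      · obtain ⟨y2, hy2, h2⟩ := P.B2 hδ (hCd a ha) hax hxy hya
        rw [P.Dd hδ (hCd a ha) hax, hCT a ha] at hy2
        exact Or.inr ⟨y2, (mem_erase.mp hy2).2, h2.symm⟩
  have hall : ∀ x, x ∈ C ∨ ∃ a ∈ C, G.Adj a x := fun x => by
    have := hWu x
    rw [hW, mem_filter] at this
    exact this.2
  have hCiff : ∀ x, x ∈ C ↔ dg G x = δ := by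
    intro x
    refine ⟨hCd x, fun h => ?_⟩
    rcases hall x with h1 | ⟨a, ha, hax⟩
    · exact h1
    · have := P.A1 hδ (hCd a ha) hax
      omega
  refine ⟨?_, ?_, fun v x hv hx => P.A1 hδ hv hx⟩
  · intro v y
    rcases hall v with h1 | ⟨a, ha, hav⟩
    · have hvd := hCd v h1
      have hS := (P.A0 hδ hvd).2
      rw [← hCiff, and_comm, ← mem_erase, ← hCT v h1]
      constructor
      · intro h
        refine mem_T.mpr ⟨h, fun h' => ?_⟩
        have : y ∈ S G H π v := by rw [hS]; exact mem_N.mpr h'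
        exact (mem_S.mp this).2 h
      · intro h
        exact (mem_T.mp h).1
    · have had := hCd a ha
      have hSv := (P.B0 hδ had hav).2
      have hTv := P.Dd hδ had hav
      rw [hCT a ha] at hTv
      constructor
      · intro h
        refine ⟨?_, h.ne'⟩
        rw [← hCiff]
        by_cases hy : G.Adj v y
        · by_cases hya : y = a
          · rw [hya]; exact ha
          · have : y ∈ S G H π v := by rw [hSv]; exact mem_erase.mpr ⟨hya, mem_N.mpr hy⟩
            exact absurd h (mem_S.mp this).2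
        · have : y ∈ T G H π v := mem_T.mpr ⟨h, hy⟩
          rw [hTv] at this
          exact (mem_erase.mp this).2
      · rintro ⟨h, hyv⟩
        rw [← hCiff] at h
        by_cases hya : y = a
        · subst hya
          by_contra hcon
          have : y ∈ S G H π v := mem_S.mpr ⟨hav.symm, hcon⟩
          rw [hSv] at this
          exact (mem_erase.mp this).1 rfl
        · have : y ∈ T G H π v := by rw [hTv]; exact mem_erase.mpr ⟨hya, h⟩
          exact (mem_T.mp this).1
  · intro x
    rcases hall x with h1 | ⟨a, ha, hax⟩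
    · exact Or.inl (hCd x h1)
    · exact Or.inr (P.A1 hδ (hCd a ha) hax)

end Pair

/-- no such pair exists -/
theorem Pair.false (P : Pair G H π) : False := by
  have hne : (univ : Finset V).Nonempty := by
    rw [univ_nonempty_iff]
    exact Fintype.card_pos_iff.mp (by have := P.hV; omega)
  obtain ⟨v, -, hmin⟩ := exists_min_image univ (dg G) hne
  have hmin' : ∀ x, dg G v ≤ dg G x := fun x => hmin x (mem_univ x)
  obtain ⟨hK, hd, hA⟩ := P.struct hmin' ⟨v, rfl⟩
  have hdH := dg_hyp P.hV P.hH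
  obtain ⟨hK', hd', hA'⟩ := P.symm.struct (δ := dg G v) (fun x => by rw [hdH]; exact hmin' x)
    ⟨v, hdH v⟩
  simp only [hdH] at hK' hd' hA'
  -- another vertex
  obtain ⟨u, huv⟩ : ∃ u, u ≠ v := by
    have : ∃ u, u ∉ ({v} : Finset V) := exists_out (by
      have := P.hV
      rw [card_singleton]; omega)
    simpa using this
  -- the vertices of minimum degree of `K`
  have hO : ∀ y, dg G (π v y) = dg G v ↔ y = v ∨ G.Adj v y := by
    intro y
    rw [← P.Kdg]
    have hS := (P.A0 hmin' (v := v) rfl).2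
    constructor
    · intro h
      by_contra hcon
      push Not at hcon
      have hyS : y ∉ S G H π v := fun h' => hcon.2 (mem_S.mp h').1
      by_cases hyT : y ∈ T G H π v
      · have := P.dg_T hyT
        have := hmin' y
        omega
      · rw [P.dg_eq' hyS hyT] at h
        have : (K H π v).Adj v y := (hK v y).mpr ⟨h, hcon.1⟩
        exact hyT (mem_T.mpr ⟨this, hcon.2⟩)
    · rintro (rfl | h)
      · exact P.Kdgv _
      · have : y ∈ S G H π v := by rw [hS]; exact mem_N.mpr h
        have h1 := P.dg_S this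
        have h2 := hA v y rfl h
        omega
  set a := π v u with ha
  set σ := (π a).trans (((π v).symm).trans ((Equiv.swap u v).trans (π u))) with hσ
  have hQ : ∀ x y, (K G (fun v => (π v).symm) a).Adj (π v x) (π v y) ↔
      (K H π u).Adj (Equiv.swap u v x) (Equiv.swap u v y) := by
    have hne : ∀ x, x ≠ u → π v x ≠ a := fun x hx h => hx ((π v).injective h)
    have huv' : v ≠ u := huv.symm
    -- the row of `u`
    have hu1 : ∀ y, (K G (fun v => (π v).symm) a).Adj (π v u) (π v y) ↔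
        (K H π u).Adj (Equiv.swap u v u) (Equiv.swap u v y) := by
      intro y
      have h1 : (K G (fun v => (π v).symm) a).Adj (π v u) (π v y) ↔ (y = v ∨ G.Adj v y) ∧ y ≠ u := by
        rw [← ha, hK', hO]
        constructor
        · rintro ⟨h1, h2⟩
          exact ⟨h1, fun h => h2 (by rw [h])⟩
        · rintro ⟨h1, h2⟩
          exact ⟨h1, hne y h2⟩
      rw [h1, Equiv.swap_apply_left]
      by_cases hyu : y = u
      · subst hyu
        rw [Equiv.swap_apply_left]
        exact iff_of_false (fun h => h.2 rfl) (fun h => h.ne rfl)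
      · by_cases hyv : y = v
        · subst hyv
          rw [Equiv.swap_apply_right, (K H π u).adj_comm, hK]
          exact iff_of_true ⟨Or.inl rfl, huv'⟩ ⟨rfl, huv'⟩
        · rw [Equiv.swap_apply_of_ne_of_ne hyu hyv, P.Kadj huv' hyu]
          constructor
          · rintro ⟨h | h, _⟩
            · exact absurd h hyv
            · exact h
          · intro h
            exact ⟨Or.inr h, hyu⟩
    -- the row of `v`
    have hv1 : ∀ y, y ≠ u → ((K G (fun v => (π v).symm) a).Adj (π v v) (π v y) ↔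
        (K H π u).Adj (Equiv.swap u v v) (Equiv.swap u v y)) := by
      intro y hyu
      rw [P.symm.Kadj (hne v huv') (hne y hyu), Equiv.swap_apply_right]
      by_cases hyv : y = v
      · subst hyv
        exact iff_of_false (fun h => h.ne rfl) (fun h => by
          rw [Equiv.swap_apply_right] at h
          exact h.ne rfl)
      · rw [Equiv.swap_apply_of_ne_of_ne hyu hyv, hK]
        have : H.Adj (π v v) (π v y) ↔ (K H π v).Adj v y := Iff.rfl
        rw [this, hK]
        exact ⟨fun h => ⟨h.1, hyu⟩, fun h => ⟨h.1, hyv⟩⟩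
    intro x y
    by_cases hxu : x = u
    · rw [hxu]; exact hu1 y
    · by_cases hyu : y = u
      · rw [hyu, SimpleGraph.adj_comm, (K H π u).adj_comm]; exact hu1 x
      · by_cases hxv : x = v
        · rw [hxv]; exact hv1 y hyu
        · by_cases hyv : y = v
          · rw [hyv, SimpleGraph.adj_comm, (K H π u).adj_comm]; exact hv1 x hxu
          · rw [P.symm.Kadj (hne x hxu) (hne y hyu), Equiv.swap_apply_of_ne_of_ne hxu hxv,
              Equiv.swap_apply_of_ne_of_ne hyu hyv, P.Kadj hxu hyu]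
            exact P.Kadj hxv hyv
  refine P.hN ⟨σ, fun x y => ?_⟩
  have h := hQ ((π v).symm (π a x)) ((π v).symm (π a y))
  rw [Equiv.apply_symm_apply, Equiv.apply_symm_apply] at h
  have h1 : (K G (fun v => (π v).symm) a).Adj (π a x) (π a y) ↔ G.Adj x y := by
    show G.Adj ((π a).symm (π a x)) ((π a).symm (π a y)) ↔ G.Adj x y
    rw [Equiv.symm_apply_apply, Equiv.symm_apply_apply]
  rw [← h1, h]
  rfl

end Pool.Agent.H178.GR
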