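import Pool.Agent.H812.SO.Stm

/-!
# SO-NX (project SO of helper812, problem MP_83fd13_an): the next zero of `J_n`

Sturm comparison on both sides of the distance of two consecutive zeros of `J_n`.
-/

set_option autoImplicit false

namespace Pool.Agent.H178.SoNX

open Set Pool.Agent.H812.SO Pool.Agent.N229.SC

theorem proof_NX (hDER : S_DER) (hODE : S_ODE) (hSTU : S_STU) (hSTL : S_STL) (hSIM : S_SIM) :
    S_NX := by
  intro n a hn hna hFa
  have hn1 : (1 : ℝ) ≤ n := by exact_mod_cast hn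
  have ha0 : 0 < a := by linarith
  have hν0 : 0 < (n : ℝ) ^ 2 - 1 / 4 := by nlinarith
  have hνa : (n : ℝ) ^ 2 - 1 / 4 < a ^ 2 := by nlinarith
  obtain ⟨q, hq⟩ : ∃ q : ℝ → ℝ, q = fun t => 1 - ((n : ℝ) ^ 2 - 1 / 4) / t ^ 2 := ⟨_, rfl⟩
  have hqv : ∀ t, q t = 1 - ((n : ℝ) ^ 2 - 1 / 4) / t ^ 2 := fun t => by rw [hq]
  have hhv : ∀ t, hh n t = Real.pi / Real.sqrt (q t) := fun t => by rw [hqv]; rfl
  have hq_pos : ∀ t, a ≤ t → 0 < q t := by
    intro t ht
    have ht0 : 0 < t := by linarith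
    have h1 : ((n : ℝ) ^ 2 - 1 / 4) / t ^ 2 < 1 := by
      rw [div_lt_one (by positivity)]
      nlinarith
    rw [hqv]
    linarith
  have hq_mono : ∀ s t, a ≤ s → s ≤ t → q s ≤ q t := by
    intro s t hs hst
    have hs0 : 0 < s := by linarith
    have h1 : ((n : ℝ) ^ 2 - 1 / 4) / t ^ 2 ≤ ((n : ℝ) ^ 2 - 1 / 4) / s ^ 2 :=
      div_le_div_of_nonneg_left hν0.le (by positivity) (pow_le_pow_left₀ hs0.le hst 2)
    rw [hqv, hqv]
    linarith
  have hcont : ∀ t, 0 < t → ContinuousAt (fun t => Fb t n) t :=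
    fun t ht => ((hDER n t ht).1).continuousAt
  have hw : ∀ t, 0 < t → (Real.sqrt t * Fb t n = 0 ↔ Fb t n = 0) := by
    intro t ht
    have h1 : Real.sqrt t ≠ 0 := (Real.sqrt_pos.mpr ht).ne'
    constructor
    · intro h
      rcases mul_eq_zero.mp h with h | h
      · exact absurd h h1
      · exact h
    · intro h
      rw [h, mul_zero]
  have hode : ∀ t, 0 < t → HasDerivAt (fun t => Real.sqrt t * Fb t n) (ww n t) t ∧
      HasDerivAt (ww n) (-(q t) * (Real.sqrt t * Fb t n)) t := by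
    intro t ht
    have h1 := hODE n t ht
    rw [hqv]
    exact h1
  -- the zero at `a` is isolated
  obtain ⟨δ, hδ, hiso⟩ : ∃ δ > 0, ∀ t, a < t → t < a + δ → Fb t n ≠ 0 := by
    have hd := (hDER n a ha0).1
    have hne : (n : ℝ) / a * Fb a n - Fb a (n + 1) ≠ 0 := by
      rw [hFa]
      simpa using hSIM n a ha0 hFa
    have hev := hd.eventually_ne (c := 0) hne
    rw [eventually_nhdsWithin_iff, Metric.eventually_nhds_iff] at hev
    obtain ⟨δ, hδ, h⟩ := hev
    refine ⟨δ, hδ, fun t h1 h2 => h ?_ ?_⟩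
    · rw [Real.dist_eq, abs_of_pos (by linarith)]
      linarith
    · simpa using h1.ne'
  -- zeros from the upper comparison
  have hup : ∀ ω, 0 < ω → ω < Real.sqrt (q a) → ∃ t ∈ Ioo a (a + Real.pi / ω), Fb t n = 0 := by
    intro ω hω hωq
    have hsq : ω ^ 2 < q a := by
      have h1 := pow_lt_pow_left₀ hωq hω.le (n := 2) (by norm_num)
      rwa [Real.sq_sqrt (hq_pos a le_rfl).le] at h1
    obtain ⟨t, ht, h0⟩ := hSTU (fun t => Real.sqrt t * Fb t n) (ww n) q a ω hω (by
      intro t ht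
      have ht0 : 0 < t := lt_of_lt_of_le ha0 ht.1
      exact ⟨(hode t ht0).1, (hode t ht0).2, lt_of_lt_of_le hsq (hq_mono a t le_rfl ht.1)⟩)
    exact ⟨t, ht, (hw t (lt_trans ha0 ht.1)).1 h0⟩
  have hsqa : 0 < Real.sqrt (q a) := Real.sqrt_pos.mpr (hq_pos a le_rfl)
  -- the least zero after `a`
  obtain ⟨b, hab, hFb, hmin⟩ : ∃ b, a < b ∧ Fb b n = 0 ∧ ∀ t, a < t → Fb t n = 0 → b ≤ t := by
    obtain ⟨Z, hZ⟩ : ∃ Z : Set ℝ, Z = {t | a + δ ≤ t ∧ Fb t n = 0} := ⟨_, rfl⟩
    have hZm : ∀ t, a < t → Fb t n = 0 → t ∈ Z := by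
      intro t h1 h2
      rw [hZ]
      refine ⟨?_, h2⟩
      by_contra h3
      exact hiso t h1 (not_le.mp h3) h2
    have hZne : Z.Nonempty := by
      obtain ⟨t, ht, h0⟩ := hup (Real.sqrt (q a) / 2) (by positivity) (by linarith)
      exact ⟨t, hZm t ht.1 h0⟩
    have hZbd : BddBelow Z := ⟨a + δ, fun t ht => by rw [hZ] at ht; exact ht.1⟩
    have hZcl : IsClosed Z := by
      have h1 : ContinuousOn (fun t => Fb t n) (Ici (a + δ)) := by
        intro t ht
        have ht' : a + δ ≤ t := ht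
        exact (hcont t (by linarith)).continuousWithinAt
      have h2 := h1.preimage_isClosed_of_isClosed isClosed_Ici (isClosed_singleton (x := (0 : ℝ)))
      rw [hZ]
      exact h2
    have hmem : sInf Z ∈ Z := hZcl.csInf_mem hZne hZbd
    refine ⟨sInf Z, ?_, ?_, fun t h1 h2 => csInf_le hZbd (hZm t h1 h2)⟩
    · have h3 : ∀ t ∈ Z, a + δ ≤ t := fun t ht => by rw [hZ] at ht; exact ht.1
      linarith [h3 _ hmem]
    · have h3 : ∀ t ∈ Z, Fb t n = 0 := fun t ht => by rw [hZ] at ht; exact ht.2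
      exact h3 _ hmem
  have hba : 0 < b - a := by linarith
  have hpi := Real.pi_pos
  refine ⟨b, hab, hFb, ?_, ?_⟩
  · -- lower bound
    rw [hhv]
    by_contra hcon
    rw [not_le] at hcon
    have hqb := hq_pos b hab.le
    have hsb : 0 < Real.sqrt (q b) := Real.sqrt_pos.mpr hqb
    have hΩ0 : 0 < Real.pi / (b - a) := by positivity
    have hlt : Real.sqrt (q b) < Real.pi / (b - a) := by
      rw [lt_div_iff₀ hba]
      rw [lt_div_iff₀ hsb] at hcon
      linarith
    have hsq : q b < (Real.pi / (b - a)) ^ 2 := by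
      have h1 := pow_lt_pow_left₀ hlt hsb.le (n := 2) (by norm_num)
      rwa [Real.sq_sqrt hqb.le] at h1
    have h2 := hSTL (fun t => Real.sqrt t * Fb t n) (ww n) q a b (Real.pi / (b - a)) hΩ0 hab (by
      intro t ht
      have ht0 : 0 < t := lt_of_lt_of_le ha0 ht.1
      exact ⟨(hode t ht0).1, (hode t ht0).2, lt_of_le_of_lt (hq_mono t b ht.1 ht.2) hsq⟩)
      ((hw a ha0).2 hFa) ((hw b (lt_trans ha0 hab)).2 hFb) (by
        intro t ht h0
        have h3 := hmin t ht.1 ((hw t (lt_trans ha0 ht.1)).1 h0)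
        exact absurd ht.2 (not_lt.mpr h3))
    have h3 : Real.pi / (Real.pi / (b - a)) = b - a := by
      field_simp
    rw [h3] at h2
    exact lt_irrefl _ h2
  · -- upper bound
    rw [hhv]
    by_contra hcon
    rw [not_le] at hcon
    have hω0 : 0 < Real.pi / (b - a) := by positivity
    have hlt : Real.pi / (b - a) < Real.sqrt (q a) := by
      rw [div_lt_iff₀ hba]
      rw [div_lt_iff₀ hsqa] at hcon
      linarith
    obtain ⟨t, ht, h0⟩ := hup _ hω0 hlt
    have h3 : Real.pi / (Real.pi / (b - a)) = b - a := by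
      field_simp
    rw [h3] at ht
    have h4 := hmin t ht.1 h0
    have h5 := ht.2
    linarith

end Pool.Agent.H178.SoNX
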