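import Pool.Agent.H770.GS.TB

/-! TB8: dimension three monotonicity, for helper770. -/

set_option autoImplicit false

open MeasureTheory Set intervalIntegral Filter Topology

namespace Pool.Agent.H178.TBF1

open Pool.Agent.Helper82.GC Pool.Agent.H770.GS

theorem fam_eq (φ : ℝ) : fam φ = dirAB 1 (Real.cos φ / Real.sqrt 2) (Real.sin φ) := by
  ext i
  fin_cases i <;> simp [fam, dirAB, vec]

/-- the angle -/
noncomputable def ang (s : ℝ) : ℝ := Real.arctan (Real.sqrt (s / 2))

theorem ang_lt (s : ℝ) : ang s < Real.pi / 2 := Real.arctan_lt_pi_div_two _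

theorem ang_nonneg (s : ℝ) : 0 ≤ ang s := by
  unfold ang
  exact Real.arctan_nonneg.2 (Real.sqrt_nonneg _)

theorem ang_mono {s t : ℝ} (h : s ≤ t) : ang s ≤ ang t := by
  unfold ang
  exact Real.arctan_strictMono.monotone (Real.sqrt_le_sqrt (by linarith))

theorem cos_ang_pos (s : ℝ) : 0 < Real.cos (ang s) := Real.cos_arctan_pos _

theorem lam (x : ℝ) : Real.sin x / (Real.cos x / Real.sqrt 2) = Real.sqrt 2 * Real.tan x := by
  rw [Real.tan_eq_sin_div_cos, div_div_eq_mul_div]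
  ring

theorem lam_ang {s : ℝ} (hs : 0 ≤ s) :
    Real.sin (ang s) / (Real.cos (ang s) / Real.sqrt 2) = Real.sqrt s := by
  rw [lam, ang, Real.tan_arctan, ← Real.sqrt_mul (by norm_num)]
  congr 1
  ring

theorem FF_eq (hL : S_link) {r s : ℝ} (hr : 0 < r) (hs : 0 ≤ s) :
    Asl r (fam (ang s)) 0 = FF r 1 s := by
  have hc := cos_ang_pos s
  have h2 : 0 < Real.sqrt 2 := by positivity
  have hsin : 0 ≤ Real.sin (ang s) :=
    Real.sin_nonneg_of_nonneg_of_le_pi (ang_nonneg s) (by linarith [ang_lt s, Real.pi_pos])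
  have hsq : Real.sqrt 2 ^ 2 = 2 := Real.sq_sqrt (by norm_num)
  have h := hL r (Real.cos (ang s) / Real.sqrt 2) (Real.sin (ang s)) 1 hr le_rfl
    (div_pos hc h2) hsin (by
      rw [div_pow, hsq]
      have := Real.sin_sq_add_cos_sq (ang s)
      push_cast
      linarith)
  rw [fam_eq, h]
  have e : ((1 : ℕ) : ℝ) * Real.sin (ang s) ^ 2 / (Real.cos (ang s) / Real.sqrt 2) ^ 2 = s := by
    have := lam_ang hs
    rw [Nat.cast_one, one_mul, ← div_pow, this, Real.sq_sqrt hs]
  rw [e]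

theorem main : S_F1 := by
  intro hL r l hr hl hl1 hj s1 s2 h1 h12 h2
  have hs1 : 0 ≤ s1 := le_trans (sq_nonneg l) h1
  have hs2 : 0 ≤ s2 := hs1.trans h12
  rw [← FF_eq hL hr hs1, ← FF_eq hL hr hs2]
  have hq : 0 < Real.sqrt 2 := by positivity
  have hc2 := cos_ang_pos s2
  have hend : Real.sin (ang s2) ≤ Real.cos (ang s2) / Real.sqrt 2 := by
    have e := lam_ang hs2
    rw [div_eq_iff (div_pos hc2 hq).ne'] at e
    rw [e]
    have : Real.sqrt s2 ≤ 1 := Real.sqrt_le_one.2 h2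
    have h5 := (div_pos hc2 hq).le
    nlinarith
  have key := fam_ftc hr (ang_nonneg s1) (ang_mono h12) (ang_lt s2) hend
  rw [← sub_nonneg, key]
  refine intervalIntegral.integral_nonneg (ang_mono h12) fun x hx => ?_
  have hx0 : 0 ≤ x := (ang_nonneg s1).trans hx.1
  have hxp : x < Real.pi / 2 := lt_of_le_of_lt hx.2 (ang_lt s2)
  have hcx : 0 < Real.cos x := Real.cos_pos_of_mem_Ioo ⟨by linarith [Real.pi_pos], hxp⟩
  have hmono : ∀ a b, 0 ≤ a → a ≤ b → b < Real.pi / 2 →
      Real.sin a / (Real.cos a / Real.sqrt 2) ≤ Real.sin b / (Real.cos b / Real.sqrt 2) := by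
    intro a b ha hab hb
    rw [lam, lam]
    rcases eq_or_lt_of_le hab with rfl | hlt
    · exact le_rfl
    · exact (mul_lt_mul_of_pos_left
        (Real.tan_lt_tan_of_nonneg_of_lt_pi_div_two ha hb hlt) hq).le
  obtain ⟨m, hm⟩ : ∃ m, m = Real.sin x / (Real.cos x / Real.sqrt 2) := ⟨_, rfl⟩
  have hml : l ≤ m := by
    have e := hmono (ang s1) x (ang_nonneg s1) hx.1 hxp
    rw [lam_ang hs1] at e
    rw [hm]
    exact (Real.le_sqrt_of_sq_le h1).trans e
  have hm1 : m ≤ 1 := by
    have e := hmono x (ang s2) hx0 hx.2 (ang_lt s2)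
    rw [lam_ang hs2] at e
    rw [hm]
    exact e.trans (Real.sqrt_le_one.2 h2)
  have hjm : 0 ≤ jj r m := by
    -- on `[l, 1)` by single crossing, at `1` by continuity
    have hIco : ∀ y ∈ Ico l 1, 0 ≤ jj r y := by
      intro y hy
      rcases eq_or_lt_of_le hy.1 with h | h
      · rw [← h]; exact hj
      · exact (jj_cross hr hl.le h hy.2 hj).le
    rcases eq_or_lt_of_le hm1 with h | h
    · rw [h]
      have hcl : IsClosed {y : ℝ | 0 ≤ jj r y} := isClosed_le continuous_const (jj_cont r)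
      have hsub : Ico l 1 ⊆ {y : ℝ | 0 ≤ jj r y} := fun y hy => hIco y hy
      have h6 := closure_minimal hsub hcl
      rw [closure_Ico hl1.ne] at h6
      exact h6 (right_mem_Icc.2 hl1.le)
    · exact hIco m ⟨hml, h⟩
  unfold hh
  rw [← hm]
  have := W_pos r
  positivity

end Pool.Agent.H178.TBF1
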