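import Pool.Agent.H770.GS.TK

/-! # `S_TK9`: the lower bound for `JM` (after `Pool.Agent.H707.TF17.t_TF17`) -/

set_option autoImplicit false

open MeasureTheory Set intervalIntegral Filter Topology

namespace Pool.Agent.H178.TK9

open Pool.Agent.H770.GS

theorem gg_nonneg {τ : ℝ} (h0 : 0 ≤ τ) (h1 : τ ≤ Real.pi) : 0 ≤ gg τ := by
  unfold gg
  refine mul_nonneg (Real.sin_nonneg_of_nonneg_of_le_pi h0 h1) ?_
  rcases lt_or_ge τ (Real.pi / 2) with h | h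
  · rcases eq_or_lt_of_le h0 with h2 | h2
    · rw [← h2]; simp
    · have h3 := Real.lt_tan h2 h
      have h4 : 0 < Real.cos τ := Real.cos_pos_of_mem_Ioo ⟨by linarith, h⟩
      rw [Real.tan_eq_sin_div_cos, lt_div_iff₀ h4] at h3
      linarith
  · have h2 := Real.sin_nonneg_of_nonneg_of_le_pi h0 h1
    have h3 : Real.cos τ ≤ 0 := Real.cos_nonpos_of_pi_div_two_le_of_le h (by linarith [Real.pi_pos])
    nlinarith

theorem gg_cont : Continuous gg := by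
  unfold gg
  fun_prop

theorem hq_eq (τ : ℝ) : hq τ = 3 * (Real.sinc τ - Real.cos τ) ^ 2 := by
  unfold hq
  by_cases h : τ = 0
  · subst h
    simp
  · rw [Real.sinc_of_ne_zero h]
    field_simp

theorem hq_cont : Continuous hq := by
  have h : hq = fun τ => 3 * (Real.sinc τ - Real.cos τ) ^ 2 := funext hq_eq
  rw [h]
  have := Real.continuous_sinc
  fun_prop

theorem hq_nonneg (τ : ℝ) : 0 ≤ hq τ := by
  rw [hq_eq]
  positivity

/-- The lower bound for one function. -/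
theorem one (G : ℝ → ℝ) (hc : Continuous G) (hG : ∀ τ ∈ Icc (0:ℝ) Real.pi, 0 ≤ G τ)
    (c0 c2 c2' c4 c4' c6 : ℝ)
    (m0 : c0 ≤ ∫ τ in (0:ℝ)..Real.pi, G τ * Real.exp (-(0.15 * τ ^ 2)))
    (m2 : c2 ≤ ∫ τ in (0:ℝ)..Real.pi, G τ * τ ^ 2 * Real.exp (-(0.15 * τ ^ 2)))
    (m2' : (∫ τ in (0:ℝ)..Real.pi, G τ * τ ^ 2 * Real.exp (-(0.15 * τ ^ 2))) ≤ c2')
    (m4 : c4 ≤ ∫ τ in (0:ℝ)..Real.pi, G τ * τ ^ 4 * Real.exp (-(0.15 * τ ^ 2)))
    (m4' : (∫ τ in (0:ℝ)..Real.pi, G τ * τ ^ 4 * Real.exp (-(0.15 * τ ^ 2))) ≤ c4')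
    (m6 : (∫ τ in (0:ℝ)..Real.pi, G τ * τ ^ 6 * Real.exp (-(0.15 * τ ^ 2))) ≤ c6)
    (p q d : ℝ) (hp : 0 ≤ p) (hp' : p ≤ 1 / 40) (hq' : q ≤ 0.3) (hd : d = (0.3 - q) / 2) :
    c0 + c2 * d - c2' * p + c4 * d ^ 2 / 2 - c4' * (p * d) - c6 * (p * d ^ 2 / 2) ≤
      ∫ τ in (0:ℝ)..Real.pi, G τ * (1 - p * τ ^ 2) * Real.exp (-(q * τ ^ 2 / 2)) := by
  have hd0 : 0 ≤ d := by rw [hd]; linarith
  have hpi := Real.pi_pos
  have hpi2 : Real.pi ^ 2 ≤ 10 := by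
    have := Real.pi_lt_d2
    nlinarith
  have key : ∀ τ ∈ Icc (0:ℝ) Real.pi,
      G τ * Real.exp (-(0.15 * τ ^ 2)) + (d - p) * (G τ * τ ^ 2 * Real.exp (-(0.15 * τ ^ 2))) +
        (d ^ 2 / 2 - p * d) * (G τ * τ ^ 4 * Real.exp (-(0.15 * τ ^ 2))) -
        p * d ^ 2 / 2 * (G τ * τ ^ 6 * Real.exp (-(0.15 * τ ^ 2))) ≤
      G τ * (1 - p * τ ^ 2) * Real.exp (-(q * τ ^ 2 / 2)) := by
    intro τ hτ
    have h1 := hG τ hτ
    have h2 : 0 ≤ 1 - p * τ ^ 2 := by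
      have h3 : τ ^ 2 ≤ Real.pi ^ 2 := by
        have := hτ.1; have := hτ.2; gcongr
      nlinarith [sq_nonneg τ]
    have h4 : Real.exp (-(q * τ ^ 2 / 2)) = Real.exp (-(0.15 * τ ^ 2)) * Real.exp (d * τ ^ 2) := by
      rw [← Real.exp_add]; congr 1; rw [hd]; ring
    have h5 := Real.quadratic_le_exp_of_nonneg (x := d * τ ^ 2) (by positivity)
    have h6 : 0 ≤ G τ * (1 - p * τ ^ 2) * Real.exp (-(0.15 * τ ^ 2)) := by positivity
    calc _ = G τ * (1 - p * τ ^ 2) * Real.exp (-(0.15 * τ ^ 2)) *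
          (1 + d * τ ^ 2 + (d * τ ^ 2) ^ 2 / 2) := by ring
      _ ≤ G τ * (1 - p * τ ^ 2) * Real.exp (-(0.15 * τ ^ 2)) * Real.exp (d * τ ^ 2) :=
          mul_le_mul_of_nonneg_left h5 h6
      _ = _ := by rw [h4]; ring
  have hI : ∀ f : ℝ → ℝ, Continuous f → IntervalIntegrable f volume 0 Real.pi := fun f hf =>
    hf.intervalIntegrable _ _
  have i0 := hI (fun τ => G τ * Real.exp (-(0.15 * τ ^ 2))) (by fun_prop)
  have i2 := hI (fun τ => (d - p) * (G τ * τ ^ 2 * Real.exp (-(0.15 * τ ^ 2)))) (by fun_prop)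
  have i4 := hI (fun τ => (d ^ 2 / 2 - p * d) * (G τ * τ ^ 4 * Real.exp (-(0.15 * τ ^ 2)))) (by fun_prop)
  have i6 := hI (fun τ => p * d ^ 2 / 2 * (G τ * τ ^ 6 * Real.exp (-(0.15 * τ ^ 2)))) (by fun_prop)
  have iR := hI (fun τ => G τ * (1 - p * τ ^ 2) * Real.exp (-(q * τ ^ 2 / 2))) (by fun_prop)
  have hle := intervalIntegral.integral_mono_on hpi.le (((i0.add i2).add i4).sub i6) iR key
  have e1 : (∫ τ in (0:ℝ)..Real.pi, (G τ * Real.exp (-(0.15 * τ ^ 2)) +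
        (d - p) * (G τ * τ ^ 2 * Real.exp (-(0.15 * τ ^ 2))) +
        (d ^ 2 / 2 - p * d) * (G τ * τ ^ 4 * Real.exp (-(0.15 * τ ^ 2))) -
        p * d ^ 2 / 2 * (G τ * τ ^ 6 * Real.exp (-(0.15 * τ ^ 2))))) =
      (∫ τ in (0:ℝ)..Real.pi, G τ * Real.exp (-(0.15 * τ ^ 2))) +
        (d - p) * (∫ τ in (0:ℝ)..Real.pi, G τ * τ ^ 2 * Real.exp (-(0.15 * τ ^ 2))) +
        (d ^ 2 / 2 - p * d) * (∫ τ in (0:ℝ)..Real.pi, G τ * τ ^ 4 * Real.exp (-(0.15 * τ ^ 2))) -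
        p * d ^ 2 / 2 * (∫ τ in (0:ℝ)..Real.pi, G τ * τ ^ 6 * Real.exp (-(0.15 * τ ^ 2))) := by
    rw [intervalIntegral.integral_sub ((i0.add i2).add i4) i6,
      intervalIntegral.integral_add (i0.add i2) i4, intervalIntegral.integral_add i0 i2,
      intervalIntegral.integral_const_mul, intervalIntegral.integral_const_mul,
      intervalIntegral.integral_const_mul]
  rw [e1] at hle
  refine le_trans ?_ hle
  have a1 := mul_le_mul_of_nonneg_left m2 hd0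
  have a2 := mul_le_mul_of_nonneg_left m2' hp
  have a3 := mul_le_mul_of_nonneg_left m4 (by positivity : 0 ≤ d ^ 2 / 2)
  have a4 := mul_le_mul_of_nonneg_left m4' (by positivity : 0 ≤ p * d)
  have a5 := mul_le_mul_of_nonneg_left m6 (by positivity : 0 ≤ p * d ^ 2 / 2)
  linarith

theorem t_TK9 : S_TK9 := by
  rintro ⟨g0, g2, g2', g4, g4', g6, h0, h2, h2', h4, h4', h6⟩ ρ p q d hρ hρ' hp hp' _ hq' hd
  have A := one gg gg_cont (fun τ hτ => gg_nonneg hτ.1 hτ.2) _ _ _ _ _ _ g0 g2 g2' g4 g4' g6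
    p q d hp hp' hq' hd
  have B := one hq hq_cont (fun τ _ => hq_nonneg τ) _ _ _ _ _ _ h0 h2 h2' h4 h4' h6
    p q d hp hp' hq' hd
  have cg := gg_cont
  have ch := hq_cont
  have ig : IntervalIntegrable (fun τ => ρ * (gg τ * (1 - p * τ ^ 2) *
      Real.exp (-(q * τ ^ 2 / 2)))) volume 0 Real.pi :=
    Continuous.intervalIntegrable (by fun_prop) _ _
  have ih : IntervalIntegrable (fun τ => (1 - ρ) * (hq τ * (1 - p * τ ^ 2) *
      Real.exp (-(q * τ ^ 2 / 2)))) volume 0 Real.pi :=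
    Continuous.intervalIntegrable (by fun_prop) _ _
  have e : JM ρ p q = ρ * (∫ τ in (0:ℝ)..Real.pi, gg τ * (1 - p * τ ^ 2) *
      Real.exp (-(q * τ ^ 2 / 2))) + (1 - ρ) * (∫ τ in (0:ℝ)..Real.pi, hq τ * (1 - p * τ ^ 2) *
      Real.exp (-(q * τ ^ 2 / 2))) := by
    rw [← intervalIntegral.integral_const_mul, ← intervalIntegral.integral_const_mul,
      ← intervalIntegral.integral_add ig ih]
    unfold JM
    refine intervalIntegral.integral_congr fun τ _ => ?_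
    ring
  rw [e]
  exact add_le_add (mul_le_mul_of_nonneg_left A hρ)
    (mul_le_mul_of_nonneg_left B (by linarith))

end Pool.Agent.H178.TK9
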