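import Mathlib
import Pool.Graph.R_pool_sql_team_seeded_620a6dc7.helper300_ppc_.Final

set_option autoImplicit false

/-!
# Sharply transitive sets of permutations between rows, most of which nearly agree

`FF S σ a b` is the set of the permutations from row `a` to row `b`. We bound the number of the
permutations outside a regular group in terms of the sum of the sizes of `FF a b \ FF x b`.
-/

namespace Pool.Agent.H178.TwoA

open Finset H300PPC
open scoped Classical

variable {I J D : Type*} [Fintype I] [Fintype J]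
  {n : ℕ} {S : Finset D} {σ : D → I → I → Equiv.Perm J} {Y : D}

/-- the number of permutations from `a` to `b` which are not permutations from `c` to `d` -/
noncomputable def dd (S : Finset D) (σ : D → I → I → Equiv.Perm J) (a b c d : I) : ℕ :=
  (FF S σ a b \ FF S σ c d).card

theorem dd_tri (a b c d e f : I) : dd S σ a b e f ≤ dd S σ a b c d + dd S σ c d e f := by
  unfold dd
  refine (card_le_card ?_).trans (card_union_le _ _)
  intro x hx
  rw [mem_sdiff] at hx
  rw [mem_union, mem_sdiff, mem_sdiff]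
  by_cases h : x ∈ FF S σ c d
  · exact Or.inr ⟨h, hx.2⟩
  · exact Or.inl ⟨hx.1, h⟩

theorem dd_self (a b : I) : dd S σ a b a b = 0 := by
  unfold dd
  rw [Finset.sdiff_self, Finset.card_empty]

theorem FF_inv (h : IsCoord n S σ Y) (a b : I) :
    FF S σ b a = (FF S σ a b).map (Equiv.inv (Equiv.Perm J)).toEmbedding := by
  ext f
  rw [mem_map, mem_FF]
  constructor
  · rintro ⟨Z, hZ, rfl⟩
    exact ⟨σ Z a b, mem_FF.2 ⟨Z, hZ, rfl⟩, (h.inv hZ b a).symm⟩
  · rintro ⟨g, hg, rfl⟩
    obtain ⟨Z, hZ, rfl⟩ := mem_FF.1 hg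
    exact ⟨Z, hZ, h.inv hZ b a⟩

theorem dd_inv (h : IsCoord n S σ Y) (a b c d : I) : dd S σ b a d c = dd S σ a b c d := by
  unfold dd
  rw [FF_inv h a b, FF_inv h c d, ← Finset.map_sdiff, card_map]

/-- the sum of the sizes of `FF a b \ FF x b` over the distinct rows `a`, `b`, `x` -/
noncomputable def TT (S : Finset D) (σ : D → I → I → Equiv.Perm J) : ℕ :=
  ∑ a : I, ∑ b : I, ∑ x : I, if a ≠ b ∧ x ≠ b then dd S σ a b x b else 0

theorem card_ne (hI : Fintype.card I = n) (x : I) :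
    (univ.filter fun d : I => x ≠ d).card = n - 1 := by
  rw [filter_ne, card_erase_of_mem (mem_univ _), card_univ, hI]

theorem card_ne' (hI : Fintype.card I = n) (x : I) :
    (univ.filter fun d : I => d ≠ x).card = n - 1 := by
  rw [filter_ne', card_erase_of_mem (mem_univ _), card_univ, hI]

theorem card_ne2 (hI : Fintype.card I = n) (b d : I) :
    n - 2 ≤ (univ.filter fun x : I => x ≠ b ∧ x ≠ d).card := by
  have h1 : (univ.filter fun x : I => x ≠ b ∧ x ≠ d) = ({b, d} : Finset I)ᶜ := by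
    ext x
    simp
  rw [h1, card_compl, hI]
  have := card_le_two (a := b) (b := d)
  omega

/-- pairs -/
theorem sum_pairs (hI : Fintype.card I = n) (x : I) (t : ℕ) :
    ∑ c : I, ∑ d : I, (if c ≠ d ∧ x ≠ d then t else 0) = (n - 1) * (n - 1) * t := by
  rw [sum_comm]
  have h1 : ∀ d : I, ∑ c : I, (if c ≠ d ∧ x ≠ d then t else 0) =
      if x ≠ d then (n - 1) * t else 0 := by
    intro d
    by_cases hx : x ≠ d
    · simp only [hx, ne_eq, not_false_eq_true, and_true, if_true]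
      rw [← sum_filter, sum_const, smul_eq_mul, card_ne' hI]
    · push Not at hx
      simp [hx]
  rw [sum_congr rfl fun d _ => h1 d, ← sum_filter, sum_const, smul_eq_mul, card_ne hI, mul_assoc]

theorem sum_pairs2 (hI : Fintype.card I = n) (x y : I) (t : ℕ) :
    ∑ a : I, ∑ c : I, (if a ≠ x ∧ c ≠ y then t else 0) = (n - 1) * (n - 1) * t := by
  have h1 : ∀ a : I, ∑ c : I, (if a ≠ x ∧ c ≠ y then t else 0) =
      if a ≠ x then (n - 1) * t else 0 := by
    intro a
    by_cases ha : a ≠ x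
    · simp only [ha, ne_eq, not_false_eq_true, true_and, if_true]
      rw [← sum_filter, sum_const, smul_eq_mul, card_ne' hI]
    · push Not at ha
      simp [ha]
  rw [sum_congr rfl fun d _ => h1 d, ← sum_filter, sum_const, smul_eq_mul, card_ne' hI, mul_assoc]

theorem rot1 (F : I → I → I → I → I → ℕ) :
    ∑ c : I, ∑ d : I, ∑ a : I, ∑ b : I, ∑ x : I, F c d a b x =
      ∑ a : I, ∑ b : I, ∑ x : I, ∑ c : I, ∑ d : I, F c d a b x := by
  have := Fintype.sum_equiv
    (⟨fun t => (t.2.2.1, t.2.2.2.1, t.2.2.2.2, t.1, t.2.1),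
      fun t => (t.2.2.2.1, t.2.2.2.2, t.1, t.2.1, t.2.2.1), fun _ => rfl, fun _ => rfl⟩ :
      (I × I × I × I × I) ≃ (I × I × I × I × I))
    (fun t => F t.1 t.2.1 t.2.2.1 t.2.2.2.1 t.2.2.2.2)
    (fun t => F t.2.2.2.1 t.2.2.2.2 t.1 t.2.1 t.2.2.1) (fun _ => rfl)
  simpa only [Fintype.sum_prod_type] using this

theorem rot2 (F : I → I → I → I → I → ℕ) :
    ∑ c : I, ∑ d : I, ∑ a : I, ∑ b : I, ∑ x : I, F c d a b x =
      ∑ b : I, ∑ x : I, ∑ d : I, ∑ a : I, ∑ c : I, F c d a b x := by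
  have := Fintype.sum_equiv
    (⟨fun t => (t.2.2.2.1, t.2.2.2.2, t.2.1, t.2.2.1, t.1),
      fun t => (t.2.2.2.2, t.2.2.1, t.2.2.2.1, t.1, t.2.1), fun _ => rfl, fun _ => rfl⟩ :
      (I × I × I × I × I) ≃ (I × I × I × I × I))
    (fun t => F t.1 t.2.1 t.2.2.1 t.2.2.2.1 t.2.2.2.2)
    (fun t => F t.2.2.2.2 t.2.2.1 t.2.2.2.1 t.1 t.2.1) (fun _ => rfl)
  simpa only [Fintype.sum_prod_type] using this

theorem rot3 (F : I → I → I → I → I → ℕ) :
    ∑ c : I, ∑ d : I, ∑ a : I, ∑ b : I, ∑ x : I, F c d a b x =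
      ∑ x : I, ∑ d : I, ∑ c : I, ∑ a : I, ∑ b : I, F c d a b x := by
  have := Fintype.sum_equiv
    (⟨fun t => (t.2.2.2.2, t.2.1, t.1, t.2.2.1, t.2.2.2.1),
      fun t => (t.2.2.1, t.2.1, t.2.2.2.1, t.2.2.2.2, t.1), fun _ => rfl, fun _ => rfl⟩ :
      (I × I × I × I × I) ≃ (I × I × I × I × I))
    (fun t => F t.1 t.2.1 t.2.2.1 t.2.2.2.1 t.2.2.2.2)
    (fun t => F t.2.2.1 t.2.1 t.2.2.2.1 t.2.2.2.2 t.1) (fun _ => rfl)
  simpa only [Fintype.sum_prod_type] using this

/-- the average over the paths -/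
theorem average (h : IsCoord n S σ Y) (hn : 3 ≤ n) :
    ∃ c d : I, c ≠ d ∧
      n * (n - 2) * (∑ a : I, ∑ b : I, if a ≠ b then dd S σ a b c d else 0) ≤
        3 * (n - 1) * TT S σ := by
  have hI := h.cardI
  -- the pointwise inequality
  have key : ∀ a b c d : I, a ≠ b → c ≠ d → (n - 2) * dd S σ a b c d ≤
      ∑ x : I, if x ≠ b ∧ x ≠ d then
        dd S σ a b x b + (dd S σ x b x d + dd S σ x d c d) else 0 := by
    intro a b c d hab hcd
    calc (n - 2) * dd S σ a b c d
        ≤ (univ.filter fun x : I => x ≠ b ∧ x ≠ d).card * dd S σ a b c d :=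
          Nat.mul_le_mul_right _ (card_ne2 hI b d)
      _ = ∑ x : I, if x ≠ b ∧ x ≠ d then dd S σ a b c d else 0 := by
          rw [← sum_filter, sum_const, smul_eq_mul]
      _ ≤ _ := by
          apply sum_le_sum
          intro x _
          split_ifs with hx
          · exact (dd_tri a b x b c d).trans (Nat.add_le_add_left (dd_tri x b x d c d) _)
          · exact le_rfl
  set u : I → I → I → ℕ := fun a b x => if a ≠ b ∧ x ≠ b then dd S σ a b x b else 0 with hu
  have hT : TT S σ = ∑ a : I, ∑ b : I, ∑ x : I, u a b x := rfl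
  have key2 : ∀ a b c d : I, (n - 2) * (if a ≠ b ∧ c ≠ d then dd S σ a b c d else 0) ≤
      ∑ x : I, (if c ≠ d ∧ x ≠ d then u a b x else 0) +
      (∑ x : I, (if a ≠ b ∧ c ≠ d then u b x d else 0) +
       ∑ x : I, (if a ≠ b ∧ x ≠ b then u x d c else 0)) := by
    intro a b c d
    by_cases hh : a ≠ b ∧ c ≠ d
    · rw [if_pos hh, ← sum_add_distrib, ← sum_add_distrib]
      refine (key a b c d hh.1 hh.2).trans (sum_le_sum fun x _ => ?_)
      split_ifs with hx
      all_goals try exact Nat.zero_le _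
      all_goals simp only [hu]
      all_goals try (exfalso; tauto)
      rw [if_pos ⟨hh.1, hx.1⟩, if_pos ⟨hx.1.symm, hx.2.symm⟩, if_pos ⟨hx.2, hh.2⟩, dd_inv h b x d x]
    · rw [if_neg hh, mul_zero]
      exact Nat.zero_le _
  have e1 : ∑ c : I, ∑ d : I, ∑ a : I, ∑ b : I, ∑ x : I,
      (if c ≠ d ∧ x ≠ d then u a b x else 0) = (n - 1) * (n - 1) * TT S σ := by
    rw [rot1 (fun c d a b x => if c ≠ d ∧ x ≠ d then u a b x else 0)]
    simp only [sum_pairs hI]
    rw [hT]; simp only [mul_sum]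
  have e2 : ∑ c : I, ∑ d : I, ∑ a : I, ∑ b : I, ∑ x : I,
      (if a ≠ b ∧ c ≠ d then u b x d else 0) = (n - 1) * (n - 1) * TT S σ := by
    rw [rot2 (fun c d a b x => if a ≠ b ∧ c ≠ d then u b x d else 0)]
    simp only [sum_pairs2 hI]
    rw [hT]; simp only [mul_sum]
  have e3 : ∑ c : I, ∑ d : I, ∑ a : I, ∑ b : I, ∑ x : I,
      (if a ≠ b ∧ x ≠ b then u x d c else 0) = (n - 1) * (n - 1) * TT S σ := by
    rw [rot3 (fun c d a b x => if a ≠ b ∧ x ≠ b then u x d c else 0)]
    simp only [sum_pairs hI]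
    rw [hT]; simp only [mul_sum]
  have hsum : (n - 2) * (∑ c : I, ∑ d : I, ∑ a : I, ∑ b : I,
      (if a ≠ b ∧ c ≠ d then dd S σ a b c d else 0)) ≤ 3 * ((n - 1) * (n - 1) * TT S σ) := by
    calc _ = ∑ c : I, ∑ d : I, ∑ a : I, ∑ b : I,
          (n - 2) * (if a ≠ b ∧ c ≠ d then dd S σ a b c d else 0) := by simp only [mul_sum]
      _ ≤ ∑ c : I, ∑ d : I, ∑ a : I, ∑ b : I,
          (∑ x : I, (if c ≠ d ∧ x ≠ d then u a b x else 0) +
            (∑ x : I, (if a ≠ b ∧ c ≠ d then u b x d else 0) +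
              ∑ x : I, (if a ≠ b ∧ x ≠ b then u x d c else 0))) :=
          sum_le_sum fun c _ => sum_le_sum fun d _ => sum_le_sum fun a _ =>
            sum_le_sum fun b _ => key2 a b c d
      _ = _ := by
          simp only [sum_add_distrib]
          rw [e1, e2, e3]; ring
  -- the minimum over the pairs `(c, d)`
  have hne : (univ.filter fun p : I × I => p.1 ≠ p.2).Nonempty := by
    have hc : 1 < Fintype.card I := by omega
    obtain ⟨x, y, hxy⟩ := Fintype.exists_pair_of_one_lt_card hc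
    exact ⟨(x, y), by simp [hxy]⟩
  have hcard : (univ.filter fun p : I × I => p.1 ≠ p.2).card = n * (n - 1) := by
    have h1 : (univ.filter fun p : I × I => p.1 ≠ p.2) = (univ : Finset I).offDiag := by
      ext p; simp
    rw [h1, offDiag_card, card_univ, hI, Nat.mul_sub_one]
  obtain ⟨⟨c, d⟩, hcd, hle⟩ := exists_card_mul_le_sum _ hne
    (fun p : I × I => ∑ a : I, ∑ b : I, if a ≠ b then dd S σ a b p.1 p.2 else 0)
  rw [mem_filter] at hcd
  refine ⟨c, d, hcd.2, ?_⟩
  rw [hcard, sum_filter, Fintype.sum_prod_type] at hle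
  have h2 : ∑ c : I, ∑ d : I, (if (c, d).1 ≠ (c, d).2 then
      ∑ a : I, ∑ b : I, (if a ≠ b then dd S σ a b (c, d).1 (c, d).2 else 0) else 0) =
      ∑ c : I, ∑ d : I, ∑ a : I, ∑ b : I, (if a ≠ b ∧ c ≠ d then dd S σ a b c d else 0) := by
    refine sum_congr rfl fun c _ => sum_congr rfl fun d _ => ?_
    by_cases h : c ≠ d
    · simp [h]
    · simp [h]
  rw [h2] at hle
  simp only at hle
  set E := ∑ a : I, ∑ b : I, (if a ≠ b then dd S σ a b c d else 0) with hE
  have h3 : (n - 1) * (n * (n - 2) * E) ≤ (n - 1) * (3 * (n - 1) * TT S σ) := by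
    calc (n - 1) * (n * (n - 2) * E) = (n - 2) * (n * (n - 1) * E) := by ring
      _ ≤ (n - 2) * _ := Nat.mul_le_mul_left _ hle
      _ ≤ _ := hsum
      _ = _ := by ring
  exact Nat.le_of_mul_le_mul_left h3 (by omega)

end Pool.Agent.H178.TwoA
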