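import Mathlib
import Pool.Agent.H178.TwoA

set_option autoImplicit false
set_option linter.unusedSectionVars false

/-!
# A regular group near to the permutations between rows
-/

namespace Pool.Agent.H178.TwoA

open Finset H300PPC
open scoped Classical

variable {I J D : Type*} [Fintype I] [Fintype J]
  {n : ℕ} {S : Finset D} {σ : D → I → I → Equiv.Perm J} {Y : D}

theorem eq_of_one (h : IsCoord n S σ Y) (hn : 0 < n) {Z : D} (hZ : Z ∈ S) (hZY : Z ≠ Y) {c c' : I}
    (he : σ Z c c' = 1) : c = c' := by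
  by_contra hne
  have : Nonempty J := by
    rw [← Fintype.card_pos_iff, h.cardJ]; exact hn
  obtain ⟨j⟩ := this
  refine hZY (h.inj hne hZ h.memY j ?_)
  rw [he, h.base]

theorem right_inj (h : IsCoord n S σ Y) (hn : 0 < n) {Z : D} (hZ : Z ∈ S) (hZY : Z ≠ Y)
    {b c c' : I} (he : σ Z b c = σ Z b c') : c = c' := by
  apply eq_of_one h hn hZ hZY
  have h1 := h.comp Z hZ b c c'
  rw [← he] at h1
  exact mul_eq_right.1 h1

theorem left_inj (h : IsCoord n S σ Y) (hn : 0 < n) {Z : D} (hZ : Z ∈ S) (hZY : Z ≠ Y)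
    {a a' b : I} (he : σ Z a b = σ Z a' b) : a = a' := by
  apply right_inj h hn hZ hZY (b := b)
  rw [h.inv hZ b a, h.inv hZ b a', he]

/-- the number of the pairs of rows whose permutation is not in `K` -/
noncomputable def ee (σ : D → I → I → Equiv.Perm J) (K : Finset (Equiv.Perm J)) (Z : D) : ℕ :=
  (univ.filter fun p : I × I => σ Z p.1 p.2 ∉ K).card

theorem bad_le (h : IsCoord n S σ Y) (hn : 0 < n) {Z : D} (hZ : Z ∈ S) (hZY : Z ≠ Y)
    (K : Finset (Equiv.Perm J)) (hK : K.card = n) :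
    ((K ×ˢ K).filter (fun p => p.1 * p.2 ∉ K)).card ≤ 3 * ee σ K Z := by
  have hI := h.cardI
  set N : Equiv.Perm J × Equiv.Perm J → ℕ := fun p =>
    (univ.filter fun t : I × I × I => (σ Z t.2.1 t.2.2, σ Z t.1 t.2.1) = p).card with hN
  have hN1 : ∀ p, N p ≤ n := by
    intro p
    rw [← hI, ← card_univ]
    apply card_le_card_of_injOn (fun t : I × I × I => t.2.1)
    · intro t _; exact mem_coe.2 (mem_univ _)
    · rintro ⟨a, b, c⟩ ht ⟨a', b', c'⟩ ht' he
      have h1 := (mem_filter.1 (mem_coe.1 ht)).2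
      have h2 := (mem_filter.1 (mem_coe.1 ht')).2
      simp only at h1 h2 he
      subst he
      rw [← h2, Prod.mk.injEq] at h1
      rw [right_inj h hn hZ hZY h1.1, left_inj h hn hZ hZY h1.2]
  -- all triples
  set M1 := (univ.filter fun t : I × I × I => σ Z t.2.1 t.2.2 ∈ K ∧ σ Z t.1 t.2.1 ∈ K).card with hM1
  have e1 : ∑ p ∈ K ×ˢ K, N p = M1 := by
    rw [hM1, card_eq_sum_card_fiberwise (s := univ.filter fun t : I × I × I =>
      σ Z t.2.1 t.2.2 ∈ K ∧ σ Z t.1 t.2.1 ∈ K) (t := K ×ˢ K)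
      (f := fun t : I × I × I => (σ Z t.2.1 t.2.2, σ Z t.1 t.2.1))]
    · refine sum_congr rfl fun p hp => ?_
      rw [hN, filter_filter]
      simp only
      congr 1
      ext t
      simp only [mem_filter, mem_univ, true_and]
      constructor
      · intro ht
        rw [← ht, mem_product] at hp
        exact ⟨hp, ht⟩
      · exact fun ht => ht.2
    · intro t ht
      have := (mem_filter.1 (mem_coe.1 ht)).2
      exact mem_coe.2 (mem_product.2 this)
  -- triples outside
  have c1 : (univ.filter fun t : I × I × I => σ Z t.2.1 t.2.2 ∉ K).card = n * ee σ K Z := by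
    have : (univ.filter fun t : I × I × I => σ Z t.2.1 t.2.2 ∉ K) =
        (univ : Finset I) ×ˢ (univ.filter fun p : I × I => σ Z p.1 p.2 ∉ K) := by
      ext t; simp
    rw [this, card_product, card_univ, hI]; rfl
  have c2 : (univ.filter fun t : I × I × I => σ Z t.1 t.2.1 ∉ K).card = n * ee σ K Z := by
    have h1 : (univ.filter fun t : I × I × I => σ Z t.1 t.2.1 ∉ K).card =
        ((univ.filter fun p : I × I => σ Z p.1 p.2 ∉ K) ×ˢ (univ : Finset I)).card := by
      apply card_bij (fun t _ => ((t.1, t.2.1), t.2.2))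
      · intro t ht; simpa using ht
      · rintro ⟨a, b, c⟩ _ ⟨a', b', c'⟩ _ he
        simp only [Prod.mk.injEq] at he
        simp [he.1.1, he.1.2, he.2]
      · rintro ⟨⟨a, b⟩, c⟩ ht
        exact ⟨(a, b, c), by simpa using ht, rfl⟩
    rw [h1, card_product, card_univ, hI, mul_comm]; rfl
  have c3 : (univ.filter fun t : I × I × I => σ Z t.1 t.2.2 ∉ K).card = n * ee σ K Z := by
    have h1 : (univ.filter fun t : I × I × I => σ Z t.1 t.2.2 ∉ K).card =
        ((univ.filter fun p : I × I => σ Z p.1 p.2 ∉ K) ×ˢ (univ : Finset I)).card := by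
      apply card_bij (fun t _ => ((t.1, t.2.2), t.2.1))
      · intro t ht; simpa using ht
      · rintro ⟨a, b, c⟩ _ ⟨a', b', c'⟩ _ he
        simp only [Prod.mk.injEq] at he
        simp [he.1.1, he.1.2, he.2]
      · rintro ⟨⟨a, b⟩, c⟩ ht
        exact ⟨(a, c, b), by simpa using ht, rfl⟩
    rw [h1, card_product, card_univ, hI, mul_comm]; rfl
  have e2 : n * (n * n) ≤ M1 + 2 * (n * ee σ K Z) := by
    have h1 : (univ : Finset (I × I × I)) ⊆
        (univ.filter fun t : I × I × I => σ Z t.2.1 t.2.2 ∈ K ∧ σ Z t.1 t.2.1 ∈ K) ∪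
        ((univ.filter fun t : I × I × I => σ Z t.2.1 t.2.2 ∉ K) ∪
         (univ.filter fun t : I × I × I => σ Z t.1 t.2.1 ∉ K)) := by
      intro t _
      simp only [mem_union, mem_filter, mem_univ, true_and]
      tauto
    have h2 := (card_le_card h1).trans (card_union_le _ _)
    have h3 := card_union_le (univ.filter fun t : I × I × I => σ Z t.2.1 t.2.2 ∉ K)
      (univ.filter fun t : I × I × I => σ Z t.1 t.2.1 ∉ K)
    rw [c1, c2] at h3
    have h4 : (univ : Finset (I × I × I)).card = n * (n * n) := by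
      rw [card_univ, Fintype.card_prod, Fintype.card_prod, hI]
    rw [h4] at h2
    omega
  -- bad pairs
  set B := (K ×ˢ K).filter (fun p => p.1 * p.2 ∉ K) with hB
  have e3 : ∑ p ∈ B, N p ≤ n * ee σ K Z := by
    rw [← c3]
    have h1 : ∑ p ∈ B, N p = ((univ.filter fun t : I × I × I =>
        (σ Z t.2.1 t.2.2, σ Z t.1 t.2.1) ∈ B)).card := by
      rw [card_eq_sum_card_fiberwise (s := univ.filter fun t : I × I × I =>
        (σ Z t.2.1 t.2.2, σ Z t.1 t.2.1) ∈ B) (t := B)
        (f := fun t : I × I × I => (σ Z t.2.1 t.2.2, σ Z t.1 t.2.1))]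
      · refine sum_congr rfl fun p hp => ?_
        rw [hN, filter_filter]
        simp only
        congr 1
        ext t
        simp only [mem_filter, mem_univ, true_and]
        exact ⟨fun ht => ⟨by rw [ht]; exact hp, ht⟩, fun ht => ht.2⟩
      · intro t ht
        exact mem_coe.2 (mem_filter.1 (mem_coe.1 ht)).2
    rw [h1]
    apply card_le_card
    intro t ht
    rw [mem_filter] at ht ⊢
    refine ⟨mem_univ _, ?_⟩
    have h2 := (mem_filter.1 ht.2).2
    simp only at h2
    rwa [h.comp Z hZ] at h2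
  have e4 : n * B.card + ∑ p ∈ K ×ˢ K, N p ≤ n * (n * n) + ∑ p ∈ B, N p := by
    have h1 : n * B.card = ∑ p ∈ K ×ˢ K, if p.1 * p.2 ∉ K then n else 0 := by
      rw [← sum_filter, sum_const, smul_eq_mul, mul_comm]
    have h2 : ∑ p ∈ B, N p = ∑ p ∈ K ×ˢ K, if p.1 * p.2 ∉ K then N p else 0 := by
      rw [← sum_filter]
    have h3 : n * (n * n) = ∑ p ∈ K ×ˢ K, n := by
      rw [sum_const, card_product, hK, smul_eq_mul, mul_comm]
    rw [h1, h2, h3, ← sum_add_distrib, ← sum_add_distrib]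
    apply sum_le_sum
    intro p _
    have := hN1 p
    split_ifs <;> omega
  rw [e1] at e4
  have e5 : n * B.card ≤ n * (3 * ee σ K Z) := by
    have : n * (3 * ee σ K Z) = 3 * (n * ee σ K Z) := by ring
    rw [this]
    omega
  exact Nat.le_of_mul_le_mul_left e5 hn

theorem sum_ee_le (h : IsCoord n S σ Y) (hn : 0 < n) (c d : I) :
    ∑ Z ∈ S.erase Y, ee σ (FF S σ c d) Z ≤
      ∑ a : I, ∑ b : I, if a ≠ b then dd S σ a b c d else 0 := by
  set K := FF S σ c d with hK
  have h1K : (1 : Equiv.Perm J) ∈ K := mem_FF.2 ⟨Y, h.memY, h.base c d⟩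
  calc ∑ Z ∈ S.erase Y, ee σ K Z
      ≤ ∑ Z ∈ S, ee σ K Z := sum_le_sum_of_subset (erase_subset _ _)
    _ = ∑ a : I, ∑ b : I, (S.filter fun Z => σ Z a b ∉ K).card := by
        unfold ee
        simp only [card_filter, Fintype.sum_prod_type]
        rw [sum_comm]
        refine sum_congr rfl fun a _ => ?_
        rw [sum_comm]
    _ ≤ _ := by
        refine sum_le_sum fun a _ => sum_le_sum fun b _ => ?_
        by_cases hab : a = b
        · subst hab
          rw [if_neg (by simp), Nat.le_zero, card_eq_zero, filter_eq_empty_iff]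
          intro Z hZ
          rw [h.self hZ, not_not]
          exact h1K
        · rw [if_pos hab]
          unfold dd
          apply h.card_filter_le_FF hn hab (fun f => f ∉ K)
          intro Z hZ hf
          rw [mem_sdiff]
          exact ⟨mem_FF.2 ⟨Z, hZ, rfl⟩, hf⟩

theorem exists_group (h : IsCoord n S σ Y) (hn : 3 ≤ n)
    (hT : 294 * TT S σ < n ^ 3 * (n - 2)) :
    ∃ H : Subgroup (Equiv.Perm J),
      (∀ j j', ∃ g ∈ H, g j = j') ∧ (∀ g ∈ H, ∀ j, g j = j → g = 1) ∧
      n * (n - 2) * (∑ Z ∈ S.erase Y, (univ.filter fun p : I × I => σ Z p.1 p.2 ∉ H).card) ≤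
        66 * (n - 1) * TT S σ := by
  have hn0 : 0 < n := by omega
  obtain ⟨c, d, hcd, hE⟩ := average h hn
  set E := ∑ a : I, ∑ b : I, (if a ≠ b then dd S σ a b c d else 0) with hEd
  set K := FF S σ c d with hK
  have hKc : K.card = n := h.FF_card hn0 hcd
  have hsum : ∑ Z ∈ S.erase Y, ee σ K Z ≤ E := sum_ee_le h hn0 c d
  have hSc : (S.erase Y).card = n - 1 := by rw [card_erase_of_mem h.memY, h.cardS]
  set bad := ((K ×ˢ K).filter (fun p => p.1 * p.2 ∉ K)).card with hbad
  have hb1 : (n - 1) * bad ≤ 3 * E := by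
    calc (n - 1) * bad = ∑ Z ∈ S.erase Y, bad := by rw [sum_const, hSc, smul_eq_mul]
      _ ≤ ∑ Z ∈ S.erase Y, 3 * ee σ K Z := by
          apply sum_le_sum
          intro Z hZ
          rw [mem_erase] at hZ
          exact bad_le h hn0 hZ.2 hZ.1 K hKc
      _ = 3 * ∑ Z ∈ S.erase Y, ee σ K Z := by rw [mul_sum]
      _ ≤ 3 * E := Nat.mul_le_mul_left _ hsum
  have hn1 : 0 < n - 1 := by omega
  have hn2 : 0 < n - 2 := by omega
  have hE2 : 98 * E < (n - 1) * n ^ 2 := by
    have h1 : (n * (n - 2)) * (98 * E) < (n * (n - 2)) * ((n - 1) * n ^ 2) := by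
      calc (n * (n - 2)) * (98 * E) = 98 * (n * (n - 2) * E) := by ring
        _ ≤ 98 * (3 * (n - 1) * TT S σ) := Nat.mul_le_mul_left _ hE
        _ = (n - 1) * (294 * TT S σ) := by ring
        _ < (n - 1) * (n ^ 3 * (n - 2)) := (Nat.mul_lt_mul_left hn1).2 hT
        _ = _ := by ring
    exact lt_of_mul_lt_mul_left h1 (Nat.zero_le _)
  have hb2 : 98 * bad < 3 * K.card ^ 2 := by
    rw [hKc]
    have h1 : (n - 1) * (98 * bad) < (n - 1) * (3 * n ^ 2) := by
      calc (n - 1) * (98 * bad) = 98 * ((n - 1) * bad) := by ring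
        _ ≤ 98 * (3 * E) := Nat.mul_le_mul_left _ hb1
        _ = 3 * (98 * E) := by ring
        _ < 3 * ((n - 1) * n ^ 2) := by omega
        _ = _ := by ring
    exact lt_of_mul_lt_mul_left h1 (Nat.zero_le _)
  obtain ⟨H, hH1, hH2, hH3⟩ := near_subgroup K (h.FF_sharp hcd) (by rw [hKc, h.cardJ]) hb2
  refine ⟨H, hH1, hH2, ?_⟩
  rw [hKc] at hH3
  set m := (K.filter fun f => f ∉ H).card with hm
  have hR : ∀ Z ∈ S.erase Y, (univ.filter fun p : I × I => σ Z p.1 p.2 ∉ H).card ≤
      ee σ K Z + 7 * bad := by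
    intro Z hZ
    rw [mem_erase] at hZ
    have h1 : (univ.filter fun p : I × I => σ Z p.1 p.2 ∉ H) ⊆
        (univ.filter fun p : I × I => σ Z p.1 p.2 ∉ K) ∪
        (univ.filter fun p : I × I => σ Z p.1 p.2 ∈ K.filter fun f => f ∉ H) := by
      intro p hp
      simp only [mem_filter, mem_univ, true_and, mem_union] at hp ⊢
      tauto
    have h2 : (univ.filter fun p : I × I => σ Z p.1 p.2 ∈ K.filter fun f => f ∉ H).card ≤
        m * n := by
      have h3 : (univ.filter fun p : I × I => σ Z p.1 p.2 ∈ K.filter fun f => f ∉ H).card ≤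
          ((K.filter fun f => f ∉ H) ×ˢ (univ : Finset I)).card := by
        apply card_le_card_of_injOn (fun p : I × I => (σ Z p.1 p.2, p.1))
        · intro p hp
          exact mem_coe.2 (mem_product.2 ⟨(mem_filter.1 (mem_coe.1 hp)).2, mem_univ _⟩)
        · rintro ⟨a, b⟩ _ ⟨a', b'⟩ _ he
          simp only [Prod.mk.injEq] at he
          obtain ⟨he1, he2⟩ := he
          subst he2
          rw [right_inj h hn0 hZ.2 hZ.1 he1]
      rwa [card_product, card_univ, h.cardI] at h3
    have h4 := (card_le_card h1).trans (card_union_le _ _)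
    have h5 : (univ.filter fun p : I × I => σ Z p.1 p.2 ∉ K).card = ee σ K Z := rfl
    omega
  have hR2 : ∑ Z ∈ S.erase Y, (univ.filter fun p : I × I => σ Z p.1 p.2 ∉ H).card ≤ 22 * E := by
    calc _ ≤ ∑ Z ∈ S.erase Y, (ee σ K Z + 7 * bad) := sum_le_sum hR
      _ = ∑ Z ∈ S.erase Y, ee σ K Z + 7 * ((n - 1) * bad) := by
          rw [sum_add_distrib, sum_const, hSc, smul_eq_mul]; ring
      _ ≤ _ := by omega
  calc _ ≤ n * (n - 2) * (22 * E) := Nat.mul_le_mul_left _ hR2
    _ = 22 * (n * (n - 2) * E) := by ring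
    _ ≤ 22 * (3 * (n - 1) * TT S σ) := Nat.mul_le_mul_left _ hE
    _ = _ := by ring

end Pool.Agent.H178.TwoA
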