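import Mathlib
import Pool.Agent.H178.TwoB
import Pool.Graph.R_pool_sql_team_seeded_620a6dc7.helper300_ppc_.Main

set_option autoImplicit false
set_option linter.unusedSectionVars false

/-!
# Two points of a line of a plane whose order is not a prime power
-/

namespace Pool.Agent.H178.TwoA

open Finset H300PPC Configuration
open scoped Classical

theorem dd_le {I J D : Type*} [Fintype I] [Fintype J] (S : Finset D)
    (σ : D → I → I → Equiv.Perm J) (a b c d : I) :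
    dd S σ a b c d ≤ (S.filter fun Z => σ Z a b ∉ FF S σ c d).card := by
  unfold dd
  calc (FF S σ a b \ FF S σ c d).card
      ≤ ((S.filter fun Z => σ Z a b ∉ FF S σ c d).image fun Z => σ Z a b).card := by
        apply card_le_card
        intro f hf
        rw [mem_sdiff] at hf
        obtain ⟨Z, hZ, rfl⟩ := mem_FF.1 hf.1
        exact mem_image.2 ⟨Z, mem_filter.2 ⟨hZ, hf.2⟩, rfl⟩
    _ ≤ _ := card_image_le

/-- the triples of rows with the points whose permutation does not occur -/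
noncomputable def bads {I J D : Type*} [Fintype I] [Fintype J] (S : Finset D)
    (σ : D → I → I → Equiv.Perm J) : Finset (I × I × I × D) :=
  ((univ : Finset I) ×ˢ (univ : Finset I) ×ˢ (univ : Finset I) ×ˢ S).filter
    fun t => t.1 ≠ t.2.1 ∧ t.1 ≠ t.2.2.1 ∧ t.2.1 ≠ t.2.2.1 ∧
      σ t.2.2.2 t.2.1 t.2.2.1 ∉ FF S σ t.1 t.2.2.1

theorem mem_bads {I J D : Type*} [Fintype I] [Fintype J] {S : Finset D}
    {σ : D → I → I → Equiv.Perm J} {a b c : I} {Z : D} :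
    (a, b, c, Z) ∈ bads S σ ↔ a ≠ b ∧ a ≠ c ∧ b ≠ c ∧ Z ∈ S ∧ σ Z b c ∉ FF S σ a c := by
  unfold bads
  rw [mem_filter]
  simp only [mem_product, mem_univ, true_and]
  tauto

theorem TT_le_bads {I J D : Type*} [Fintype I] [Fintype J] (S : Finset D)
    (σ : D → I → I → Equiv.Perm J) : TT S σ ≤ (bads S σ).card := by
  have h1 : (bads S σ).card = ∑ a : I, ∑ b : I, ∑ c : I,
      if a ≠ b ∧ a ≠ c ∧ b ≠ c then (S.filter fun Z => σ Z b c ∉ FF S σ a c).card else 0 := by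
    unfold bads
    rw [card_filter, sum_product]
    refine sum_congr rfl fun a _ => ?_
    rw [sum_product]
    refine sum_congr rfl fun b _ => ?_
    rw [sum_product]
    refine sum_congr rfl fun c _ => ?_
    by_cases h : a ≠ b ∧ a ≠ c ∧ b ≠ c
    · rw [if_pos h, card_filter]
      refine sum_congr rfl fun Z hZ => ?_
      simp only
      congr 1
      simp only [eq_iff_iff]
      tauto
    · rw [if_neg h]
      apply sum_eq_zero
      intro Z _
      rw [if_neg]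
      simp only
      tauto
  rw [h1]
  -- the term `(p, q, x)` of `TT` is the term `(x, p, q)`
  have h2 : TT S σ = ∑ a : I, ∑ b : I, ∑ c : I,
        (if b ≠ c ∧ a ≠ c then dd S σ b c a c else 0) := by
    unfold TT
    have := Fintype.sum_equiv
      (⟨fun t => (t.2.2, t.1, t.2.1), fun t => (t.2.1, t.2.2, t.1), fun _ => rfl, fun _ => rfl⟩ :
        (I × I × I) ≃ (I × I × I))
      (fun t => if t.1 ≠ t.2.1 ∧ t.2.2 ≠ t.2.1 then dd S σ t.1 t.2.1 t.2.2 t.2.1 else 0)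
      (fun t => if t.2.1 ≠ t.2.2 ∧ t.1 ≠ t.2.2 then dd S σ t.2.1 t.2.2 t.1 t.2.2 else 0)
      (fun _ => rfl)
    simpa only [Fintype.sum_prod_type] using this
  rw [h2]
  refine sum_le_sum fun a _ => sum_le_sum fun b _ => sum_le_sum fun c _ => ?_
  by_cases hab : a = b
  · subst hab
    rw [dd_self]
    simp
  · by_cases h : b ≠ c ∧ a ≠ c
    · rw [if_pos h, if_pos ⟨hab, h.2, h.1⟩]
      exact dd_le S σ b c a c
    · rw [if_neg h]
      exact Nat.zero_le _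

/-- the pairs of columns for which a configuration does not close -/
noncomputable def opens {I J D : Type*} [Fintype J] (S : Finset D)
    (σ : D → I → I → Equiv.Perm J) (t : I × I × I × D) : Finset (J × J) :=
  univ.filter fun p => ∀ Z' ∈ S,
    ¬ (σ Z' t.1 t.2.2.1 p.1 = σ t.2.2.2 t.2.1 t.2.2.1 p.1 ∧
      σ Z' t.1 t.2.2.1 p.2 = σ t.2.2.2 t.2.1 t.2.2.1 p.2)

theorem mem_opens {I J D : Type*} [Fintype J] {S : Finset D}
    {σ : D → I → I → Equiv.Perm J} {t : I × I × I × D} {p : J × J} :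
    p ∈ opens S σ t ↔ ∀ Z' ∈ S,
      ¬ (σ Z' t.1 t.2.2.1 p.1 = σ t.2.2.2 t.2.1 t.2.2.1 p.1 ∧
        σ Z' t.1 t.2.2.1 p.2 = σ t.2.2.2 t.2.1 t.2.2.1 p.2) := by
  unfold opens
  rw [mem_filter]
  simp only [mem_univ, true_and]

theorem opens_card {I J D : Type*} [Fintype I] [Fintype J] {n : ℕ} {S : Finset D}
    {σ : D → I → I → Equiv.Perm J} {Y : D} (hC : IsCoord n S σ Y)
    (t : I × I × I × D) (ht : t ∈ bads S σ) : 2 * n ≤ (opens S σ t).card := by
  obtain ⟨a, b, c, Z⟩ := t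
  obtain ⟨hab, hac, hbc, hZ, hne⟩ := mem_bads.1 ht
  set f := σ Z b c with hf
  have key : ∀ j : J, 2 ≤ (univ.filter fun j' : J => (j, j') ∈ opens S σ (a, b, c, Z)).card := by
    intro j
    obtain ⟨Z0, hZ0, h0⟩ := hC.ex a c hac j (f j)
    set g := σ Z0 a c with hg
    have hfg : g⁻¹ * f ≠ 1 := by
      intro h
      apply hne
      rw [mem_FF]
      exact ⟨Z0, hZ0, (inv_mul_eq_one.1 h)⟩
    have h2 := Equiv.Perm.two_le_card_support_of_ne_one hfg
    refine h2.trans (card_le_card ?_)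
    intro j' hj'
    rw [Equiv.Perm.mem_support] at hj'
    rw [mem_filter]
    refine ⟨mem_univ _, ?_⟩
    rw [mem_opens]
    rintro Z' hZ' ⟨h3, h4⟩
    simp only at h3 h4
    have h5 : Z' = Z0 := hC.inj hac hZ' hZ0 j (by rw [h3, ← hf, ← h0])
    apply hj'
    rw [Equiv.Perm.mul_apply, Equiv.Perm.inv_eq_iff_eq, hg, ← h5, h4]
  calc 2 * n = ∑ j : J, 2 := by
        rw [sum_const, card_univ, hC.cardJ, smul_eq_mul, mul_comm]
    _ ≤ ∑ j : J, (univ.filter fun j' : J => (j, j') ∈ opens S σ (a, b, c, Z)).card :=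
        sum_le_sum fun j _ => key j
    _ = (opens S σ (a, b, c, Z)).card := by
        have h1 : (opens S σ (a, b, c, Z)).card = ∑ j : J, ∑ j' : J,
            if (j, j') ∈ opens S σ (a, b, c, Z) then 1 else 0 := by
          rw [← Fintype.sum_prod_type (f := fun p : J × J =>
            if p ∈ opens S σ (a, b, c, Z) then 1 else 0), ← card_filter]
          congr 1
          ext p
          simp
        rw [h1]
        exact sum_congr rfl fun j _ => by rw [card_filter]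

section Plane

variable {P L : Type*} [Membership P L] [ProjectivePlane P L] [Fintype P] [Fintype L]

theorem isPrimePow_of_TT {l : L} {X Y : P} (hX : X ∈ l) (hY : Y ∈ l) (hXY : X ≠ Y) (n : ℕ)
    (hn : n = ProjectivePlane.order P L) (h6 : 6 ≤ n)
    (σ : P → Pencil l X → Pencil l X → Equiv.Perm (Pencil l Y))
    (hσ : ∀ Z, Z ∈ l → Z ≠ X → ∀ (a a' : Pencil l X) (b b' : Pencil l Y),
        σ Z a a' b = b' ↔ RR l Z (a : L) (b : L) (a' : L) (b' : L))
    (ρ : P → Pencil l Y → Pencil l Y → Equiv.Perm (Pencil l X))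
    (hρ : ∀ Z, Z ∈ l → Z ≠ Y → ∀ (a a' : Pencil l Y) (b b' : Pencil l X),
        ρ Z a a' b = b' ↔ RR l Z (a : L) (b : L) (a' : L) (b' : L))
    (hT : 294 * (TT (Pts l X) σ + TT (Pts l Y) ρ) < n ^ 3 * (n - 2)) : IsPrimePow n := by
  have hCX := isCoord hX hY hXY σ hσ
  have hCY := isCoord hY hX hXY.symm ρ hρ
  rw [← hn] at hCX hCY
  obtain ⟨H, hH1, hH2, hH3⟩ := exists_group hCX (by omega) (by omega)
  obtain ⟨K, hK1, hK2, hK3⟩ := exists_group hCY (by omega) (by omega)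
  set S0 := univ.filter (fun Z : P => Z ∈ l ∧ Z ≠ X ∧ Z ≠ Y) with hS0
  have hS0X : (Pts l X).erase Y = S0 := by
    ext Z
    simp only [hS0, Pts, mem_filter, mem_univ, true_and, mem_erase]
    tauto
  have hS0Y : (Pts l Y).erase X = S0 := by
    ext Z
    simp only [hS0, Pts, mem_filter, mem_univ, true_and, mem_erase]
    tauto
  have hS0card : S0.card + 1 = n := by
    rw [← hS0X, card_erase_of_mem hCX.memY, hCX.cardS]
    omega
  have hmemS : ∀ Z ∈ S0, Z ∈ l ∧ Z ≠ X ∧ Z ≠ Y := by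
    intro Z hZ
    simpa [hS0] using hZ
  have hsubX : S0 ⊆ Pts l X := by
    intro Z hZ
    have := hmemS Z hZ
    simp only [Pts, mem_filter, mem_univ, true_and]
    tauto
  have hsubY : S0 ⊆ Pts l Y := by
    intro Z hZ
    have := hmemS Z hZ
    simp only [Pts, mem_filter, mem_univ, true_and]
    tauto
  rw [hS0X] at hH3
  rw [hS0Y] at hK3
  apply prime_power_of_linked n (by omega) hCX.cardI hCX.cardJ S0 hS0card σ ρ
    (fun Z hZ => hCX.comp Z (hsubX hZ)) (fun Z hZ => hCY.comp Z (hsubY hZ))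
    ?_ (fun Z hZ W hW a b hab j he => hCX.inj hab (hsubX hZ) (hsubX hW) j he)
    H hH1 hH2 K hK1 hK2
  · set RX := ∑ Z ∈ S0, (univ.filter
      (fun q : Pencil l X × Pencil l X => σ Z q.1 q.2 ∉ H)).card with hRXd
    set RY := ∑ Z ∈ S0, (univ.filter
      (fun q : Pencil l Y × Pencil l Y => ρ Z q.1 q.2 ∉ K)).card with hRYd
    have hn1 : 0 < n - 1 := by omega
    have hn2 : 0 < n - 2 := by omega
    have h1 : n * (n - 2) * (RX + RY) ≤ 66 * (n - 1) * (TT (Pts l X) σ + TT (Pts l Y) ρ) := by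
      rw [mul_add, mul_add]
      exact Nat.add_le_add hH3 hK3
    have h2 : n * (n - 2) * (4 * (RX + RY)) < n * (n - 2) * ((n - 1) * n ^ 2) := by
      calc n * (n - 2) * (4 * (RX + RY)) = 4 * (n * (n - 2) * (RX + RY)) := by ring
        _ ≤ 4 * (66 * (n - 1) * (TT (Pts l X) σ + TT (Pts l Y) ρ)) := Nat.mul_le_mul_left _ h1
        _ = (n - 1) * (264 * (TT (Pts l X) σ + TT (Pts l Y) ρ)) := by ring
        _ ≤ (n - 1) * (294 * (TT (Pts l X) σ + TT (Pts l Y) ρ)) :=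
            Nat.mul_le_mul_left _ (by omega)
        _ < (n - 1) * (n ^ 3 * (n - 2)) := (Nat.mul_lt_mul_left hn1).2 hT
        _ = _ := by ring
    exact lt_of_mul_lt_mul_left h2 (Nat.zero_le _)
  · intro Z hZ a b c d
    have h1 := hmemS Z hZ
    rw [hσ Z h1.1 h1.2.1 a b c d, hρ Z h1.1 h1.2.2 c d a b]
    exact ⟨RR_swap, RR_swap⟩

/-- The lines `a`, `b`, `c` through `V` are distinct and different from `l`, the points `W` and `Z`
are on `l`, and the product of the perspectivity `a → b` with centre `W` and the perspectivity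
`b → c` with centre `Z` is not a perspectivity `a → c` with its centre on `l`. -/
def FailingProduct (l : L) (V W : P) (a b c : L) (Z : P) : Prop :=
  (V ∈ a ∧ a ≠ l) ∧ (V ∈ b ∧ b ≠ l) ∧ (V ∈ c ∧ c ≠ l) ∧ a ≠ b ∧ a ≠ c ∧ b ≠ c ∧
  Z ∈ l ∧ Z ≠ V ∧
  ¬ ∃ z ∈ l, ∀ p q r : P, p ∈ a → q ∈ b → r ∈ c → p ∉ l → q ∉ l → r ∉ l →
    (∃ m : L, W ∈ m ∧ p ∈ m ∧ q ∈ m) → (∃ m : L, Z ∈ m ∧ q ∈ m ∧ r ∈ m) →
    (∃ m : L, z ∈ m ∧ p ∈ m ∧ r ∈ m)

/-- The lines `pq` and `rs` meet on `l`. -/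
def MeetOn (l : L) (p q r s : P) : Prop :=
  ∃ z ∈ l, (∃ m : L, z ∈ m ∧ p ∈ m ∧ q ∈ m) ∧ ∃ m : L, z ∈ m ∧ r ∈ m ∧ s ∈ m

/-- The triangles `A B C` and `A' B' C'` are in perspective from `V`, the lines `AB` and `A'B'`
meet in `W`, the lines `BC` and `B'C'` meet on `l`, but `AC` and `A'C'` do not meet on `l`. -/
def OpenTriangles (l : L) (V W : P) (A A' B B' C C' : P) : Prop :=
  (A ∉ l ∧ A' ∉ l) ∧ (B ∉ l ∧ B' ∉ l) ∧ (C ∉ l ∧ C' ∉ l) ∧
  (∃ a b c : L, a ≠ b ∧ a ≠ c ∧ b ≠ c ∧ (V ∈ a ∧ A ∈ a ∧ A' ∈ a) ∧ (V ∈ b ∧ B ∈ b ∧ B' ∈ b) ∧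
    (V ∈ c ∧ C ∈ c ∧ C' ∈ c)) ∧
  ((∃ m : L, W ∈ m ∧ A ∈ m ∧ B ∈ m) ∧ ∃ m : L, W ∈ m ∧ A' ∈ m ∧ B' ∈ m) ∧
  MeetOn l B C B' C' ∧ ¬ MeetOn l A C A' C'

/-- the number of the failing products -/
noncomputable def failCount (l : L) (V W : P) : ℕ :=
  (univ.filter fun t : L × L × L × P => FailingProduct l V W t.1 t.2.1 t.2.2.1 t.2.2.2).card

/-- the number of the pairs of triangles -/
noncomputable def openCount (l : L) (V W : P) : ℕ :=
  (univ.filter fun t : P × P × P × P × P × P =>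
    OpenTriangles l V W t.1 t.2.1 t.2.2.1 t.2.2.2.1 t.2.2.2.2.1 t.2.2.2.2.2).card

theorem bads_le_fail {l : L} {X Y : P} (hX : X ∈ l) (hY : Y ∈ l) (hXY : X ≠ Y)
    (σ : P → Pencil l X → Pencil l X → Equiv.Perm (Pencil l Y))
    (hσ : ∀ Z, Z ∈ l → Z ≠ X → ∀ (a a' : Pencil l X) (b b' : Pencil l Y),
        σ Z a a' b = b' ↔ RR l Z (a : L) (b : L) (a' : L) (b' : L)) :
    (bads (Pts l X) σ).card ≤ failCount l X Y := by
  have hC := isCoord hX hY hXY σ hσ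
  have hJ : Nonempty (Pencil l Y) := by
    rw [← Fintype.card_pos_iff, hC.cardJ]
    exact Nat.lt_trans Nat.zero_lt_one (ProjectivePlane.one_lt_order P L)
  unfold failCount
  apply card_le_card_of_injOn (fun t => ((t.1 : L), (t.2.1 : L), (t.2.2.1 : L), t.2.2.2))
  · rintro ⟨a, b, c, Z⟩ ht
    obtain ⟨hab, hac, hbc, hZ, hne⟩ := mem_bads.1 (mem_coe.1 ht)
    have hZ' : Z ∈ l ∧ Z ≠ X := by simpa [Pts] using hZ
    refine mem_coe.2 (mem_filter.2 ⟨mem_univ _, a.2, b.2, c.2, fun h => hab (Subtype.ext h),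
      fun h => hac (Subtype.ext h), fun h => hbc (Subtype.ext h), hZ'.1, hZ'.2, ?_⟩)
    intro hcl
    apply hne
    have := exact_of_closes hX hY hXY σ hσ a b c hac Y Z hY hXY.symm hZ'.1 hZ'.2 hJ hcl
    rwa [hC.base, mul_one] at this
  · rintro ⟨a, b, c, Z⟩ _ ⟨a', b', c', Z'⟩ _ h
    simp only [Prod.mk.injEq] at h
    rw [Subtype.ext h.1, Subtype.ext h.2.1, Subtype.ext h.2.2.1, h.2.2.2]

theorem bads_le_open {l : L} {X Y : P} (hX : X ∈ l) (hY : Y ∈ l) (hXY : X ≠ Y)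
    (σ : P → Pencil l X → Pencil l X → Equiv.Perm (Pencil l Y))
    (hσ : ∀ Z, Z ∈ l → Z ≠ X → ∀ (a a' : Pencil l X) (b b' : Pencil l Y),
        σ Z a a' b = b' ↔ RR l Z (a : L) (b : L) (a' : L) (b' : L)) :
    2 * ProjectivePlane.order P L * (bads (Pts l X) σ).card ≤ openCount l X Y := by
  have hC := isCoord hX hY hXY σ hσ
  -- the intersections
  have hpt : ∀ (a : Pencil l X) (j : Pencil l Y), ∃ p : P, p ∈ (a : L) ∧ p ∈ (j : L) ∧ p ∉ l := by
    intro a j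
    obtain ⟨p, ⟨h1, h2⟩, _⟩ := HasPoints.existsUnique_point P L (a : L) (j : L)
      (pencil_ne hX hY hXY a.2.1 a.2.2 j.2.1)
    exact ⟨p, h1, h2, pt_off hX hY hXY a.2.1 a.2.2 j.2.1 j.2.2 h1 h2⟩
  choose pt hpt1 hpt2 hpt3 using hpt
  have hptu : ∀ (a : Pencil l X) (j : Pencil l Y) (p : P), p ∈ (a : L) → p ∈ (j : L) →
      p = pt a j := by
    intro a j p h1 h2
    exact uniq_point (pencil_ne hX hY hXY a.2.1 a.2.2 j.2.1) h1 (hpt1 a j) h2 (hpt2 a j)
  have hinj1 : ∀ (a a' : Pencil l X) (j j' : Pencil l Y), pt a j = pt a' j' → a = a' ∧ j = j' := by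
    intro a a' j j' h
    have h1 := hpt1 a' j'
    have h2 := hpt2 a' j'
    rw [← h] at h1 h2
    have hpX : X ≠ pt a j := by
      intro h; exact hpt3 a j (h ▸ hX)
    have hpY : Y ≠ pt a j := by
      intro h; exact hpt3 a j (h ▸ hY)
    exact ⟨Subtype.ext (uniq_line hpX a.2.1 (hpt1 a j) a'.2.1 h1),
      Subtype.ext (uniq_line hpY j.2.1 (hpt2 a j) j'.2.1 h2)⟩
  -- collinearity
  have hcol : ∀ Z, Z ∈ l → Z ≠ X → ∀ (a c : Pencil l X) (j k : Pencil l Y),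
      σ Z a c j = k ↔ ∃ m : L, Z ∈ m ∧ pt a j ∈ m ∧ pt c k ∈ m := by
    intro Z hZ hZX a c j k
    rw [hσ Z hZ hZX]
    constructor
    · rintro ⟨m, -, h1, ⟨p, h2, h3, h4⟩, ⟨q, h5, h6, h7⟩⟩
      refine ⟨m, h1, ?_, ?_⟩
      · rw [← hptu a j p h2 h3]; exact h4
      · rw [← hptu c k q h5 h6]; exact h7
    · rintro ⟨m, h1, h2, h3⟩
      refine ⟨m, ?_, h1, ⟨pt a j, hpt1 a j, hpt2 a j, h2⟩, ⟨pt c k, hpt1 c k, hpt2 c k, h3⟩⟩
      rintro rfl
      exact hpt3 a j h2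
  -- the sum over the failing products
  have hsum : ∑ t ∈ bads (Pts l X) σ, 2 * ProjectivePlane.order P L ≤ ∑ t ∈ bads (Pts l X) σ, (opens (Pts l X) σ t).card :=
    sum_le_sum fun t ht => opens_card hC t ht
  rw [sum_const, smul_eq_mul, mul_comm] at hsum
  refine hsum.trans ?_
  rw [← card_sigma]
  unfold openCount
  apply card_le_card_of_injOn
    (fun s : (_ : Pencil l X × Pencil l X × Pencil l X × P) × (Pencil l Y × Pencil l Y) =>
      (pt s.1.1 s.2.1, pt s.1.1 s.2.2, pt s.1.2.1 s.2.1, pt s.1.2.1 s.2.2,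
        pt s.1.2.2.1 (σ s.1.2.2.2 s.1.2.1 s.1.2.2.1 s.2.1),
        pt s.1.2.2.1 (σ s.1.2.2.2 s.1.2.1 s.1.2.2.1 s.2.2)))
  · rintro ⟨⟨a, b, c, Z⟩, ⟨j, j'⟩⟩ hs
    rw [mem_coe, mem_sigma] at hs
    obtain ⟨hs1, hs2⟩ := hs
    obtain ⟨hab, hac, hbc, hZ, hne⟩ := mem_bads.1 hs1
    have hZ' : Z ∈ l ∧ Z ≠ X := by simpa [Pts] using hZ
    have hs2' := mem_opens.1 hs2
    simp only at hs2'
    rw [mem_coe, mem_filter]
    refine ⟨mem_univ _, ⟨hpt3 _ _, hpt3 _ _⟩, ⟨hpt3 _ _, hpt3 _ _⟩, ⟨hpt3 _ _, hpt3 _ _⟩,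
      ⟨a, b, c, fun h => hab (Subtype.ext h), fun h => hac (Subtype.ext h),
        fun h => hbc (Subtype.ext h), ⟨a.2.1, hpt1 _ _, hpt1 _ _⟩, ⟨b.2.1, hpt1 _ _, hpt1 _ _⟩,
        ⟨c.2.1, hpt1 _ _, hpt1 _ _⟩⟩,
      ⟨⟨j, j.2.1, hpt2 _ _, hpt2 _ _⟩, ⟨j', j'.2.1, hpt2 _ _, hpt2 _ _⟩⟩,
      ⟨Z, hZ'.1, (hcol Z hZ'.1 hZ'.2 b c j _).1 rfl, (hcol Z hZ'.1 hZ'.2 b c j' _).1 rfl⟩, ?_⟩
    rintro ⟨z, hz, h1, h2⟩
    simp only at h1 h2
    have hzX : z ≠ X := by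
      rintro rfl
      obtain ⟨m, hm1, hm2, hm3⟩ := h1
      have e1 : m = (a : L) := uniq_line (p := z) (q := pt a j)
        (by rintro h; exact hpt3 a j (h ▸ hX)) hm1 hm2 a.2.1 (hpt1 a j)
      have e2 : m = (c : L) := uniq_line (p := z) (q := pt c (σ Z b c j))
        (by rintro h; exact hpt3 c _ (h ▸ hX)) hm1 hm3 c.2.1 (hpt1 c _)
      exact hac (Subtype.ext (e1.symm.trans e2))
    refine hs2' z (by simp [Pts, hz, hzX]) ⟨?_, ?_⟩
    · exact (hcol z hz hzX a c j _).2 h1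
    · exact (hcol z hz hzX a c j' _).2 h2
  · rintro ⟨⟨a, b, c, Z⟩, ⟨j, j'⟩⟩ hs ⟨⟨a1, b1, c1, Z1⟩, ⟨j1, j1'⟩⟩ hs1 he
    simp only [Prod.mk.injEq] at he
    obtain ⟨e1, e2, e3, e4, e5, e6⟩ := he
    rw [mem_coe, mem_sigma] at hs hs1
    have ht' := mem_bads.1 hs.1
    have ht1' := mem_bads.1 hs1.1
    obtain ⟨rfl, rfl⟩ := hinj1 _ _ _ _ e1
    obtain ⟨-, rfl⟩ := hinj1 _ _ _ _ e2
    obtain ⟨rfl, -⟩ := hinj1 _ _ _ _ e3
    obtain ⟨rfl, e7⟩ := hinj1 _ _ _ _ e5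
    have := hC.inj ht'.2.2.1 ht'.2.2.2.1 ht1'.2.2.2.1 j e7
    rw [this]

/-- The main inequality. -/
theorem two_points (l : L) (V W : P) (hV : V ∈ l) (hW : W ∈ l) (hVW : V ≠ W)
    (hnp : ¬ IsPrimePow (ProjectivePlane.order P L)) :
    (ProjectivePlane.order P L) ^ 3 * (ProjectivePlane.order P L - 2) ≤
      294 * (failCount l V W + failCount l W V) ∧
    2 * (ProjectivePlane.order P L) ^ 5 ≤ 441 * (openCount l V W + openCount l W V) := by
  obtain ⟨n, hn⟩ : ∃ n, n = ProjectivePlane.order P L := ⟨_, rfl⟩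
  have hn1 : 1 < n := by rw [hn]; exact ProjectivePlane.one_lt_order P L
  have h6 : 6 ≤ n := by
    by_contra h6
    push Not at h6
    apply hnp
    rw [← hn]
    interval_cases n
    · exact (Nat.prime_two).isPrimePow
    · exact (Nat.prime_three).isPrimePow
    · exact ⟨2, 2, Nat.prime_iff.mp Nat.prime_two, by norm_num, by norm_num⟩
    · exact (Nat.prime_five).isPrimePow
  obtain ⟨σ, hσ⟩ := exists_sigma hV hW hVW
  obtain ⟨ρ, hρ⟩ := exists_sigma hW hV hVW.symm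
  have hT : n ^ 3 * (n - 2) ≤ 294 * (TT (Pts l V) σ + TT (Pts l W) ρ) := by
    by_contra hlt
    push Not at hlt
    exact hnp (hn ▸ isPrimePow_of_TT hV hW hVW n hn h6 σ hσ ρ hρ hlt)
  have t1 := TT_le_bads (Pts l V) σ
  have t2 := TT_le_bads (Pts l W) ρ
  have f1 := bads_le_fail hV hW hVW σ hσ
  have f2 := bads_le_fail hW hV hVW.symm ρ hρ
  have o1 := bads_le_open hV hW hVW σ hσ
  have o2 := bads_le_open hW hV hVW.symm ρ hρ
  rw [← hn] at o1 o2 ⊢
  constructor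
  · omega
  · have h1 : n ^ 3 * (n - 2) ≤ 294 * ((bads (Pts l V) σ).card + (bads (Pts l W) ρ).card) := by omega
    have h2 : 2 * n ≤ 3 * (n - 2) := by omega
    calc 2 * n ^ 5 = n * (n ^ 3 * (2 * n)) := by ring
      _ ≤ n * (n ^ 3 * (3 * (n - 2))) := by gcongr
      _ = 3 * (n * (n ^ 3 * (n - 2))) := by ring
      _ ≤ 3 * (n * (294 * ((bads (Pts l V) σ).card + (bads (Pts l W) ρ).card))) := by gcongr
      _ = 441 * (2 * n * (bads (Pts l V) σ).card + 2 * n * (bads (Pts l W) ρ).card) := by ring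
      _ ≤ _ := by gcongr

end Plane

end Pool.Agent.H178.TwoA
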